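import Pool.Agent.H79.HT.Child

/-!
# Module LEAF [H79 HT]: non-children of a row

PROOFS. `leaf_unique`: if `τ ≠ τ'`: `98κ ≤ p τ z⁻¹`, `98κ ≤ p z⁻¹ τ'` (`claimA`), so
`98κ ≤ p τ τ' + κ ≤ 2κ` (`p_Th`).
`leaf_E`: `v = w t₁`, `t₁ ∈ E`, `isR v τ₁`, suppose `t₂ ∈ Th`, not `CR w t₂`; `p w⁻¹ t₂ ≥ 98κ`. Put
`x = t₁ τ₁⁻¹`. `pe w⁻¹ x`: `len (w x) = len w + len x - p w⁻¹ x` and `w x = v τ₁⁻¹`. By `isR_p` and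
`len_mul_eq` `len (v τ₁⁻¹) = len v + len τ₁ - p v⁻¹ τ₁⁻¹`. `len v ≤ len w + len t₁`,
`len τ₁⁻¹ ≤ len t₁ + len x` (`τ₁⁻¹ = t₁⁻¹ x`). So `p w⁻¹ x ≥ p v⁻¹ τ₁⁻¹ - 2 len t₁ ≥ 2L - 103κ`. `p_hyp`
(`x, w⁻¹, t₂`): `98κ ≤ p x t₂ + κ`. `sc1` with `a = x`, `t = τ₁`, `s = t₂` (`x τ₁ = t₁`; `x ∉ N` as
`len x ≥ L - κ > 0`): `p x t₂ ≤ p t₁ t₂ + κ ≤ 2 len t₁ + κ ≤ 2κ`. Contradiction.
`leaf_two`: two bad leaves are equal (`leaf_unique`); one bad leaf and one in `E`: `leaf_E`. So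
`t₁, t₂ ∈ E`. `e = t₁⁻¹ t₂`, `len e ≤ len t₁ + len t₂ ≤ κ`. `v₂ = w t₂ = v₁ e`. Put
`x = e⁻¹ τ₁⁻¹`. `pe v₂⁻¹ x`: `len (v₂ x) = len v₂ + len x - p v₂⁻¹ x`, `v₂ x = v₁ τ₁⁻¹`,
`len v₂ ≥ len v₁ - κ`, `len x ≥ len τ₁ - κ`: `p v₂⁻¹ x ≥ p v₁⁻¹ τ₁⁻¹ - 2κ ≥ 2L - 104κ`. `p_hyp`
(`x, v₂⁻¹, τ₂⁻¹`): `2L - 105κ ≤ p x τ₂⁻¹`. If not (`e ∈ N` and `τ₁ = τ₂`): `sc2` with `a = x`,
`t = τ₁`, `s = τ₂` (`x τ₁ = e⁻¹`): the condition `τ₂ x ∈ N → τ₂ ≠ τ₁` holds, since for `τ₂ = τ₁`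
`τ₁ e⁻¹ τ₁⁻¹ = m ∈ N` gives `e⁻¹ = τ₁⁻¹ m τ₁ = m` (`comm`). So
`p x τ₂⁻¹ ≤ p e⁻¹ τ₂⁻¹ + κ ≤ 2 len e + κ ≤ 3κ`. Contradiction.
-/

set_option autoImplicit false

open scoped Classical

namespace Pool.Agent.H79.HT

namespace TD

variable {G : Type*} [Group G] (D : TD G)

theorem leaf_unique {z τ τ' : G} (hτ : τ ∈ D.Th) (hτ' : τ' ∈ D.Th) (h : ¬ D.CR z τ)
    (h' : ¬ D.CR z τ') : τ = τ' := by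
  by_contra hne
  have h1 := (D.claimA hτ).2 h
  have h2 := (D.claimA hτ').2 h'
  rw [D.p_comm] at h1
  have h3 := D.p_hyp h1 h2
  have h4 := D.p_Th hτ hτ' hne
  have h5 := D.hκ
  omega

theorem leaf_unique' {y σ σ' : G} (hσ : σ ∈ D.Th) (hσ' : σ' ∈ D.Th) (h : ¬ D.CL σ y)
    (h' : ¬ D.CL σ' y) : σ = σ' :=
  inv_injective (D.op.leaf_unique (D.inv_mem_op_Th.2 hσ) (D.inv_mem_op_Th.2 hσ') h h')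

theorem leaf_E {w t₁ τ₁ t₂ : G} (ht₁ : t₁ ∈ D.E) (h : D.isR (w * t₁) τ₁) (ht₂ : t₂ ∈ D.Th) :
    D.CR w t₂ := by
  by_contra hn
  have hκ := D.hκ
  have hL := D.hL
  have h98 := (D.claimA ht₂).2 hn
  obtain ⟨x, hx⟩ : ∃ x, x = t₁ * τ₁⁻¹ := ⟨_, rfl⟩
  have e1 : w * x = w * t₁ * τ₁⁻¹ := by rw [hx]; group
  have e2 : t₁⁻¹ * x = τ₁⁻¹ := by rw [hx]; group
  have e3 : x * τ₁ = t₁ := by rw [hx]; group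
  have l1 := D.len_mul_eq w x
  have l2 := D.len_mul_eq (w * t₁) τ₁⁻¹
  rw [← e1] at l2
  have l3 := D.isR_p h
  have l4 := D.len_mul w t₁
  have l5 := D.len_mul t₁⁻¹ x
  rw [e2, D.len_inv, D.len_inv] at l5
  rw [D.len_inv] at l2
  have l6 := D.lenE _ ht₁
  have l7 := D.lenT _ h.1
  have l8 : 98 * D.κ ≤ D.p x w⁻¹ := by
    rw [D.p_comm]
    omega
  have l9 := D.p_hyp l8 h98
  have hxN : x ∉ D.N := by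
    intro hxN
    have := D.len_N hxN
    omega
  have l10 := (D.sc1 x τ₁ h.1 t₂ ht₂ (fun hxN' => absurd hxN' hxN)).2
  rw [e3] at l10
  have l11 := D.p_le_left t₁ t₂
  unfold p at l9 l11
  omega

theorem leaf_two {w t₁ t₂ τ₁ τ₂ : G} (h1 : D.NR w t₁) (h2 : D.NR w t₂) (hne : t₁ ≠ t₂)
    (k1 : D.isR (w * t₁) τ₁) (k2 : D.isR (w * t₂) τ₂) :
    t₁ ∈ D.E ∧ t₂ ∈ D.E ∧ τ₁ = τ₂ ∧ t₁⁻¹ * t₂ ∈ D.N := by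
  have hE : t₁ ∈ D.E ∧ t₂ ∈ D.E := by
    rcases h1 with a1 | ⟨a1, b1⟩
    · rcases h2 with a2 | ⟨a2, b2⟩
      · exact ⟨a1, a2⟩
      · exact absurd (D.leaf_E a1 k1 a2) b2
    · rcases h2 with a2 | ⟨a2, b2⟩
      · exact absurd (D.leaf_E a2 k2 a1) b1
      · exact absurd (D.leaf_unique a1 a2 b1 b2) hne
  obtain ⟨a1, a2⟩ := hE
  refine ⟨a1, a2, ?_⟩
  by_contra hcon
  have hκ := D.hκ
  have hL := D.hL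
  obtain ⟨e, he⟩ : ∃ e, e = t₁⁻¹ * t₂ := ⟨_, rfl⟩
  rw [← he] at hcon
  obtain ⟨x, hx⟩ : ∃ x, x = e⁻¹ * τ₁⁻¹ := ⟨_, rfl⟩
  have e1 : w * t₂ * x = w * t₁ * τ₁⁻¹ := by rw [hx, he]; group
  have e2 : e * x = τ₁⁻¹ := by rw [hx]; group
  have e3 : x * τ₁ = e⁻¹ := by rw [hx]; group
  have e4 : w * t₂ * e⁻¹ = w * t₁ := by rw [he]; group
  have c1 := D.lenE _ a1
  have c2 := D.lenE _ a2
  have c3 := D.len_mul t₁⁻¹ t₂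
  rw [← he, D.len_inv] at c3
  have l1 := D.len_mul_eq (w * t₂) x
  have l2 := D.len_mul_eq (w * t₁) τ₁⁻¹
  rw [← e1, D.len_inv] at l2
  have l3 := D.len_mul (w * t₂) e⁻¹
  rw [e4, D.len_inv] at l3
  have l4 := D.len_mul e x
  rw [e2, D.len_inv] at l4
  have l5 := D.isR_p k1
  have l6 := D.isR_p k2
  have l7 : 2 * D.L - 104 * D.κ ≤ D.p x (w * t₂)⁻¹ := by
    rw [D.p_comm]
    omega
  have l8 : 2 * D.L - 104 * D.κ ≤ D.p (w * t₂)⁻¹ τ₂⁻¹ := by omega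
  have l9 := D.p_hyp l7 l8
  have l10 := (D.sc2 x τ₁ k1.1 τ₂ k2.1 (by
    intro hN heq
    subst heq
    apply hcon
    refine ⟨rfl, ?_⟩
    have h3 := D.comm _ hN _ k2.1
    have h4 : τ₂ * x * τ₂ = τ₂ * e⁻¹ := by rw [mul_assoc, e3]
    rw [h4] at h3
    have h5 : e⁻¹ = τ₂ * x := mul_left_cancel h3
    rw [← h5] at hN
    exact D.N.inv_mem_iff.1 hN)).2
  rw [e3] at l10
  have l11 := D.p_le_left e⁻¹ τ₂⁻¹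
  rw [D.len_inv] at l11
  unfold p at l9 l11
  omega

end TD

end Pool.Agent.H79.HT
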