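import Pool.Agent.H79.HT.Time
import Pool.Agent.H79.HT.Leaf

/-!
# Module PEIGHT [H79 HT]: conflicts of two free columns

PROOF of `p8`. `y₁ = y₂ t₂⁻¹ t₁`. Suppose `p y₁⁻¹ t₁⁻¹ ≤ 4κ`. Then
`len (y₁ t₁⁻¹) = len y₁ + len t₁ - p y₁⁻¹ t₁⁻¹ ≥ len y₁ + L - 4κ` (`len_mul_eq`, `len_inv`),
`y₁ t₁⁻¹ = y₂ t₂⁻¹`, so `len y₂ ≥ len y₁ + L - 5κ`; `ct y₂ ≥ len y₂ - 51κ` (`ct_lower`),
`ct y₁ ≤ len y₁ + 100κ` (`ct_upper`), `L ≥ 1000κ`.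
PROOF of `back_unique`: if `b ≠ b'`: `4κ < p b⁻¹ y⁻¹`, `4κ < p y⁻¹ b'⁻¹`, so `4κ < p b⁻¹ b'⁻¹ + κ ≤ 2κ`
(`p_inv_inv`).
-/

set_option autoImplicit false

open scoped Classical

namespace Pool.Agent.H79.HT

namespace TD

variable {G : Type*} [Group G] (D : TD G)

theorem p8 {y₂ t₂ t₁ : G} (ht₂ : t₂ ∈ D.E) (ht₁ : t₁ ∈ D.Th) :
    D.ct (y₂ * t₂⁻¹ * t₁) < D.ct y₂ ∨ 4 * D.κ < D.p (y₂ * t₂⁻¹ * t₁)⁻¹ t₁⁻¹ := by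
  by_cases h : 4 * D.κ < D.p (y₂ * t₂⁻¹ * t₁)⁻¹ t₁⁻¹
  · exact Or.inr h
  left
  have h1 := D.len_mul_eq (y₂ * t₂⁻¹ * t₁) t₁⁻¹
  rw [mul_inv_cancel_right, D.len_inv] at h1
  have h2 := D.len_mul y₂ t₂⁻¹
  rw [D.len_inv] at h2
  have h3 := D.lenE t₂ ht₂
  have h4 := D.lenT t₁ ht₁
  have h5 := D.ct_lower y₂
  have h6 := D.ct_upper (y₂ * t₂⁻¹ * t₁)
  have h7 := D.hL
  have h8 := D.hκ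
  omega

theorem back_unique {y b b' : G} (hb : b ∈ D.Th) (hb' : b' ∈ D.Th)
    (h : 4 * D.κ < D.p y⁻¹ b⁻¹) (h' : 4 * D.κ < D.p y⁻¹ b'⁻¹) : b = b' := by
  by_contra hne
  rw [D.p_comm] at h
  have h1 := D.p_hyp h.le h'.le
  have h2 := D.p_inv_inv hb hb' hne
  have h3 := D.hκ
  omega

end TD

end Pool.Agent.H79.HT
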