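import Pool.Agent.H79.HT.Leaf
import Pool.Agent.H79.HT.PEight

/-!
# Module GMCARD [H79 HT]: the finite sets of the recursion

PROOFS. `Gm_fin`: for `t₂ ∈ E` the set of `t₁` with `NR (y t₂⁻¹) t₁` is `E` together with the bad leaves,
at most one (`leaf_unique`): `B t₂ = E ∪ Th.filter (¬ CR (y t₂⁻¹) ·)`, `card ≤ |E| + 1`
(`Finset.card_le_one`). `F = E.biUnion (fun t₂ => (B t₂).image (t₂⁻¹ * ·))`
(`Finset.card_biUnion_le`, `Finset.sum_le_card_nsmul`).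
`back_fin`: `B = Th.filter (4κ < p y⁻¹ ·⁻¹)` has at most one element (`back_unique`),
`F = (B ×ˢ E).image (fun q => y * q.1⁻¹ * q.2)`.
`NE_fin`: `F = (E ×ˢ E).image (fun q => q.1⁻¹ * q.2)`. `Gm_E`: `t₁ ∈ E` is `NR`.
-/

set_option autoImplicit false

open scoped Classical

namespace Pool.Agent.H79.HT

namespace TD

variable {G : Type*} [Group G] (D : TD G)

theorem Gm_fin (y : G) : ∃ F : Finset G, F.card ≤ D.E.card * (D.E.card + 1) ∧
    ∀ g, D.Gm y g → g ∈ F := by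
  let B : G → Finset G := fun t₂ => D.E ∪ D.Th.filter (fun t => ¬ D.CR (y * t₂⁻¹) t)
  have hB : ∀ t₂, (B t₂).card ≤ D.E.card + 1 := by
    intro t₂
    refine (Finset.card_union_le _ _).trans ?_
    apply Nat.add_le_add_left
    rw [Finset.card_le_one]
    intro a ha b hb
    rw [Finset.mem_filter] at ha hb
    exact D.leaf_unique ha.1 hb.1 ha.2 hb.2
  refine ⟨D.E.biUnion (fun t₂ => (B t₂).image (fun t => t₂⁻¹ * t)), ?_, ?_⟩
  · exact Finset.card_biUnion_le_card_mul _ _ _ (fun t₂ _ => Finset.card_image_le.trans (hB t₂))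
  · rintro g ⟨t₂, ht₂, t₁, ht₁, rfl⟩
    refine Finset.mem_biUnion.2 ⟨t₂, ht₂, Finset.mem_image.2 ⟨t₁, ?_, rfl⟩⟩
    show t₁ ∈ D.E ∪ D.Th.filter (fun t => ¬ D.CR (y * t₂⁻¹) t)
    rw [Finset.mem_union, Finset.mem_filter]
    exact ht₁

theorem back_fin (y : G) : ∃ F : Finset G, F.card ≤ D.E.card ∧
    ∀ b ∈ D.Th, ∀ t ∈ D.E, 4 * D.κ < D.p y⁻¹ b⁻¹ → y * b⁻¹ * t ∈ F := by
  let B : Finset G := D.Th.filter (fun b => 4 * D.κ < D.p y⁻¹ b⁻¹)
  have hB : B.card ≤ 1 := by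
    rw [Finset.card_le_one]
    intro a ha b hb
    rw [Finset.mem_filter] at ha hb
    exact D.back_unique ha.1 hb.1 ha.2 hb.2
  refine ⟨(B ×ˢ D.E).image (fun q => y * q.1⁻¹ * q.2), ?_, ?_⟩
  · refine Finset.card_image_le.trans ?_
    rw [Finset.card_product]
    calc B.card * D.E.card ≤ 1 * D.E.card := Nat.mul_le_mul_right _ hB
      _ = D.E.card := one_mul _
  · intro b hb t ht h
    exact Finset.mem_image.2 ⟨(b, t), Finset.mem_product.2 ⟨Finset.mem_filter.2 ⟨hb, h⟩, ht⟩, rfl⟩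

theorem NE_fin : ∃ F : Finset G, F.card ≤ D.E.card ^ 2 ∧ ∀ n, D.NE n → n ∈ F := by
  refine ⟨(D.E ×ˢ D.E).image (fun q => q.1⁻¹ * q.2), ?_, ?_⟩
  · refine Finset.card_image_le.trans ?_
    rw [Finset.card_product, sq]
  · rintro n ⟨-, -, e, he, f, hf, rfl⟩
    exact Finset.mem_image.2 ⟨(e, f), Finset.mem_product.2 ⟨he, hf⟩, rfl⟩

theorem Gm_E {y e f : G} (he : e ∈ D.E) (hf : f ∈ D.E) : D.Gm y (e⁻¹ * f) :=
  ⟨e, he, f, Or.inl hf, rfl⟩

theorem Gm_one (y : G) : D.Gm y 1 := by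
  have h := D.Gm_E (y := y) D.oneE D.oneE
  rwa [inv_one, one_mul] at h

end TD

end Pool.Agent.H79.HT
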