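import Mathlib

/-!
# Module GREEDY [H79 HT]: greedy choices along a well-order (Mathlib only)

PROOF. Well-order `V` (`WellOrderingRel`, `IsWellOrder V WellOrderingRel`). By well-founded recursion
choose `f v` with `ok v (f v)` and `¬ R v (f v) w (f w)` for all `w ∈ nb v` with `w < v`. (The lemma
`exists_rec` of `Pool/Agent/H79/FP/Colour.lean` may be copied: it is convenient to look for `f` with
`P v (f v) f` for all `v`, where `P v c g` says: `ok v c`, and for all `w ∈ nb v` with `w < v` and
`ok w (g w)`, `¬ R v c w (g w)`. For `P`-existence take `h w = g w` if `w < v` and `ok w (g w)`, and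
some `ok` element otherwise, and apply `hex`.) Then `ok v (f v)` for all `v`; if `v ≠ w`, one of them
is smaller, say `w < v`; if `R v (f v) w (f w)` then `w ∈ nb v` (`hnb`), contradiction; if `v < w` use
`hsymm`.
-/

set_option autoImplicit false

open scoped Classical

namespace Pool.Agent.H79.HT

theorem greedy {V C : Type*} (ok : V → C → Prop) (R : V → C → V → C → Prop)
    (nb : V → Finset V) (hok : ∀ v, ∃ c, ok v c)
    (hsymm : ∀ v c w d, R v c w d → R w d v c) (hnb : ∀ v c w d, R v c w d → w ∈ nb v)
    (hex : ∀ v, ∀ h : V → C, (∀ w, ok w (h w)) → ∃ c, ok v c ∧ ∀ w ∈ nb v, ¬ R v c w (h w)) :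
    ∃ f : V → C, (∀ v, ok v (f v)) ∧ ∀ v w, v ≠ w → ¬ R v (f v) w (f w) := by
  let r : V → V → Prop := WellOrderingRel
  have wf : WellFounded r := IsWellFounded.wf
  let H : ∀ v, (∀ w, r w v → C) → V → C := fun v rec w =>
    if hw : ∃ h : r w v, ok w (rec w h) then rec w hw.1 else Classical.choose (hok w)
  have hH : ∀ v rec w, ok w (H v rec w) := by
    intro v rec w
    by_cases hw : ∃ h : r w v, ok w (rec w h)
    · have h1 : H v rec w = rec w hw.1 := dif_pos hw
      rw [h1]
      exact hw.2
    · have h1 : H v rec w = Classical.choose (hok w) := dif_neg hw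
      rw [h1]
      exact Classical.choose_spec (hok w)
  let F : ∀ v, (∀ w, r w v → C) → C := fun v rec =>
    Classical.choose (hex v (H v rec) (hH v rec))
  have hF : ∀ v rec, ok v (F v rec) ∧ ∀ w ∈ nb v, ¬ R v (F v rec) w (H v rec w) := fun v rec =>
    Classical.choose_spec (hex v (H v rec) (hH v rec))
  let f : V → C := wf.fix F
  have hf : ∀ v, f v = F v (fun w _ => f w) := fun v => wf.fix_eq F v
  have hokf : ∀ v, ok v (f v) := by
    intro v
    rw [hf v]
    exact (hF v _).1
  have hlt : ∀ v w, r w v → ¬ R v (f v) w (f w) := by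
    intro v w hwv hR
    have h1 := hnb v (f v) w (f w) hR
    have h2 := (hF v (fun w _ => f w)).2 w h1
    have h3 : H v (fun w _ => f w) w = f w := dif_pos ⟨hwv, hokf w⟩
    rw [h3, ← hf v] at h2
    exact h2 hR
  refine ⟨f, hokf, fun v w hvw hR => ?_⟩
  rcases trichotomous_of r v w with h | h | h
  · exact hlt w v h (hsymm v (f v) w (f w) hR)
  · exact hvw h
  · exact hlt v w h hR

end Pool.Agent.H79.HT
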