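import Mathlib

/-!
# Module HALL [H79 HT]: a bijection avoiding few bad pairs (Mathlib only)

PROOF. `Finset.all_card_le_biUnion_card_iff_exists_injective` (or
`Finset.all_card_le_biUnion_card_iff_existsInjective'`) for `ι = s` (the subtype `{a // a ∈ s}`) and
`T a = t.filter (¬ bad a ·)`. Hall's condition for a finset `S` of `ι`: `S` empty: clear. If
`|S| ≤ |s| - d`: for `a ∈ S` `|T a| ≥ |t| - d = |s| - d ≥ |S|`, and `T a ⊆ S.biUnion T`. If
`|S| > |s| - d`: then `|S| > d` (`2 d ≤ |s|`), and every `b ∈ t` is in some `T a`, `a ∈ S`, because at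
most `d` elements of `s` are bad for `b` (`h2`); so `S.biUnion T = t`, `|t| = |s| ≥ |S|`.
The injective `f : s → β` with `f a ∈ T a` is a bijection onto `t` (`|s| = |t|`):
`M a b := ∃ h : a ∈ s, f ⟨a, h⟩ = b`. (`Finset.surj_on_of_inj_on_of_card_le` or
`Finset.eq_of_subset_of_card_le` for the image of `f`.)
-/

set_option autoImplicit false

open scoped Classical

namespace Pool.Agent.H79.HT

theorem hall_avoid {α β : Type*} (s : Finset α) (t : Finset β) (hst : s.card = t.card)
    (bad : α → β → Prop) (d : ℕ) (hd : 2 * d ≤ s.card)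
    (h1 : ∀ a ∈ s, (t.filter (fun b => bad a b)).card ≤ d)
    (h2 : ∀ b ∈ t, (s.filter (fun a => bad a b)).card ≤ d) :
    ∃ M : α → β → Prop, (∀ a b, M a b → a ∈ s ∧ b ∈ t ∧ ¬ bad a b) ∧
      (∀ a ∈ s, ∃! b, M a b) ∧ (∀ b ∈ t, ∃! a, M a b) := by
  let T : s → Finset β := fun a => t.filter fun b => ¬ bad a b
  have hall : ∀ S : Finset s, S.card ≤ (S.biUnion T).card := by
    intro S
    rcases S.eq_empty_or_nonempty with rfl | hne
    · simp
    by_cases hS : S.card + d ≤ s.card
    · obtain ⟨a, ha⟩ := hne
      have h3 : (T a).card ≤ (S.biUnion T).card :=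
        Finset.card_le_card (Finset.subset_biUnion_of_mem T ha)
      have h4 := Finset.card_filter_add_card_filter_not (s := t) (fun b => bad a b)
      have h5 := h1 a a.2
      have h6 : (T a).card = (t.filter fun b => ¬ bad a b).card := rfl
      omega
    · have h3 : S.biUnion T = t := by
        apply Finset.Subset.antisymm
        · intro b hb
          rw [Finset.mem_biUnion] at hb
          obtain ⟨a, _, hb⟩ := hb
          exact (Finset.mem_filter.1 hb).1
        · intro b hb
          by_contra hcon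
          have h4 : S.map (Function.Embedding.subtype _) ⊆ s.filter fun a => bad a b := by
            intro a ha
            rw [Finset.mem_map] at ha
            obtain ⟨a', ha', rfl⟩ := ha
            rw [Finset.mem_filter]
            refine ⟨a'.2, ?_⟩
            by_contra hbad
            exact hcon (Finset.mem_biUnion.2 ⟨a', ha', Finset.mem_filter.2 ⟨hb, hbad⟩⟩)
          have h5 := Finset.card_le_card h4
          rw [Finset.card_map] at h5
          have h6 := h2 b hb
          omega
      rw [h3, ← hst]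
      have h4 := Finset.card_le_univ S
      rwa [Fintype.card_coe] at h4
  obtain ⟨f, hinj, hf⟩ := (Finset.all_card_le_biUnion_card_iff_exists_injective T).1 hall
  have hft : ∀ a, f a ∈ t := fun a => (Finset.mem_filter.1 (hf a)).1
  have himg : Finset.univ.image f = t := by
    apply Finset.eq_of_subset_of_card_le
    · intro b hb
      rw [Finset.mem_image] at hb
      obtain ⟨a, _, rfl⟩ := hb
      exact hft a
    · rw [Finset.card_image_of_injective _ hinj, Finset.card_univ, Fintype.card_coe, hst]
  refine ⟨fun a b => ∃ h : a ∈ s, f ⟨a, h⟩ = b, ?_, ?_, ?_⟩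
  · rintro a b ⟨h, rfl⟩
    exact ⟨h, hft _, (Finset.mem_filter.1 (hf ⟨a, h⟩)).2⟩
  · intro a ha
    refine ⟨f ⟨a, ha⟩, ⟨ha, rfl⟩, ?_⟩
    rintro b ⟨_, hb⟩
    exact hb.symm
  · intro b hb
    rw [← himg, Finset.mem_image] at hb
    obtain ⟨a, _, rfl⟩ := hb
    refine ⟨a, ⟨a.2, rfl⟩, ?_⟩
    rintro a' ⟨ha', h'⟩
    have h3 := hinj h'
    exact congrArg Subtype.val h3

end Pool.Agent.H79.HT
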