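import Pool.Agent.H79.HT.Time

/-!
# Module NINVB [H79 HT]: multiplication by elements of `N`, times

PROOFS. `rt_mulN`: by `isL_mulN`: cell row `z` (`isL z σ`): `rt_cell` for both,
`tc (σ⁻¹ (z n)) = tc (σ⁻¹ z)` (`len_mul_N`); free (`rt_free`): `tR (z n) = tR z`: `z n ∈ N ↔ z ∈ N`,
`p t (z n) = p t z` (`pe`: `len (t⁻¹ (z n)) = len (t⁻¹ z)`, `len_mul_N`), `len (z n) = len z`.
`rt_Nmul`: `len (σ⁻¹ (n z)) = len (n (σ⁻¹ z)) = len (σ⁻¹ z)` by `comm` and `lenN`; `n z ∈ N ↔ z ∈ N`;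
`p t (n z) = p t z`: `len (t⁻¹ (n z)) = len (n (t⁻¹ z)) = len (t⁻¹ z)` for `t ∈ Th`.
-/

set_option autoImplicit false

open scoped Classical

namespace Pool.Agent.H79.HT

namespace TD

variable {G : Type*} [Group G] (D : TD G)

theorem rt_mulN {z n : G} (hn : n ∈ D.N) : D.rt (z * n) = D.rt z := by
  by_cases h : ∃ σ, D.isL z σ
  · obtain ⟨σ, h⟩ := h
    rw [D.rt_cell h, D.rt_cell ((D.isL_mulN hn).2 h)]
    unfold tc
    rw [← mul_assoc, D.len_mul_N hn]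
  · have h1 : ∀ σ, ¬ D.isL z σ := fun σ hσ => h ⟨σ, hσ⟩
    have h2 : ∀ σ, ¬ D.isL (z * n) σ := fun σ hσ => h1 σ ((D.isL_mulN hn).1 hσ)
    rw [D.rt_free h1, D.rt_free h2]
    have e1 : z * n ∈ D.N ↔ z ∈ D.N := D.N.mul_mem_cancel_right hn
    have e2 : ∀ t, D.p t (z * n) = D.p t z := by
      intro t
      have a1 := D.pe t (z * n)
      have a2 := D.pe t z
      rw [← mul_assoc, D.len_mul_N hn, D.len_mul_N hn] at a1
      omega
    unfold tR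
    simp only [e1, e2, D.len_mul_N hn]

theorem rt_Nmul {z n : G} (hn : n ∈ D.N) : D.rt (n * z) = D.rt z := by
  have hc : ∀ t ∈ D.Th, t⁻¹ * (n * z) = n * (t⁻¹ * z) := by
    intro t ht
    have h1 := D.comm n hn t ht
    have h2 : t⁻¹ * n = n * t⁻¹ := by
      rw [inv_mul_eq_iff_eq_mul, ← mul_assoc, ← h1, mul_inv_cancel_right]
    rw [← mul_assoc, h2, mul_assoc]
  by_cases h : ∃ σ, D.isL z σ
  · obtain ⟨σ, h⟩ := h
    rw [D.rt_cell h, D.rt_cell ((D.isL_Nmul hn).2 h)]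
    unfold tc
    rw [hc σ (D.isL_iff.1 h).1, D.lenN n hn]
  · have h1 : ∀ σ, ¬ D.isL z σ := fun σ hσ => h ⟨σ, hσ⟩
    have h2 : ∀ σ, ¬ D.isL (n * z) σ := fun σ hσ => h1 σ ((D.isL_Nmul hn).1 hσ)
    rw [D.rt_free h1, D.rt_free h2]
    have e1 : n * z ∈ D.N ↔ z ∈ D.N := D.N.mul_mem_cancel_left hn
    have e2 : (∃ t ∈ D.Th, 4 * D.κ < D.p t (n * z)) ↔ ∃ t ∈ D.Th, 4 * D.κ < D.p t z := by
      have e3 : ∀ t ∈ D.Th, D.p t (n * z) = D.p t z := by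
        intro t ht
        have a1 := D.pe t (n * z)
        have a2 := D.pe t z
        rw [hc t ht, D.lenN n hn, D.lenN n hn] at a1
        omega
      constructor
      · rintro ⟨t, ht, h3⟩
        exact ⟨t, ht, by rw [← e3 t ht]; exact h3⟩
      · rintro ⟨t, ht, h3⟩
        exact ⟨t, ht, by rw [e3 t ht]; exact h3⟩
    unfold tR
    simp only [e1, e2, D.lenN n hn]

theorem ct_mulN {y n : G} (hn : n ∈ D.N) : D.ct (y * n) = D.ct y := by
  unfold ct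
  rw [mul_inv_rev]
  exact D.op.rt_Nmul (D.N.inv_mem hn)

theorem ct_Nmul {y n : G} (hn : n ∈ D.N) : D.ct (n * y) = D.ct y := by
  unfold ct
  rw [mul_inv_rev]
  exact D.op.rt_mulN (D.N.inv_mem hn)

theorem tc_mulN {c n : G} (hn : n ∈ D.N) : D.tc (c * n) = D.tc c := by
  unfold tc
  rw [D.len_mul_N hn]

theorem tc_Nmul {c n : G} (hn : n ∈ D.N) : D.tc (n * c) = D.tc c := by
  unfold tc
  rw [D.lenN n hn]

end TD

end Pool.Agent.H79.HT
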