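import Pool.Agent.H79.HT.CellB
import Pool.Agent.H79.HT.GmCard
import Pool.Agent.H79.HT.NInvB
import Pool.Agent.H79.HT.Greedy
import Pool.Agent.H79.HT.Hall

/-!
# Module CELLM [H79 HT]: the matchings in the cells

PROOF. `greedy` with `V = G`, `C = G → G → Prop`,
`ok c M := tc c = n → (∀ σ τ, M σ τ → UL X c σ ∧ op.UL (iv X) c⁻¹ τ⁻¹) ∧ (∀ σ, UL X c σ → ∃! τ, M σ τ) ∧
(∀ τ, op.UL (iv X) c⁻¹ τ⁻¹ → ∃! σ, M σ τ)`,
`R c M c' M' := tc c = n ∧ tc c' = n ∧ (∃ σ τ, M σ τ ∧ M' σ τ) ∧ ((∃ m, NE m ∧ c' = c m) ∨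
(∃ m, op.NE m ∧ c' = m c))`. Symmetric: `NE m → NE m⁻¹` (`NE_inv`, also for `D.op`).
`nb c := (F₁.image (c * ·)) ∪ (F₂.image (· * c))` with `F₁, F₂` from `NE_fin` for `D` and `D.op`
(`card ≤ |E|²` each, `op_E_card`). `hok` and `hex`: if `tc c ≠ n` take anything. If `tc c = n` apply
`hall_avoid` with `s = Th.filter (UL X c)`, `t = Th.filter (fun τ => op.UL (iv X) c⁻¹ τ⁻¹)`
(`cell_card`), `d = 2 |E|²`, `bad σ τ := ∃ c' ∈ nb c, tc c' = n ∧ h c' σ τ` (for `hok`: `bad` false).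
For fixed `σ` and `c'` there is at most one `τ` with `h c' σ τ`: `h c' σ τ` gives `UL X c' σ`, so `τ` is
unique (`∃!`); so at most `|nb c| ≤ 2 |E|²` bad `τ`; same for fixed `τ`. `2 d = 4 |E|² ≤ |s|` by
`cell_large` and `card`: `|s| ≥ 10 |E|² - |E| - 2`, `|E| ≥ 1` (`oneE`). The result `M` of `hall_avoid`
satisfies `ok` (`UL` implies `σ ∈ Th`; `op_UL` gives `τ ∈ Th`).
From `greedy` we get `M : G → G → G → Prop`; `nr`: `c' = c m`, `c' ≠ c` since `m ≠ 1`, `tc (c m) = tc c`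
(`tc_mulN`); `nl`: `c' = m c` (`tc_Nmul`).
-/

set_option autoImplicit false

open scoped Classical

namespace Pool.Agent.H79.HT

namespace TD

variable {G : Type*} [Group G] (D : TD G)

theorem cellM {n : ℤ} {X : Set G} (hX : D.Inv n X) : ∃ M : G → G → G → Prop, D.MC n X M := by
  obtain ⟨F₁, hF₁, hF₁'⟩ := D.NE_fin
  obtain ⟨F₂, hF₂, hF₂'⟩ := D.op.NE_fin
  rw [op_E_card] at hF₂
  let okb : G → (G → G → Prop) → Prop := fun c M =>
    (∀ σ τ, M σ τ → D.UL X c σ ∧ D.op.UL (iv X) c⁻¹ τ⁻¹) ∧ (∀ σ, D.UL X c σ → ∃! τ, M σ τ) ∧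
      (∀ τ, D.op.UL (iv X) c⁻¹ τ⁻¹ → ∃! σ, M σ τ)
  let ok : G → (G → G → Prop) → Prop := fun c M => D.tc c = n → okb c M
  let R : G → (G → G → Prop) → G → (G → G → Prop) → Prop := fun c M c' M' =>
    D.tc c = n ∧ D.tc c' = n ∧ (∃ σ τ, M σ τ ∧ M' σ τ) ∧
      ((∃ m, D.NE m ∧ c' = c * m) ∨ (∃ m, D.op.NE m ∧ c' = m * c))
  let nb : G → Finset G := fun c => F₁.image (fun m => c * m) ∪ F₂.image (fun m => m * c)
  have hnbc : ∀ c, (nb c).card ≤ 2 * D.E.card ^ 2 := by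
    intro c
    have h1 : (nb c).card ≤ (F₁.image (fun m => c * m)).card + (F₂.image (fun m => m * c)).card :=
      Finset.card_union_le _ _
    have h2 : (F₁.image (fun m => c * m)).card ≤ F₁.card := Finset.card_image_le
    have h3 : (F₂.image (fun m => m * c)).card ≤ F₂.card := Finset.card_image_le
    omega
  have hE1 : 1 ≤ D.E.card := Finset.card_pos.2 ⟨1, D.oneE⟩
  have key : ∀ c, D.tc c = n → ∀ bad : G → G → Prop,
      (∀ σ, ((D.Th.filter (fun τ => D.op.UL (iv X) c⁻¹ τ⁻¹)).filter (fun τ => bad σ τ)).card ≤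
        2 * D.E.card ^ 2) →
      (∀ τ, ((D.Th.filter (fun σ => D.UL X c σ)).filter (fun σ => bad σ τ)).card ≤
        2 * D.E.card ^ 2) →
      ∃ M : G → G → Prop, okb c M ∧ ∀ σ τ, M σ τ → ¬ bad σ τ := by
    intro c hc bad h1 h2
    have hl := D.cell_large hX hc
    have hcard := D.card
    have hd : 2 * (2 * D.E.card ^ 2) ≤ (D.Th.filter (fun σ => D.UL X c σ)).card := by
      nlinarith
    obtain ⟨M, a1, a2, a3⟩ := hall_avoid (D.Th.filter (fun σ => D.UL X c σ))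
      (D.Th.filter (fun τ => D.op.UL (iv X) c⁻¹ τ⁻¹)) (D.cell_card hX hc) bad
      (2 * D.E.card ^ 2) hd (fun σ _ => h1 σ) (fun τ _ => h2 τ)
    refine ⟨M, ⟨?_, ?_, ?_⟩, fun σ τ h => (a1 σ τ h).2.2⟩
    · intro σ τ h
      obtain ⟨b1, b2, -⟩ := a1 σ τ h
      exact ⟨(Finset.mem_filter.1 b1).2, (Finset.mem_filter.1 b2).2⟩
    · intro σ h
      exact a2 σ (Finset.mem_filter.2 ⟨h.1, h⟩)
    · intro τ h
      exact a3 τ (Finset.mem_filter.2 ⟨(D.op_UL.1 h).1, h⟩)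
  have hok : ∀ c, ∃ M, ok c M := by
    intro c
    by_cases hc : D.tc c = n
    · obtain ⟨M, hM, -⟩ := key c hc (fun _ _ => False) (fun σ => by simp) (fun τ => by simp)
      exact ⟨M, fun _ => hM⟩
    · exact ⟨fun _ _ => False, fun h => absurd h hc⟩
  have hsymm : ∀ v c w d, R v c w d → R w d v c := by
    rintro v c w d ⟨h1, h2, ⟨σ, τ, h3, h4⟩, h5⟩
    refine ⟨h2, h1, ⟨σ, τ, h4, h3⟩, ?_⟩
    rcases h5 with ⟨m, hm, rfl⟩ | ⟨m, hm, rfl⟩
    · exact Or.inl ⟨m⁻¹, D.NE_inv hm, by group⟩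
    · exact Or.inr ⟨m⁻¹, D.op.NE_inv hm, by group⟩
  have hnb : ∀ v c w d, R v c w d → w ∈ nb v := by
    rintro v c w d ⟨-, -, -, h5⟩
    show w ∈ F₁.image (fun m => v * m) ∪ F₂.image (fun m => m * v)
    rw [Finset.mem_union, Finset.mem_image, Finset.mem_image]
    rcases h5 with ⟨m, hm, rfl⟩ | ⟨m, hm, rfl⟩
    · exact Or.inl ⟨m, hF₁' m hm, rfl⟩
    · exact Or.inr ⟨m, hF₂' m hm, rfl⟩
  have hex : ∀ v, ∀ h : G → (G → G → Prop), (∀ w, ok w (h w)) →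
      ∃ c, ok v c ∧ ∀ w ∈ nb v, ¬ R v c w (h w) := by
    intro c h hh
    by_cases hc : D.tc c = n
    · have g1 : ∀ σ, ((D.Th.filter (fun τ => D.op.UL (iv X) c⁻¹ τ⁻¹)).filter
          (fun τ => ∃ w ∈ nb c, D.tc w = n ∧ h w σ τ)).card ≤ 2 * D.E.card ^ 2 := by
        intro σ
        have hsub : ((D.Th.filter (fun τ => D.op.UL (iv X) c⁻¹ τ⁻¹)).filter
            (fun τ => ∃ w ∈ nb c, D.tc w = n ∧ h w σ τ)) ⊆
            (nb c).biUnion (fun w => D.Th.filter (fun τ => D.tc w = n ∧ h w σ τ)) := by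
          intro τ hτ
          rw [Finset.mem_filter, Finset.mem_filter] at hτ
          obtain ⟨⟨h1, -⟩, w, hw, h2⟩ := hτ
          exact Finset.mem_biUnion.2 ⟨w, hw, Finset.mem_filter.2 ⟨h1, h2⟩⟩
        refine (Finset.card_le_card hsub).trans
          ((Finset.card_biUnion_le_card_mul _ _ 1 ?_).trans (by rw [mul_one]; exact hnbc c))
        intro w _
        rw [Finset.card_le_one]
        intro a ha b hb
        rw [Finset.mem_filter] at ha hb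
        obtain ⟨k1, k2, -⟩ := hh w ha.2.1
        obtain ⟨t, -, ht⟩ := k2 σ (k1 _ _ ha.2.2).1
        rw [ht a ha.2.2, ht b hb.2.2]
      have g2 : ∀ τ, ((D.Th.filter (fun σ => D.UL X c σ)).filter
          (fun σ => ∃ w ∈ nb c, D.tc w = n ∧ h w σ τ)).card ≤ 2 * D.E.card ^ 2 := by
        intro τ
        have hsub : ((D.Th.filter (fun σ => D.UL X c σ)).filter
            (fun σ => ∃ w ∈ nb c, D.tc w = n ∧ h w σ τ)) ⊆
            (nb c).biUnion (fun w => D.Th.filter (fun σ => D.tc w = n ∧ h w σ τ)) := by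
          intro σ hσ
          rw [Finset.mem_filter, Finset.mem_filter] at hσ
          obtain ⟨⟨h1, -⟩, w, hw, h2⟩ := hσ
          exact Finset.mem_biUnion.2 ⟨w, hw, Finset.mem_filter.2 ⟨h1, h2⟩⟩
        refine (Finset.card_le_card hsub).trans
          ((Finset.card_biUnion_le_card_mul _ _ 1 ?_).trans (by rw [mul_one]; exact hnbc c))
        intro w _
        rw [Finset.card_le_one]
        intro a ha b hb
        rw [Finset.mem_filter] at ha hb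
        obtain ⟨k1, -, k3⟩ := hh w ha.2.1
        obtain ⟨t, -, ht⟩ := k3 τ (k1 _ _ ha.2.2).2
        rw [ht a ha.2.2, ht b hb.2.2]
      obtain ⟨M, hM, hM'⟩ := key c hc (fun σ τ => ∃ w ∈ nb c, D.tc w = n ∧ h w σ τ)
        (fun σ => by convert g1 σ) (fun τ => by convert g2 τ)
      refine ⟨M, fun _ => hM, ?_⟩
      rintro w hw ⟨-, h2, ⟨σ, τ, h3, h4⟩, -⟩
      exact hM' σ τ h3 ⟨w, hw, h2, h4⟩
    · refine ⟨fun _ _ => False, fun h => absurd h hc, ?_⟩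
      rintro w _ ⟨h1, -⟩
      exact hc h1
  obtain ⟨M, hM1, hM2⟩ := greedy ok R nb hok hsymm hnb hex
  refine ⟨M, ?_, ?_, ?_, ?_, ?_⟩
  · intro c hc σ τ h
    exact (hM1 c hc).1 σ τ h
  · intro c hc σ h
    exact (hM1 c hc).2.1 σ h
  · intro c hc τ h
    exact (hM1 c hc).2.2 τ h
  · intro c hc m hm σ τ h1 h2
    refine hM2 c (c * m) ?_ ⟨hc, ?_, ⟨σ, τ, h1, h2⟩, Or.inl ⟨m, hm, rfl⟩⟩
    · intro h
      exact hm.2.1 (by simpa using h)
    · rw [D.tc_mulN hm.1, hc]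
  · intro c hc m hm σ τ h1 h2
    refine hM2 c (m * c) ?_ ⟨hc, ?_, ⟨σ, τ, h1, h2⟩, Or.inr ⟨m, hm, rfl⟩⟩
    · intro h
      exact hm.2.1 (by simpa using h)
    · rw [D.tc_Nmul hm.1, hc]

end TD

end Pool.Agent.H79.HT
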