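import Pool.Agent.H79.HT.Allow
import Pool.Agent.H79.HT.Greedy

/-!
# Module FREEC [H79 HT]: the choices of the free columns of time `n`

PROOF. `greedy` with `V = C = G`, `ok y σ := FL n X y → (σ ∈ Th ∧` the three properties of `allow`),
`R y σ y' σ' := FL n X y ∧ FL n X y' ∧ σ = σ' ∧ ((∃ c, Gm y c ∧ y' = y c) ∨ (∃ c, Gm y' c ∧ y = y' c) ∨
(∃ m, op.NE m ∧ y' = m y))`, symmetric (`D.op.NE_inv`).
`nb y := F.image (y * ·) ∪ F' ∪ F''.image (· * y)`, `F` from `Gm_fin y`, `F'` from `back_fin y`,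
`F''` from `D.op.NE_fin`; `|nb y| ≤ |E| (|E| + 1) + |E| + |E|²`.
`hnb`: `R y σ y' σ'` implies `y' ∈ nb y`: first and third case clear. Second case: `y = y' t₂⁻¹ t₁`,
`t₂ ∈ E`, `NR (y' t₂⁻¹) t₁`. If `t₁ ∈ E`: `y' = y (t₁⁻¹ t₂)` and `Gm y (t₁⁻¹ t₂)` (`Gm_E`). If `t₁ ∈ Th`:
`p8` (with `y₂ = y'`): `ct y < ct y'` is impossible (both are `n`), so `4κ < p y⁻¹ t₁⁻¹` and
`y' = y t₁⁻¹ t₂ ∈ F'`.
`hex`: if not `FL n X y` take `σ = 1` (`R` fails). Otherwise take `σ ∈ A` (`allow`) not in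
`(nb y).image h`: `|A| ≥ |Th| - 2 |E| (|E| + 1) - |E| > |nb y|` because `|Th| ≥ 10 |E|²`, `|E| ≥ 1`
(`oneE`, `Finset.card_pos`). `hok` in the same way (`A` is not empty).
The result: `mem`, `child`, `old`, `old'` from `ok`; `new`: `y' = y c`, `c ≠ 1`, so `y ≠ y'`;
`newN`: `y ≠ m y` as `m ≠ 1`.
-/

set_option autoImplicit false

open scoped Classical

namespace Pool.Agent.H79.HT

namespace TD

variable {G : Type*} [Group G] (D : TD G)

theorem freeC {n : ℤ} {X : Set G} (hX : D.Inv n X) : ∃ g : G → G, D.FC n X g := by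
  obtain ⟨F₂, hF₂, hF₂'⟩ := D.op.NE_fin
  rw [op_E_card] at hF₂
  choose F₁ hF₁ hF₁' using D.Gm_fin
  choose F₃ hF₃ hF₃' using D.back_fin
  let ok : G → G → Prop := fun y σ => D.FL n X y → (σ ∈ D.Th ∧ (∀ c, D.Gm y c → D.CL σ (y * c)) ∧
        (∀ c, D.Gm y c → c ≠ 1 → σ * y * c ∉ X) ∧
        (∀ b ∈ D.Th, ∀ t ∈ D.E, 4 * D.κ < D.p y⁻¹ b⁻¹ → σ * y * b⁻¹ * t ∉ X))
  let R : G → G → G → G → Prop := fun y σ y' σ' => D.FL n X y ∧ D.FL n X y' ∧ σ = σ' ∧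
    ((∃ c, D.Gm y c ∧ y' = y * c) ∨ (∃ c, D.Gm y' c ∧ y = y' * c) ∨ (∃ m, D.op.NE m ∧ y' = m * y))
  let nb : G → Finset G := fun y =>
    (F₁ y).image (fun c => y * c) ∪ (F₃ y ∪ F₂.image (fun m => m * y))
  have hE1 : 1 ≤ D.E.card := Finset.card_pos.2 ⟨1, D.oneE⟩
  have hnbc : ∀ y, (nb y).card ≤ D.E.card * (D.E.card + 1) + D.E.card + D.E.card ^ 2 := by
    intro y
    have h1 : (nb y).card ≤ ((F₁ y).image (fun c => y * c)).card +
        (F₃ y ∪ F₂.image (fun m => m * y)).card := Finset.card_union_le _ _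
    have h2 : (F₃ y ∪ F₂.image (fun m => m * y)).card ≤ (F₃ y).card + (F₂.image (fun m => m * y)).card :=
      Finset.card_union_le _ _
    have h3 : ((F₁ y).image (fun c => y * c)).card ≤ (F₁ y).card := Finset.card_image_le
    have h4 : (F₂.image (fun m => m * y)).card ≤ F₂.card := Finset.card_image_le
    have h5 := hF₁ y
    have h6 := hF₃ y
    omega
  -- a choice which avoids a small set
  have key : ∀ y, D.FL n X y → ∀ B : Finset G,
      B.card ≤ D.E.card * (D.E.card + 1) + D.E.card + D.E.card ^ 2 → ∃ σ, ok y σ ∧ σ ∉ B := by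
    intro y hy B hB
    obtain ⟨A, hA, hA'⟩ := D.allow hX y
    have hcard := D.card
    have hlt : B.card < A.card := by nlinarith
    obtain ⟨σ, hσ, hσ'⟩ := Finset.exists_mem_notMem_of_card_lt_card hlt
    exact ⟨σ, fun _ => hA' σ hσ, hσ'⟩
  have hok : ∀ v, ∃ c, ok v c := by
    intro y
    by_cases hy : D.FL n X y
    · obtain ⟨σ, hσ, -⟩ := key y hy ∅ (by simp)
      exact ⟨σ, hσ⟩
    · exact ⟨1, fun h => absurd h hy⟩
  have hsymm : ∀ v c w d, R v c w d → R w d v c := by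
    rintro v c w d ⟨h1, h2, h3, h4⟩
    refine ⟨h2, h1, h3.symm, ?_⟩
    rcases h4 with h4 | h4 | ⟨m, hm, rfl⟩
    · exact Or.inr (Or.inl h4)
    · exact Or.inl h4
    · exact Or.inr (Or.inr ⟨m⁻¹, D.op.NE_inv hm, by group⟩)
  have hnb : ∀ v c w d, R v c w d → w ∈ nb v := by
    rintro v c w d ⟨h1, h2, -, h4⟩
    show w ∈ (F₁ v).image (fun c => v * c) ∪ (F₃ v ∪ F₂.image (fun m => m * v))
    rw [Finset.mem_union, Finset.mem_union, Finset.mem_image, Finset.mem_image]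
    rcases h4 with ⟨k, hk, rfl⟩ | ⟨k, ⟨t₂, ht₂, t₁, ht₁, rfl⟩, rfl⟩ | ⟨m, hm, rfl⟩
    · exact Or.inl ⟨k, hF₁' v k hk, rfl⟩
    · rcases ht₁ with hE | ⟨hTh, -⟩
      · refine Or.inl ⟨t₁⁻¹ * t₂, hF₁' _ _ (D.Gm_E hE ht₂), by group⟩
      · right
        left
        have e : w * (t₂⁻¹ * t₁) = w * t₂⁻¹ * t₁ := by group
        rcases D.p8 (y₂ := w) ht₂ hTh with h5 | h5
        · rw [← e, h1.1, h2.1] at h5
          exact absurd h5 (lt_irrefl _)
        · rw [← e] at h5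
          have h6 := hF₃' _ t₁ hTh t₂ ht₂ h5
          have e2 : w * (t₂⁻¹ * t₁) * t₁⁻¹ * t₂ = w := by group
          rw [e2] at h6
          exact h6
    · exact Or.inr (Or.inr ⟨m, hF₂' m hm, rfl⟩)
  have hex : ∀ v, ∀ h : G → G, (∀ w, ok w (h w)) → ∃ c, ok v c ∧ ∀ w ∈ nb v, ¬ R v c w (h w) := by
    intro y h _
    by_cases hy : D.FL n X y
    · obtain ⟨σ, hσ, hσ'⟩ := key y hy ((nb y).image h) (Finset.card_image_le.trans (hnbc y))
      refine ⟨σ, hσ, ?_⟩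
      rintro w hw ⟨-, -, h3, -⟩
      exact hσ' (Finset.mem_image.2 ⟨w, hw, h3.symm⟩)
    · refine ⟨1, fun h => absurd h hy, ?_⟩
      rintro w _ ⟨h1, -⟩
      exact hy h1
  obtain ⟨g, hg1, hg2⟩ := greedy ok R nb hok hsymm hnb hex
  refine ⟨g, ?_, ?_, ?_, ?_, ?_, ?_⟩
  · intro y hy
    exact (hg1 y hy).1
  · intro y hy c hc
    exact (hg1 y hy).2.1 c hc
  · intro y hy c hc h1
    exact (hg1 y hy).2.2.1 c hc h1
  · intro y hy b hb t ht h
    exact (hg1 y hy).2.2.2 b hb t ht h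
  · rintro y y' hy hy' c hc h1 rfl heq
    refine hg2 y (y * c) ?_ ⟨hy, hy', heq, Or.inl ⟨c, hc, rfl⟩⟩
    intro h
    exact h1 (by simpa using h)
  · intro y hy m hm hy' heq
    refine hg2 y (m * y) ?_ ⟨hy, hy', heq, Or.inr (Or.inr ⟨m, hm, rfl⟩)⟩
    intro h
    exact hm.2.1 (by simpa using h)

end TD

end Pool.Agent.H79.HT
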