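import Pool.Agent.H79.HT.NewT

/-!
# Module NEWEX [H79 HT]: rows of time `< n + 1` meet the new set

PROOF. If `rt w < n`: `C.inv.1.ex`. So `rt w = n`. If the row meets `X`, done (`X ⊆ New`). Otherwise
`∀ t ∈ T, w t ∉ X`. `w ∉ N` (`rt_N`, `1 ≤ n`). (a) `isL w σ`: `c = σ⁻¹ w`, `tc c = rt w = n`
(`rt_cell`), `w = σ c`, `UL X c σ` (`isL_iff`); `C.hM.row` gives `τ` with `M c σ τ`, `τ ∈ Th` (`sub`,
`op_UL`), `w τ = σ c τ ∈ New`. (b) `w` is no left child: `D.op.FL n (iv X) w⁻¹` (`op_FL`); put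
`z = w⁻¹`, `τ = (f z)⁻¹ ∈ Th` (`C.hf.mem`, `mem_op_Th`), `(w τ)⁻¹ = τ⁻¹ w⁻¹ = f z * z`, so `w τ ∈ New`.
-/

set_option autoImplicit false

open scoped Classical

namespace Pool.Agent.H79.HT

namespace TD

variable {G : Type*} [Group G] {D : TD G} {n : ℤ} {X : Set G} {g f : G → G}
  {M : G → G → G → Prop}

theorem Ctx.new_ex (C : D.Ctx n X g f M) {w : G} (hw : D.rt w < n + 1) :
    ∃ t ∈ D.T, w * t ∈ D.New n X g f M := by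
  by_cases h0 : ∃ t ∈ D.T, w * t ∈ X
  · obtain ⟨t, ht, h1⟩ := h0
    exact ⟨t, ht, Or.inl h1⟩
  have h0' : ∀ t ∈ D.T, w * t ∉ X := fun t ht h1 => h0 ⟨t, ht, h1⟩
  have hn : D.rt w = n := by
    by_contra hne
    have h1 : D.rt w < n := by omega
    exact h0 (C.inv.1.ex w h1)
  have hN : w ∉ D.N := by
    intro h1
    have h2 := D.rt_N h1
    have h3 := C.hn
    omega
  by_cases hL : ∃ σ, D.isL w σ
  · obtain ⟨σ, hσ⟩ := hL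
    have e1 : σ * (σ⁻¹ * w) = w := by group
    have h1 : D.tc (σ⁻¹ * w) = n := by rw [← D.rt_cell hσ]; exact hn
    have h2 : D.UL X (σ⁻¹ * w) σ := by
      obtain ⟨a, b⟩ := D.isL_iff.1 hσ
      refine ⟨a, b, ?_⟩
      intro t ht
      rw [e1]
      exact h0' t ht
    obtain ⟨τ, hτ, _⟩ := C.hM.row _ h1 σ h2
    have h3 := (C.hM.sub _ h1 σ τ hτ).2
    rw [op_UL] at h3
    refine ⟨τ, D.mem_T.2 (Or.inr h3.1), Or.inr (Or.inr (Or.inr ⟨σ⁻¹ * w, σ, τ, h1, hτ, ?_⟩))⟩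
    rw [e1]
  · have h1 : D.op.FL n (iv X) w⁻¹ := D.op_FL.2 ⟨hn, hN, fun σ hσ => hL ⟨σ, hσ⟩, h0'⟩
    have h2 := D.mem_op_Th.1 (C.hf.mem _ h1)
    refine ⟨(f w⁻¹)⁻¹, D.mem_T.2 (Or.inr h2), Or.inr (Or.inr (Or.inl ⟨w⁻¹, h1, ?_⟩))⟩
    rw [mul_inv_rev, inv_inv]

end TD

end Pool.Agent.H79.HT
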