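import Pool.Agent.H79.HT.NewUn
import Pool.Agent.H79.HT.NewEx
import Pool.Agent.H79.HT.FreeC
import Pool.Agent.H79.HT.CellM

/-!
# Module STEP [H79 HT]: one step of the recursion (complete)
-/

set_option autoImplicit false

open scoped Classical

namespace Pool.Agent.H79.HT

namespace TD

variable {G : Type*} [Group G] {D : TD G} {n : ℤ} {X : Set G} {g f : G → G}
  {M : G → G → G → Prop}

theorem Ctx.new_invR (C : D.Ctx n X g f M) : D.InvR (n + 1) (D.New n X g f M) where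
  adm := C.new_adm
  timeR := fun _ hv _ h => C.new_timeR hv h
  timeL := fun _ hv _ h => C.new_timeL hv h
  ex := fun _ hw => C.new_ex hw
  un := fun _ _ h1 _ h2 x1 x2 => C.new_un h1 h2 x1 x2

theorem Ctx.new_inv (C : D.Ctx n X g f M) : D.Inv (n + 1) (D.New n X g f M) := by
  refine ⟨C.new_invR, ?_⟩
  rw [iv_New]
  exact C.op.new_invR

theorem step (D : TD G) {n : ℤ} (hn : 1 ≤ n) {X : Set G} (hX : D.Inv n X) :
    ∃ X' : Set G, X ⊆ X' ∧ D.Inv (n + 1) X' := by
  obtain ⟨g, hg⟩ := D.freeC hX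
  obtain ⟨f, hf⟩ := D.op.freeC hX.op
  obtain ⟨M, hM⟩ := D.cellM hX
  exact ⟨D.New n X g f M, fun v hv => Or.inl hv, Ctx.new_inv ⟨hn, hX, hg, hf, hM⟩⟩

end TD

end Pool.Agent.H79.HT
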