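import Pool.Agent.H79.HT.Base
import Pool.Agent.H79.HT.Step
import Pool.Agent.H79.FP.Tile

/-!
# Module TILE [H79 HT]: from the data to a two-sided tile

PROOF of `exact`. `base` and `step` give (`Nat.rec` on the subtype, as in `Pool/Agent/H79/FP/Lim.lean`)
sets `X 0 ⊆ X 1 ⊆ ...` with `Inv (n + 1) (X n)`. `X = ⋃ n, X n`. Rows: for `w` take
`n = (rt w).toNat`: `rt w < n + 1`, so `ex` for `X n`; uniqueness: two elements of `X` in the row are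
both in some `X n` (monotone), `un`. Columns: `ex`, `un` for `D.op`, `iv (X n)` and the row `w⁻¹`
(`w⁻¹ t⁻¹ = (t w)⁻¹`, `inv_mem_op_T`), with `n = (ct w).toNat`.
PROOF of `tile_of_TD`: `S = {t⁻¹ : t ∈ T}`, as `tile_of_sys` in `Pool/Agent/H79/FP/Tile.lean`.
-/

set_option autoImplicit false

open scoped Classical

namespace Pool.Agent.H79.HT

namespace TD

variable {G : Type*} [Group G] (D : TD G)

theorem exact : ∃ X : Set G, (∀ w, ∃! t, t ∈ D.T ∧ w * t ∈ X) ∧ ∀ w, ∃! t, t ∈ D.T ∧ t * w ∈ X := by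
  obtain ⟨X0, hX0⟩ := D.base
  have hstep : ∀ (n : ℕ) (q : {X : Set G // D.Inv ((n : ℤ) + 1) X}),
      ∃ q' : {X : Set G // D.Inv (((n + 1 : ℕ) : ℤ) + 1) X}, q.1 ⊆ q'.1 := by
    intro n q
    obtain ⟨X', h1, h2⟩ := D.step (n := (n : ℤ) + 1) (by omega) q.2
    refine ⟨⟨X', ?_⟩, h1⟩
    have e : ((n + 1 : ℕ) : ℤ) + 1 = (n : ℤ) + 1 + 1 := by push_cast; ring
    rw [e]
    exact h2
  choose F hF using hstep
  let Y : ∀ n : ℕ, {X : Set G // D.Inv ((n : ℤ) + 1) X} :=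
    fun n => Nat.rec (motive := fun n => {X : Set G // D.Inv ((n : ℤ) + 1) X})
      ⟨X0, by simpa using hX0⟩ (fun n q => F n q) n
  have hY : ∀ n, Y (n + 1) = F n (Y n) := fun n => rfl
  have hmono : ∀ n m, n ≤ m → (Y n).1 ⊆ (Y m).1 := by
    intro n m hnm
    induction m, hnm using Nat.le_induction with
    | base => exact subset_rfl
    | succ m hm ih =>
      rw [hY m]
      exact ih.trans (hF m (Y m))
  refine ⟨⋃ n, (Y n).1, ?_, ?_⟩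
  · intro w
    obtain ⟨t, ht, hx⟩ := (Y (D.rt w).toNat).2.1.ex w (by omega)
    refine ⟨t, ⟨ht, Set.mem_iUnion.2 ⟨_, hx⟩⟩, ?_⟩
    rintro t' ⟨ht', hx'⟩
    obtain ⟨m, hm⟩ := Set.mem_iUnion.1 hx'
    have k1 := hmono _ _ (le_max_left (D.rt w).toNat m) hx
    have k2 := hmono _ _ (le_max_right (D.rt w).toNat m) hm
    exact (Y (max (D.rt w).toNat m)).2.1.un w t' ht' t ht k2 k1
  · intro w
    obtain ⟨t, ht, hx⟩ := (Y (D.op.rt w⁻¹).toNat).2.2.ex w⁻¹ (by omega)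
    have hx1 : t⁻¹ * w ∈ (Y (D.op.rt w⁻¹).toNat).1 := by
      have : w⁻¹ * t = (t⁻¹ * w)⁻¹ := by group
      rw [this, mem_iv] at hx
      exact hx
    have ht1 : t⁻¹ ∈ D.T := by
      rw [← D.inv_mem_op_T, inv_inv]
      exact ht
    refine ⟨t⁻¹, ⟨ht1, Set.mem_iUnion.2 ⟨_, hx1⟩⟩, ?_⟩
    rintro t' ⟨ht', hx'⟩
    obtain ⟨m, hm⟩ := Set.mem_iUnion.1 hx'
    have k1 := hmono _ _ (le_max_left (D.op.rt w⁻¹).toNat m) hx1
    have k2 := hmono _ _ (le_max_right (D.op.rt w⁻¹).toNat m) hm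
    have k3 := (Y (max (D.op.rt w⁻¹).toNat m)).2.2.un w⁻¹ t'⁻¹ (D.inv_mem_op_T.2 ht') t ht
      (by rw [← mul_inv_rev, mem_iv]; exact k2)
      (by
        have : w⁻¹ * t = (t⁻¹ * w)⁻¹ := by group
        rw [this, mem_iv]; exact k1)
    rw [← k3, inv_inv]

end TD

theorem tile_of_TD {G : Type*} [Group G] (F : Set G) (D : TD G)
    (hF : ∀ f ∈ F, f⁻¹ ∈ D.E) : FP.HasTile F := by
  obtain ⟨X, hrow, hcol⟩ := D.exact
  refine ⟨(fun t => t⁻¹) '' (D.T : Set G), D.T.finite_toSet.image _, ?_, X, ?_, ?_⟩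
  · intro f hf
    exact ⟨f⁻¹, D.mem_T.2 (Or.inl (hF f hf)), inv_inv f⟩
  · intro x₁ hx₁ x₂ hx₂ hne
    rw [Set.disjoint_left]
    rintro y ⟨_, ⟨t₁, ht₁, rfl⟩, h1⟩ ⟨_, ⟨t₂, ht₂, rfl⟩, h2⟩
    apply hne
    have h1' : x₁ = y * t₁ := by
      rw [← h1]
      simp
    have h2' : x₂ = y * t₂ := by
      rw [← h2]
      simp
    obtain ⟨t, _, ht⟩ := hrow y
    have h4 : t₁ = t := ht t₁ ⟨ht₁, by rw [← h1']; exact hx₁⟩
    have h5 : t₂ = t := ht t₂ ⟨ht₂, by rw [← h2']; exact hx₂⟩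
    rw [h1', h2', h4, h5]
  · apply Set.eq_univ_of_forall
    intro y
    obtain ⟨t, ht, _⟩ := hcol y
    simp only [Set.mem_iUnion, Set.mem_image]
    exact ⟨t * y, ht.2, t⁻¹, ⟨t, ht.1, rfl⟩, by simp⟩

end Pool.Agent.H79.HT
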