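import Pool.Agent.H79.HT.NewK

/-!
# Module ADMA [H79 HT]: condition `a2` after the step

PROOF. `v ∈ X`: `C.inv.1.adm.a2`. Kind column, `v = g y * y`: `σ = g y` (`isL_unique`, `new_col`),
`σ⁻¹ v = y`; `C.hg.child y hy c`: `CL (g y) (y c)`, so `isL (g y * (y c)) (g y)` (`isL_mul`, `mem`), and
`v c = g y * (y c)`. Kind row: not a left child (`new_row`). Kind cell: a right child (`new_cell`).
-/

set_option autoImplicit false

open scoped Classical

namespace Pool.Agent.H79.HT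

namespace TD

variable {G : Type*} [Group G] {D : TD G} {n : ℤ} {X : Set G} {g f : G → G}
  {M : G → G → G → Prop}

theorem Ctx.new_a2 (C : D.Ctx n X g f M) {v σ c : G} (hv : v ∈ D.New n X g f M)
    (hL : D.isL v σ) (hR : ∀ τ, ¬ D.isR v τ) (hc : D.Gm (σ⁻¹ * v) c) : D.isL (v * c) σ := by
  rcases hv with hv | ⟨y, hy, rfl⟩ | ⟨z, hz, hv⟩ | ⟨c', σ', τ', hc', hm, rfl⟩
  · exact C.inv.1.adm.a2 v hv σ hL hR c hc
  · have h1 := (C.new_col hy).1
    have h2 : σ = g y := D.isL_unique hL h1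
    subst h2
    rw [inv_mul_cancel_left] at hc
    have h3 := C.hg.child y hy c hc
    rw [mul_assoc]
    exact D.isL_mul.2 ⟨C.hg.mem y hy, h3⟩
  · exact absurd hL ((C.new_row hz hv).2.1 σ)
  · exact absurd (C.new_cell hc' hm).2.2.2.1 (hR τ')

end TD

end Pool.Agent.H79.HT
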