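import Pool.Agent.H79.HT.NewK

/-!
# Module NEWT [H79 HT]: the times of the new elements

PROOFS. `new_child`: `v ∈ X`: `adm.child`; the other kinds: `new_col`, `new_row`, `new_cell`.
`new_R`: `v ∈ New`, `v ∉ X`, `isR v τ`; then `rt (v τ⁻¹) = n`: kind column: impossible (`new_col`); kind
row: `isR v (f z)⁻¹`, so `τ = (f z)⁻¹` (`isR_unique`), `rt (v * f z) = n`; kind cell: `v = σ c τ'`,
`τ = τ'`, `v τ⁻¹ = σ c`. `new_L` is the mirror image (done below).
`new_timeR`: if `v ∈ X`: `timeR`, `< n`; else `= n`.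
-/

set_option autoImplicit false

open scoped Classical

namespace Pool.Agent.H79.HT

namespace TD

variable {G : Type*} [Group G] {D : TD G} {n : ℤ} {X : Set G} {g f : G → G}
  {M : G → G → G → Prop}

theorem Ctx.new_child (C : D.Ctx n X g f M) {v : G} (hv : v ∈ D.New n X g f M) :
    (∃ τ, D.isR v τ) ∨ (∃ σ, D.isL v σ) := by
  rcases hv with hv | ⟨y, hy, rfl⟩ | ⟨z, hz, hv⟩ | ⟨c', σ', τ', hc', hm, rfl⟩
  · exact C.inv.1.adm.child v hv
  · exact Or.inr ⟨_, (C.new_col hy).1⟩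
  · exact Or.inl ⟨_, (C.new_row hz hv).1⟩
  · exact Or.inl ⟨_, (C.new_cell hc' hm).2.2.2.1⟩

theorem Ctx.new_R (C : D.Ctx n X g f M) {v τ : G} (hv : v ∈ D.New n X g f M) (hX : v ∉ X)
    (h : D.isR v τ) : D.rt (v * τ⁻¹) = n := by
  rcases hv with hv | ⟨y, hy, rfl⟩ | ⟨z, hz, hv⟩ | ⟨c', σ', τ', hc', hm, rfl⟩
  · exact absurd hv hX
  · exact absurd h ((C.new_col hy).2.1 τ)
  · obtain ⟨h1, _, h2⟩ := C.new_row hz hv
    have h3 := D.isR_unique h h1
    rw [h3, inv_inv]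
    exact h2
  · obtain ⟨_, _, _, h1, h2, _⟩ := C.new_cell hc' hm
    have h3 := D.isR_unique h h1
    rw [h3, mul_inv_cancel_right]
    exact h2

theorem Ctx.new_L (C : D.Ctx n X g f M) {v σ : G} (hv : v ∈ D.New n X g f M) (hX : v ∉ X)
    (h : D.isL v σ) : D.ct (σ⁻¹ * v) = n := by
  have h1 : v⁻¹ ∈ D.op.New n (iv X) f g (fun c σ τ => M c⁻¹ τ⁻¹ σ⁻¹) := by
    rw [← iv_New, mem_iv]
    exact hv
  have h2 := C.op.new_R h1 (by rw [mem_iv]; exact hX) h
  have h3 : v⁻¹ * σ⁻¹⁻¹ = (σ⁻¹ * v)⁻¹ := by group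
  rw [h3] at h2
  exact h2

theorem Ctx.new_timeR (C : D.Ctx n X g f M) {v τ : G} (hv : v ∈ D.New n X g f M)
    (h : D.isR v τ) : D.rt (v * τ⁻¹) < n + 1 := by
  by_cases hX : v ∈ X
  · have h1 := C.inv.1.timeR v hX τ h
    omega
  · have h1 := C.new_R hv hX h
    omega

theorem Ctx.new_timeL (C : D.Ctx n X g f M) {v σ : G} (hv : v ∈ D.New n X g f M)
    (h : D.isL v σ) : D.ct (σ⁻¹ * v) < n + 1 := by
  by_cases hX : v ∈ X
  · have h1 := C.inv.1.timeL v hX σ h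
    omega
  · have h1 := C.new_L hv hX h
    omega

/-- If the time of a row is `< n` then its selected children were selected before. -/
theorem Ctx.old_R (C : D.Ctx n X g f M) {v τ : G} (hv : v ∈ D.New n X g f M)
    (h : D.isR v τ) (ht : D.rt (v * τ⁻¹) < n) : v ∈ X := by
  by_contra hX
  have h1 := C.new_R hv hX h
  omega

theorem Ctx.old_L (C : D.Ctx n X g f M) {v σ : G} (hv : v ∈ D.New n X g f M)
    (h : D.isL v σ) (ht : D.ct (σ⁻¹ * v) < n) : v ∈ X := by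
  by_contra hX
  have h1 := C.new_L hv hX h
  omega

end TD

end Pool.Agent.H79.HT
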