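import Pool.Agent.H79.HT.Time
import Pool.Agent.H79.HT.Leaf

/-!
# Module PSEVEN [H79 HT]: a conflict of a cell column and a free column

PROOF. `y₁ = y₂ t₂⁻¹ t₁`, `c₁ = y₁ τ⁻¹`. `ct y₁ = tc c₁ = len c₁ + L - 50κ` (`ct_cell`),
`len y₁ ≥ len c₁ + L - 102κ` (`isR_len`).
(A) `t₁ ∈ E`. `e = t₁⁻¹ t₂`, `len e ≤ κ`, `y₂ = y₁ e`, `len y₂ ≥ len y₁ - κ`. `e ∉ N`, since
otherwise `isR y₂ τ` (`isR_mulN`), against `hf`. `x = e⁻¹ τ⁻¹`. `pe y₂⁻¹ x`: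
`p y₂⁻¹ x = len y₂ + len x - len (y₂ x)`, `y₂ x = y₁ τ⁻¹ = c₁`, `len x ≥ len τ - κ`, so
`p y₂⁻¹ x ≥ (len y₁ - κ) + (len τ - κ) - len c₁ ≥ 2L - 104κ`. For `t ∈ Th`: `sc2` with `a = x`,
`t = τ`, `s = t` (`x τ = e⁻¹`; the condition: `t x ∈ N`, `t = τ` would give `τ e⁻¹ τ⁻¹ = m ∈ N`,
`e⁻¹ = τ⁻¹ m τ = m` by `comm`, `e ∈ N`): `p x t⁻¹ ≤ p e⁻¹ t⁻¹ + κ ≤ 2 len e + κ ≤ 3κ`. By `p_hyp`
(`x, y₂⁻¹, t⁻¹`) `p y₂⁻¹ t⁻¹ ≤ 4κ`. So `y₂` is of class 2 (`ct_free`, `hN`):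
`ct y₂ = len y₂ + 100κ ≥ len c₁ + L - 3κ > ct y₁`.
(B) `t₁ ∈ Th`, not `CR (y₂ t₂⁻¹) t₁`. `τ ≠ t₁` (`y₁ t₁⁻¹ = y₂ t₂⁻¹`). `isR_other`: `p y₁⁻¹ t₁⁻¹ ≤ 2κ`,
`len (y₁ t₁⁻¹) = len y₁ + len t₁ - p y₁⁻¹ t₁⁻¹ ≥ len y₁ + L - 2κ` (`len_mul_eq`),
`len y₂ ≥ len (y₁ t₁⁻¹) - κ ≥ len c₁ + 2L - 105κ` and `ct y₂ ≥ len y₂ - 51κ > ct y₁` (`ct_lower`).
-/

set_option autoImplicit false

open scoped Classical

namespace Pool.Agent.H79.HT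

namespace TD

variable {G : Type*} [Group G] (D : TD G)

theorem p7 {y₂ t₂ t₁ τ : G} (ht₂ : t₂ ∈ D.E) (h : D.NR (y₂ * t₂⁻¹) t₁)
    (hR : D.isR (y₂ * t₂⁻¹ * t₁) τ) (hf : ∀ τ', ¬ D.isR y₂ τ') (hN : y₂ ∉ D.N) :
    D.ct (y₂ * t₂⁻¹ * t₁) < D.ct y₂ := by
  have hκ := D.hκ
  have hLL := D.hL
  have hτ : τ ∈ D.Th := hR.1
  have k1 := D.ct_cell hR
  unfold tc at k1
  have k2 := D.isR_len hR
  have k3 := D.lenE t₂ ht₂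
  have k4 := D.lenT τ hτ
  rcases h with hE | ⟨ht₁, hCR⟩
  · have k5 := D.lenE t₁ hE
    have k6 := D.len_mul t₁⁻¹ t₂
    rw [D.len_inv] at k6
    set e := t₁⁻¹ * t₂ with he
    set y₁ := y₂ * t₂⁻¹ * t₁ with hy₁
    have e1 : y₂ = y₁ * e := by rw [hy₁, he]; group
    have e2 : y₁ = y₂ * e⁻¹ := by rw [hy₁, he]; group
    have k7 := D.len_mul y₂ e⁻¹
    rw [← e2, D.len_inv] at k7
    have heN : e ∉ D.N := by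
      intro h
      have h1 := (D.isR_mulN (v := y₁) (τ := τ) h).2 hR
      rw [← e1] at h1
      exact hf τ h1
    have k8 := D.pe y₂⁻¹ (e⁻¹ * τ⁻¹)
    have e3 : y₂⁻¹⁻¹ * (e⁻¹ * τ⁻¹) = y₁ * τ⁻¹ := by rw [e1]; group
    rw [e3, D.len_inv] at k8
    have k9 := D.len_mul e (e⁻¹ * τ⁻¹)
    have e4 : e * (e⁻¹ * τ⁻¹) = τ⁻¹ := by group
    rw [e4, D.len_inv] at k9
    have k10 : ∀ t ∈ D.Th, D.p y₂⁻¹ t⁻¹ ≤ 4 * D.κ := by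
      intro t ht
      by_contra hcon
      have e5 : e⁻¹ * τ⁻¹ * τ = e⁻¹ := by group
      have h1 : D.p (e⁻¹ * τ⁻¹) t⁻¹ ≤ D.p (e⁻¹ * τ⁻¹ * τ) t⁻¹ + D.κ := by
        refine (D.sc2 (e⁻¹ * τ⁻¹) τ hτ t ht ?_).2
        rintro h2 rfl
        have h3 := D.comm _ h2 t hτ
        apply heN
        have h4 : t * (e⁻¹ * t⁻¹) = e⁻¹ := by
          have h5 : t * (e⁻¹ * t⁻¹) * t = t * e⁻¹ := by group
          rw [h5] at h3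
          exact (mul_left_cancel h3).symm
        rw [h4] at h2
        exact D.N.inv_mem_iff.1 h2
      rw [e5] at h1
      have h2 := D.p_le_left e⁻¹ t⁻¹
      rw [D.len_inv] at h2
      have h3 : 4 * D.κ + 1 ≤ D.p (e⁻¹ * τ⁻¹) t⁻¹ + D.κ :=
        D.p_hyp (y := y₂⁻¹) (by rw [D.p_comm]; omega) (by omega)
      omega
    rcases D.ct_free hf hN with ⟨-, t, ht, k11⟩ | ⟨k11, -⟩
    · have k12 := k10 t ht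
      omega
    · omega
  · have hne : τ ≠ t₁ := by
      rintro rfl
      apply hCR
      have h1 := hR.2
      rwa [mul_inv_cancel_right] at h1
    have k5 := D.isR_other hR ht₁ hne
    have k6 := D.lenT t₁ ht₁
    have k7 := D.len_mul_eq (y₂ * t₂⁻¹ * t₁) t₁⁻¹
    rw [mul_inv_cancel_right, D.len_inv] at k7
    have k8 := D.len_mul y₂ t₂⁻¹
    rw [D.len_inv] at k8
    have k9 := D.ct_lower y₂
    omega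

end TD

end Pool.Agent.H79.HT
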