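import Pool.Agent.H79.HT.AdmA
import Pool.Agent.H79.HT.NewT
import Pool.Agent.H79.HT.PSeven

/-!
# Module ADMB [H79 HT]: condition `a3` after the step

PROOF. `v` is a left child of type `σ`, no right child, `y₂ = σ⁻¹ v`, `Gm y₂ c`, `c ≠ 1`; suppose
`v₁ = v c ∈ New`. `new_a2`: `isL v₁ σ`; `y₁ = σ⁻¹ v₁ = y₂ c`. `left_only`: `y₂` is free and not in `N`.
Write `c = t₂⁻¹ t₁` with `t₂ ∈ E`, `NR (y₂ t₂⁻¹) t₁`, so `y₁ = y₂ t₂⁻¹ t₁`.
(0) If `isR y₁ τ` for some `τ`: `p7`: `ct y₁ < ct y₂ ≤ n` (`new_timeL`), so `v₁ ∈ X` (`old_L`). If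
`v ∈ X`: `a3` for `X`. If `v ∉ X`: `v` is of kind column (`new_row`, `new_cell` exclude the others),
`v = g y * y`, `g y = σ`, `y = y₂`; `C.hg.old y₂ _ c`: `g y₂ * y₂ * c = v₁ ∉ X`, contradiction.
(1) From now on `y₁` is free. `v ∈ X`, `v₁ ∈ X`: `a3`. (2) `v ∉ X`, `v₁ ∈ X`: as in (0).
(3) `v ∉ X`, `v₁ ∉ X`: `v = g y₂ * y₂`, `FL y₂`; `v₁` is not of kind row (left child), not of kind cell
(`v₁ = σ' c₁ τ'`, `σ' = σ`, `y₁ = c₁ τ'`, `isR y₁ τ'`), so of kind column: `v₁ = g y * y`, `g y = σ`,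
`y = y₁ = y₂ c`: `C.hg.new` gives `g y₂ ≠ g y₁`, but both are `σ`.
(4) `v ∈ X`, `v₁ ∉ X`: `ct y₂ < n` (`timeL`), `ct y₁ = n` (`new_L`), and as in (3) `v₁ = g y₁ * y₁`,
`FL y₁`, `g y₁ = σ`. If `t₁ ∈ E`: `Gm y₁ (t₁⁻¹ t₂)` (`Gm_E`), `t₁⁻¹ t₂ ≠ 1`, and
`g y₁ * y₁ * (t₁⁻¹ t₂) = σ y₂ = v ∈ X` contradicts `C.hg.old`. If `t₁ ∈ Th`: `p8`: `ct y₁ < ct y₂` is
impossible, so `4κ < p y₁⁻¹ t₁⁻¹` and `C.hg.old' y₁ _ t₁ _ t₂ _`: `g y₁ * y₁ * t₁⁻¹ * t₂ = v ∉ X`.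
-/

set_option autoImplicit false

open scoped Classical

namespace Pool.Agent.H79.HT

namespace TD

variable {G : Type*} [Group G] {D : TD G} {n : ℤ} {X : Set G} {g f : G → G}
  {M : G → G → G → Prop}

theorem Ctx.new_a3 (C : D.Ctx n X g f M) {v σ c : G} (hv : v ∈ D.New n X g f M)
    (hL : D.isL v σ) (hR : ∀ τ, ¬ D.isR v τ) (hc : D.Gm (σ⁻¹ * v) c) (h1 : c ≠ 1) :
    v * c ∉ D.New n X g f M := by
  intro hv'
  have hLc : D.isL (v * c) σ := C.new_a2 hv hL hR hc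
  obtain ⟨hfr, hyN⟩ := D.left_only hL hR
  have hct : D.ct (σ⁻¹ * v) < n + 1 := C.new_timeL hv hL
  -- a new `v` is of kind column
  have hcol : v ∉ X → D.FL n X (σ⁻¹ * v) ∧ g (σ⁻¹ * v) = σ := by
    intro hx
    rcases hv with hv | ⟨y, hy, hv⟩ | ⟨z, hz, hv⟩ | ⟨c', σ', τ, hc', hM, hv⟩
    · exact absurd hv hx
    · obtain ⟨a1, -, -⟩ := C.new_col hy
      rw [← hv] at a1
      have h2 : σ = g y := D.isL_unique hL a1
      have h3 : σ⁻¹ * v = y := by rw [hv, h2, inv_mul_cancel_left]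
      rw [h3]
      exact ⟨hy, h2.symm⟩
    · exact absurd hL ((C.new_row hz hv).2.1 σ)
    · obtain ⟨-, -, -, a1, -, -⟩ := C.new_cell hc' hM
      rw [← hv] at a1
      exact absurd a1 (hR τ)
  by_cases hx' : v * c ∈ X
  · by_cases hx : v ∈ X
    · exact C.inv.1.adm.a3 v hx σ hL hR c hc h1 hx'
    · obtain ⟨b1, b2⟩ := hcol hx
      have h2 := C.hg.old _ b1 c hc h1
      rw [b2, mul_inv_cancel_left] at h2
      exact h2 hx'
  · have hct1 : D.ct (σ⁻¹ * (v * c)) = n := C.new_L hv' hx' hLc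
    rw [← mul_assoc] at hct1
    obtain ⟨t₂, ht₂, t₁, hN, hceq⟩ := id hc
    have hy1 : σ⁻¹ * v * c = σ⁻¹ * v * t₂⁻¹ * t₁ := by rw [hceq, mul_assoc, mul_assoc, mul_assoc]
    have hfr1 : ∀ τ, ¬ D.isR (σ⁻¹ * v * c) τ := by
      intro τ hτ
      rw [hy1] at hτ hct1
      have h2 := D.p7 ht₂ hN hτ hfr hyN
      omega
    have hcol' : D.FL n X (σ⁻¹ * v * c) ∧ g (σ⁻¹ * v * c) = σ := by
      rcases hv' with hv' | ⟨y, hy, hv'⟩ | ⟨z, hz, hv'⟩ | ⟨c', σ', τ, hc', hM, hv'⟩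
      · exact absurd hv' hx'
      · obtain ⟨a1, -, -⟩ := C.new_col hy
        rw [← hv'] at a1
        have h2 : σ = g y := D.isL_unique hLc a1
        have h3 : σ⁻¹ * v * c = y := by rw [mul_assoc, hv', h2, inv_mul_cancel_left]
        rw [h3]
        exact ⟨hy, h2.symm⟩
      · exact absurd hLc ((C.new_row hz hv').2.1 σ)
      · obtain ⟨-, a0, a1, -, -, -⟩ := C.new_cell hc' hM
        rw [← hv'] at a1
        have h2 : σ = σ' := D.isL_unique hLc a1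
        have h3 : σ⁻¹ * v * c = c' * τ := by
          rw [mul_assoc, hv', h2, mul_assoc, inv_mul_cancel_left]
        exfalso
        refine hfr1 τ ?_
        rw [h3]
        exact a0
    obtain ⟨b1, b2⟩ := hcol'
    by_cases hx : v ∈ X
    · have hct2 := C.inv.1.timeL v hx σ hL
      rcases hN with hE | ⟨hTh, -⟩
      · have h2 : D.Gm (σ⁻¹ * v * c) (t₁⁻¹ * t₂) := D.Gm_E hE ht₂
        have h3 : t₁⁻¹ * t₂ ≠ 1 := by
          intro h4
          apply h1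
          rw [hceq]
          have h5 : t₁ = t₂ := by rwa [inv_mul_eq_one] at h4
          rw [h5, inv_mul_cancel]
        have h4 := C.hg.old _ b1 _ h2 h3
        rw [b2] at h4
        have h5 : σ * (σ⁻¹ * v * c) * (t₁⁻¹ * t₂) = v := by rw [hceq]; group
        rw [h5] at h4
        exact h4 hx
      · rcases D.p8 (y₂ := σ⁻¹ * v) ht₂ hTh with h2 | h2
        · rw [← hy1] at h2
          omega
        · rw [← hy1] at h2
          have h4 := C.hg.old' _ b1 t₁ hTh t₂ ht₂ h2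
          rw [b2] at h4
          have h5 : σ * (σ⁻¹ * v * c) * t₁⁻¹ * t₂ = v := by rw [hceq]; group
          rw [h5] at h4
          exact h4 hx
    · obtain ⟨a1, a2⟩ := hcol hx
      refine C.hg.new _ _ a1 b1 c hc h1 rfl ?_
      rw [a2, b2]

end TD

end Pool.Agent.H79.HT
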