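import Pool.Agent.H79.HT.NewT

/-!
# Module ADMN [H79 HT]: condition `a3n` after the step

PROOF. `NE m`, `m ∈ N`, `m ≠ 1`, `m = e⁻¹ f'` with `e, f' ∈ E`; suppose `v, v m ∈ New`. By `isR_mulN`,
`isL_mulN` both have the same types.
(1) both in `X`: `a3n` for `X`.
(2) `v ∈ X`, `v m ∉ X`: `v` is a child. If `isR v τ`: `rt (v τ⁻¹) < n` (`timeR`), `isR (v m) τ` and
`rt (v m τ⁻¹) = n` (`new_R`), but `v m τ⁻¹ = v τ⁻¹ m` (`comm`) and `rt_mulN`. If `isL v σ`:
`ct (σ⁻¹ v) < n`, `ct (σ⁻¹ (v m)) = n`, `ct_mulN`. (3) `v ∉ X`, `v m ∈ X`: the same.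
(4) both not in `X`. `v` of kind column, `v = g y * y`: not a right child, so `v m` is not, and it is a
left child, so (`new_row`, `new_cell`) `v m = g y' * y'`; `g y' = g y` (`isL_unique`), `y' = y m`;
`C.hg.new y y' _ _ m` with `Gm y m` (`Gm_E`): contradiction. `v` of kind row, `v⁻¹ = f z * z`: not a
left child, so `(v m)⁻¹ = f z' * z'`; `(f z')⁻¹ = (f z)⁻¹` (`isR_unique`); `f z ∈ D.op.Th`, so it commutes
with `N` (`D.op.comm`); `f z * z' = m⁻¹ * f z * z = f z * (m⁻¹ * z)`, `z' = m⁻¹ z`; `C.hf.newN z _ m⁻¹`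
(`D.op.op = D`, `op_op`; `NE_inv`): `f z ≠ f (m⁻¹ z)`, contradiction. `v` of kind cell, `v = σ c τ`: both a
left and a right child, so `v m = σ' c' τ'`, `σ' = σ`, `τ' = τ`, and `σ c τ m = σ c m τ` (`comm`), so
`c' = c m`: `C.hM.nr`.
-/

set_option autoImplicit false

open scoped Classical

namespace Pool.Agent.H79.HT

namespace TD

variable {G : Type*} [Group G] {D : TD G} {n : ℤ} {X : Set G} {g f : G → G}
  {M : G → G → G → Prop}

/-- an old and a new element -/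
private theorem old_new (C : D.Ctx n X g f M) {v m : G} (hv : v ∈ X) (hm : D.NE m)
    (hv' : v * m ∈ D.New n X g f M) (hX : v * m ∉ X) : False := by
  rcases C.inv.1.adm.child v hv with ⟨τ, hτ⟩ | ⟨σ, hσ⟩
  · have h1 := C.inv.1.timeR v hv τ hτ
    have h2 := C.new_R hv' hX ((D.isR_mulN hm.1).2 hτ)
    have h3 : v * m * τ⁻¹ = v * τ⁻¹ * m := by
      have h4 := D.comm m hm.1 τ hτ.1
      have h5 : m * τ⁻¹ = τ⁻¹ * m := by
        rw [← inv_mul_eq_iff_eq_mul, ← mul_assoc, inv_inv, ← h4, mul_inv_cancel_right]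
      rw [mul_assoc, h5, mul_assoc]
    rw [h3, D.rt_mulN hm.1] at h2
    omega
  · have h1 := C.inv.1.timeL v hv σ hσ
    have h2 := C.new_L hv' hX ((D.isL_mulN hm.1).2 hσ)
    rw [← mul_assoc, D.ct_mulN hm.1] at h2
    omega

theorem Ctx.new_a3n (C : D.Ctx n X g f M) {v m : G} (hv : v ∈ D.New n X g f M)
    (hm : D.NE m) : v * m ∉ D.New n X g f M := by
  intro hv'
  by_cases hx : v ∈ X
  · by_cases hx' : v * m ∈ X
    · exact C.inv.1.adm.a3n v hx m hm hx'
    · exact old_new C hx hm hv' hx'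
  by_cases hx' : v * m ∈ X
  · have e : v * m * m⁻¹ = v := mul_inv_cancel_right v m
    exact old_new C hx' (D.NE_inv hm) (by rw [e]; exact hv) (by rw [e]; exact hx)
  obtain ⟨hmN, hm1, e, he, f', hf', hmef⟩ := hm
  rcases hv with hv | ⟨y, hy, hv⟩ | ⟨z, hz, hv⟩ | ⟨c, σ, τ, hc, hM, hv⟩
  · exact hx hv
  · obtain ⟨a1, a2, -⟩ := C.new_col hy
    rw [← hv] at a1 a2
    rcases hv' with hv' | ⟨y', hy', hv'⟩ | ⟨z, hz, hv'⟩ | ⟨c, σ, τ, hc, hM, hv'⟩
    · exact hx' hv'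
    · obtain ⟨b1, -, -⟩ := C.new_col hy'
      rw [← hv', D.isL_mulN hmN] at b1
      have h1 : g y' = g y := D.isL_unique b1 a1
      have h2 : y' = y * m := by
        rw [h1, hv, mul_assoc] at hv'
        exact (mul_left_cancel hv').symm
      refine C.hg.new y y' hy hy' m ?_ hm1 h2 h1.symm
      rw [hmef]
      exact D.Gm_E he hf'
    · obtain ⟨b1, -, -⟩ := C.new_row hz hv'
      exact a2 _ ((D.isR_mulN hmN).1 b1)
    · obtain ⟨-, -, -, b1, -, -⟩ := C.new_cell hc hM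
      rw [← hv', D.isR_mulN hmN] at b1
      exact a2 _ b1
  · obtain ⟨a1, a2, -⟩ := C.new_row hz hv
    rcases hv' with hv' | ⟨y', hy', hv'⟩ | ⟨z', hz', hv'⟩ | ⟨c, σ, τ, hc, hM, hv'⟩
    · exact hx' hv'
    · obtain ⟨b1, -, -⟩ := C.new_col hy'
      rw [← hv', D.isL_mulN hmN] at b1
      exact a2 _ b1
    · obtain ⟨b1, -, -⟩ := C.new_row hz' hv'
      rw [D.isR_mulN hmN] at b1
      have h1 : f z' = f z := inv_injective (D.isR_unique b1 a1)
      have h2 := D.op.comm m⁻¹ (D.N.inv_mem hmN) (f z) (C.hf.mem z hz)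
      have h3 : z' = m⁻¹ * z := by
        rw [h1, mul_inv_rev, hv, ← mul_assoc, h2, mul_assoc] at hv'
        exact (mul_left_cancel hv').symm
      have h4 : D.op.op.NE m⁻¹ := by
        rw [op_op]
        exact D.NE_inv ⟨hmN, hm1, e, he, f', hf', hmef⟩
      rw [h3] at hz'
      have h5 := C.hf.newN z hz m⁻¹ h4 hz'
      rw [← h3] at h5
      exact h5 h1.symm
    · obtain ⟨-, -, b1, -, -, -⟩ := C.new_cell hc hM
      rw [← hv', D.isL_mulN hmN] at b1
      exact a2 _ b1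
  · obtain ⟨-, -, a1, a2, -, -⟩ := C.new_cell hc hM
    rw [← hv] at a1 a2
    rcases hv' with hv' | ⟨y', hy', hv'⟩ | ⟨z', hz', hv'⟩ | ⟨c', σ', τ', hc', hM', hv'⟩
    · exact hx' hv'
    · obtain ⟨-, b1, -⟩ := C.new_col hy'
      rw [← hv'] at b1
      exact b1 τ ((D.isR_mulN hmN).2 a2)
    · obtain ⟨-, b1, -⟩ := C.new_row hz' hv'
      exact b1 σ ((D.isL_mulN hmN).2 a1)
    · obtain ⟨-, -, b1, b2, -, -⟩ := C.new_cell hc' hM'
      rw [← hv'] at b1 b2
      rw [D.isL_mulN hmN] at b1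
      rw [D.isR_mulN hmN] at b2
      have h1 : σ' = σ := D.isL_unique b1 a1
      have h2 : τ' = τ := D.isR_unique b2 a2
      subst h1 h2
      have h3 := D.comm m hmN τ' a2.1
      have h4 : c' = c * m := by
        have h5 : σ' * c' * τ' = σ' * (c * m) * τ' := by
          rw [← hv', hv]
          simp only [mul_assoc]
          rw [h3]
        exact mul_left_cancel (mul_right_cancel h5)
      rw [h4] at hM'
      exact C.hM.nr c hc m ⟨hmN, hm1, e, he, f', hf', hmef⟩ σ' τ' hM hM' 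

end TD

end Pool.Agent.H79.HT
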