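import Pool.Agent.H79.HT.GmCard
import Pool.Agent.H79.HT.NInvB

/-!
# Module ALLOW [H79 HT]: many choices are allowed for a free column

PROOF of `allow`. `F` from `Gm_fin y`, `F'` from `back_fin y`. Let `A` be the set of `σ ∈ Th` with all
three properties. Every `σ ∈ Th \ A` is in one of the following sets. (1) For some `c ∈ F`:
not `CL σ (y c)`: at most one `σ` for every `c` (`leaf_unique'`), in all at most `|F|`.
(2) For some `c ∈ F`: `σ y c ∈ X`: at most one `σ ∈ Th` for every `c`, by `un` of `hX.2` for the row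
`(y c)⁻¹` of `D.op` (`(σ (y c))⁻¹ = (y c)⁻¹ σ⁻¹ ∈ iv X`). (3) For some `u ∈ F'`: `σ u ∈ X`: at most one
for every `u`, in the same way (`σ y b⁻¹ t = σ (y b⁻¹ t)`). So
`|Th| ≤ |A| + 2 |F| + |F'|`. (Finset: `Th ⊆ A ∪ F.biUnion _ ∪ F.biUnion _ ∪ F'.biUnion _`,
`Finset.card_biUnion_le_card_mul` with bound 1.)
-/

set_option autoImplicit false

open scoped Classical

namespace Pool.Agent.H79.HT

namespace TD

variable {G : Type*} [Group G] (D : TD G)

theorem allow {n : ℤ} {X : Set G} (hX : D.Inv n X) (y : G) :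
    ∃ A : Finset G, D.Th.card ≤ A.card + 2 * (D.E.card * (D.E.card + 1)) + D.E.card ∧
      ∀ σ ∈ A, σ ∈ D.Th ∧ (∀ c, D.Gm y c → D.CL σ (y * c)) ∧
        (∀ c, D.Gm y c → c ≠ 1 → σ * y * c ∉ X) ∧
        (∀ b ∈ D.Th, ∀ t ∈ D.E, 4 * D.κ < D.p y⁻¹ b⁻¹ → σ * y * b⁻¹ * t ∉ X) := by
  obtain ⟨F, hF, hF'⟩ := D.Gm_fin y
  obtain ⟨F₃, hF₃, hF₃'⟩ := D.back_fin y
  let A : Finset G := D.Th.filter (fun σ => (∀ c, D.Gm y c → D.CL σ (y * c)) ∧
        (∀ c, D.Gm y c → c ≠ 1 → σ * y * c ∉ X) ∧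
        (∀ b ∈ D.Th, ∀ t ∈ D.E, 4 * D.κ < D.p y⁻¹ b⁻¹ → σ * y * b⁻¹ * t ∉ X))
  let B1 : Finset G := F.biUnion (fun c => D.Th.filter (fun σ => ¬ D.CL σ (y * c)))
  let B2 : Finset G := F.biUnion (fun c => D.Th.filter (fun σ => σ * (y * c) ∈ X))
  let B3 : Finset G := F₃.biUnion (fun u => D.Th.filter (fun σ => σ * u ∈ X))
  have hone : ∀ u : G, (D.Th.filter (fun σ => σ * u ∈ X)).card ≤ 1 := by
    intro u
    rw [Finset.card_le_one]
    intro a ha b hb
    rw [Finset.mem_filter] at ha hb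
    have h1 := hX.2.un u⁻¹ a⁻¹ (D.inv_mem_op_T.2 (D.mem_T.2 (Or.inr ha.1)))
      b⁻¹ (D.inv_mem_op_T.2 (D.mem_T.2 (Or.inr hb.1)))
      (by rw [← mul_inv_rev, mem_iv]; exact ha.2)
      (by rw [← mul_inv_rev, mem_iv]; exact hb.2)
    exact inv_injective h1
  have h1 : B1.card ≤ F.card := by
    refine (Finset.card_biUnion_le_card_mul F _ 1 ?_).trans (by rw [mul_one])
    intro c _
    rw [Finset.card_le_one]
    intro a ha b hb
    rw [Finset.mem_filter] at ha hb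
    exact D.leaf_unique' ha.1 hb.1 ha.2 hb.2
  have h2 : B2.card ≤ F.card :=
    (Finset.card_biUnion_le_card_mul F _ 1 (fun c _ => hone _)).trans (by rw [mul_one])
  have h3 : B3.card ≤ F₃.card :=
    (Finset.card_biUnion_le_card_mul F₃ _ 1 (fun c _ => hone _)).trans (by rw [mul_one])
  have hsub : D.Th ⊆ A ∪ (B1 ∪ (B2 ∪ B3)) := by
    intro σ hσ
    rw [Finset.mem_union, Finset.mem_union, Finset.mem_union]
    by_cases c1 : σ ∈ B1
    · exact Or.inr (Or.inl c1)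
    by_cases c2 : σ ∈ B2
    · exact Or.inr (Or.inr (Or.inl c2))
    by_cases c3 : σ ∈ B3
    · exact Or.inr (Or.inr (Or.inr c3))
    left
    refine Finset.mem_filter.2 ⟨hσ, ?_, ?_, ?_⟩
    · intro c hc
      by_contra hcon
      exact c1 (Finset.mem_biUnion.2 ⟨c, hF' c hc, Finset.mem_filter.2 ⟨hσ, hcon⟩⟩)
    · intro c hc _ hx
      refine c2 (Finset.mem_biUnion.2 ⟨c, hF' c hc, Finset.mem_filter.2 ⟨hσ, ?_⟩⟩)
      rw [← mul_assoc]
      exact hx
    · intro b hb t ht h hx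
      refine c3 (Finset.mem_biUnion.2 ⟨y * b⁻¹ * t, hF₃' b hb t ht h, Finset.mem_filter.2 ⟨hσ, ?_⟩⟩)
      rw [← mul_assoc, ← mul_assoc]
      exact hx
  refine ⟨A, ?_, ?_⟩
  · have k1 := (Finset.card_le_card hsub).trans (Finset.card_union_le _ _)
    have k2 := Finset.card_union_le B1 (B2 ∪ B3)
    have k3 := Finset.card_union_le B2 B3
    omega
  · intro σ hσ
    exact Finset.mem_filter.1 hσ

end TD

end Pool.Agent.H79.HT
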