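import Pool.Agent.H79.HT.Square
import Pool.Agent.H79.HT.Leaf

/-!
# Module RU [H79 HT]: at most one non-child of a row is selected

PROOF of `ru_aux` (`v₂ = w t₂` is a left child of type `σ`, not a right child, `t₂ ∈ E`, `t₁` a
non-child of `w`, both selected; then `t₁ = t₂`). `isL_p`: `p v₂ σ ≥ 2L - 102κ`; `w = v₂ t₂⁻¹`, so
`p w σ ≥ 2L - 103κ` (`p_mul_right`, `2 len t₂⁻¹ ≤ κ`) and `wL w σ` (`wL_of_p`, `p_comm`; `σ ∈ Th` by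
`isL_iff`). So `NR (σ⁻¹ w) t₁` (`NR_step`), and `σ⁻¹ w = (σ⁻¹ v₂) t₂⁻¹`: `g = t₂⁻¹ t₁` satisfies
`Gm (σ⁻¹ v₂) g`. If `t₁ ≠ t₂` then `g ≠ 1` and `a3` says `v₂ g = w t₁ ∉ X`. Contradiction.
PROOF of `ru`. Suppose `t₁ ≠ t₂`, `v₁ = w t₁`, `v₂ = w t₂`.
(1) `v₁`, `v₂` both right children: `leaf_two`: `t₁, t₂ ∈ E`, `n = t₁⁻¹ t₂ ∈ N`, `n ≠ 1`: `NE n`,
and `v₂ = v₁ n`: `a3n`.
(2) `v₂` is not a right child; by `child` `isL v₂ σ`. If `t₂ ∈ E`: `ru_aux`. If `t₂ ∉ E`: `t₂ ∈ Th`,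
not `CR w t₂`; then `t₁ ∈ E` (otherwise `t₁ = t₂` by `leaf_unique`), and `v₁` is not a right child
(`leaf_E` would give `CR w t₂`), so `isL v₁ σ'` and `ru_aux` with the roles exchanged.
(3) `v₁` is not a right child: (2) with the roles exchanged.
-/

set_option autoImplicit false

open scoped Classical

namespace Pool.Agent.H79.HT

namespace TD

variable {G : Type*} [Group G] (D : TD G)

theorem ru_aux {X : Set G} (hX : D.Adm X) {w t₁ t₂ σ : G} (h1 : D.NR w t₁) (ht₂ : t₂ ∈ D.E)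
    (x1 : w * t₁ ∈ X) (x2 : w * t₂ ∈ X) (hL : D.isL (w * t₂) σ)
    (hR : ∀ τ, ¬ D.isR (w * t₂) τ) : t₁ = t₂ := by
  have hκ := D.hκ
  have hLL := D.hL
  by_contra hne
  have hσ : σ ∈ D.Th := (D.isL_iff.1 hL).1
  have h2 := D.isL_p hL
  have h3 := (D.p_mul_right (w * t₂) σ t₂⁻¹).2
  rw [mul_inv_cancel_right, D.len_inv] at h3
  have h4 := D.lenE t₂ ht₂
  have hw : D.wL w σ := by
    refine D.wL_of_p hσ ?_
    rw [D.p_comm]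
    omega
  have h5 : D.Gm (σ⁻¹ * (w * t₂)) (t₂⁻¹ * t₁) := by
    refine ⟨t₂, ht₂, t₁, ?_, rfl⟩
    have e : σ⁻¹ * (w * t₂) * t₂⁻¹ = σ⁻¹ * w := by group
    rw [e]
    exact (D.NR_step hw t₁).1 h1
  have h6 : t₂⁻¹ * t₁ ≠ 1 := by
    intro h7
    rw [inv_mul_eq_one] at h7
    exact hne h7.symm
  have h7 := hX.a3 _ x2 σ hL hR _ h5 h6
  have e : w * t₂ * (t₂⁻¹ * t₁) = w * t₁ := by group
  rw [e] at h7
  exact h7 x1

private theorem ru_aux2 {X : Set G} (hX : D.Adm X) {w t₁ t₂ : G} (h1 : D.NR w t₁) (h2 : D.NR w t₂)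
    (x1 : w * t₁ ∈ X) (x2 : w * t₂ ∈ X) (hR : ∀ τ, ¬ D.isR (w * t₂) τ) : t₁ = t₂ := by
  rcases h2 with hE | ⟨hTh, hCR⟩
  · rcases hX.child _ x2 with ⟨τ, hτ⟩ | ⟨σ, hσ⟩
    · exact absurd hτ (hR τ)
    · exact D.ru_aux hX h1 hE x1 x2 hσ hR
  · rcases h1 with hE1 | ⟨hTh1, hCR1⟩
    · have hR1 : ∀ τ, ¬ D.isR (w * t₁) τ := fun τ hτ => hCR (D.leaf_E hE1 hτ hTh)
      rcases hX.child _ x1 with ⟨τ, hτ⟩ | ⟨σ, hσ⟩
      · exact absurd hτ (hR1 τ)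
      · exact (D.ru_aux hX (Or.inr ⟨hTh, hCR⟩) hE1 x2 x1 hσ hR1).symm
    · exact D.leaf_unique hTh1 hTh hCR1 hCR

theorem ru {X : Set G} (hX : D.Adm X) {w t₁ t₂ : G} (h1 : D.NR w t₁) (h2 : D.NR w t₂)
    (x1 : w * t₁ ∈ X) (x2 : w * t₂ ∈ X) : t₁ = t₂ := by
  by_cases k1 : ∃ τ, D.isR (w * t₁) τ
  · by_cases k2 : ∃ τ, D.isR (w * t₂) τ
    · by_contra hne
      obtain ⟨τ₁, k1⟩ := k1
      obtain ⟨τ₂, k2⟩ := k2
      obtain ⟨e1, e2, -, e4⟩ := D.leaf_two h1 h2 hne k1 k2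
      have h3 : D.NE (t₁⁻¹ * t₂) := by
        refine ⟨e4, ?_, t₁, e1, t₂, e2, rfl⟩
        intro h
        rw [inv_mul_eq_one] at h
        exact hne h
      have h4 := hX.a3n _ x1 _ h3
      have e : w * t₁ * (t₁⁻¹ * t₂) = w * t₂ := by group
      rw [e] at h4
      exact h4 x2
    · push Not at k2
      exact D.ru_aux2 hX h1 h2 x1 x2 k2
  · push Not at k1
    exact (D.ru_aux2 hX h2 h1 x2 x1 k1).symm

end TD

end Pool.Agent.H79.HT
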