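import Pool.Agent.H79.HT.GmCard
import Pool.Agent.H79.HT.NInvB
import Pool.Agent.H79.HT.RU
import Pool.Agent.H79.HT.Greedy

/-!
# Module BASE [H79 HT]: the first set of the recursion

PROOF. `greedy` with `V = C = G`, `ok m τ := τ ∈ Th`, `R m τ m' τ' := τ = τ' ∧ ((∃ e, NE e ∧ m' = m e) ∨
(∃ e, op.NE e ∧ m' = e m))` (symmetric by `NE_inv`), `nb m := F₁.image (m * ·) ∪ F₂.image (· * m)`
(`NE_fin` for `D` and `D.op`), `|nb m| ≤ 2 |E|² < |Th|` (`card`, `|E| ≥ 1`): a function `θ : G → G`,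
`θ m ∈ Th`, `θ m ≠ θ m'` if `m ≠ m'` are related. `X := {v | ∃ m ∈ N, v = m * θ m}`.
(i) If `m τ = m' τ'` with `m, m' ∈ N`, `τ, τ' ∈ Th` then `m = m'`, `τ = τ'`: otherwise `τ ≠ τ'` and
`τ'⁻¹ τ = τ'⁻¹ m⁻¹ m' τ' = m⁻¹ m' ∈ N` (`comm`) has length `0`, so `p τ' τ = len τ' + len τ ≥ 2L > κ`
(`pe`), against `p_Th`. (ii) `v = m θ m ∈ X` is a right child of type `θ m` (`CR_N`, `isR_mul`) and a
left child of type `θ m` (`v = θ m * m`, `CL_N`, `isL_mul`). So `child`; `a2`, `a3` are void.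
`timeR`: `τ = θ m` (`isR_unique`), `rt m = 0 < 1`; `timeL` the same. `a3n`: `m θ m e = m e θ m`
(`comm`), if it is `m' θ m'` then by (i) `m' = m e`, `θ m' = θ m`, against the colouring.
`ex`: `rt w < 1`, so `w ∈ N` (`rt_pos`, integers), `w θ w ∈ X`. `un`: `w t₁ = m θ m`, `w t₂ = m' θ m'`.
If both `NR`: `ru`. If `t₁ ∈ Th`, `CR w t₁`: `isR (w t₁) t₁`, so `t₁ = θ m`, `w = m ∈ N`; then
`w t₂ = m' θ m'`: `t₂ ∈ E` is impossible (`len (w t₂) = len t₂ ≤ κ`, `len (m' θ m') = len (θ m') ≥ L`), so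
`t₂ ∈ Th`, and by (i) `w = m'`, `t₂ = θ m' = θ m = t₁`. The case `CR w t₂` is symmetric.
Second half (`D.op`, `iv X`): `iv X = {v | ∃ m ∈ N, v = m * (θ m⁻¹)⁻¹}` (`v⁻¹ = m θ m` iff
`v = (θ m)⁻¹ m⁻¹ = m⁻¹ (θ m)⁻¹`), which is the set for `D.op` and `θ' m = (θ m⁻¹)⁻¹`; so prove the first
half as a lemma `base_half` for every `D` and every `θ` with the stated properties and use it twice.
-/

set_option autoImplicit false

open scoped Classical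

namespace Pool.Agent.H79.HT

namespace TD

variable {G : Type*} [Group G] (D : TD G)

private theorem base_key {m m' τ τ' : G} (hm : m ∈ D.N) (hm' : m' ∈ D.N) (hτ : τ ∈ D.Th)
    (hτ' : τ' ∈ D.Th) (h : m * τ = m' * τ') : m = m' ∧ τ = τ' := by
  by_cases he : τ = τ'
  · subst he
    exact ⟨mul_right_cancel h, rfl⟩
  · exfalso
    have hn : m⁻¹ * m' ∈ D.N := D.N.mul_mem (D.N.inv_mem hm) hm'
    have e1 : τ = (m⁻¹ * m') * τ' := by
      rw [mul_assoc, ← h, inv_mul_cancel_left]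
    rw [D.comm _ hn _ hτ'] at e1
    have e2 : τ'⁻¹ * τ = m⁻¹ * m' := by
      rw [e1, inv_mul_cancel_left]
    have e3 := D.pe τ' τ
    rw [e2, D.len_N hn] at e3
    have e4 := D.p_Th hτ' hτ (fun h => he h.symm)
    have e5 := D.lenT τ hτ
    have e6 := D.lenT τ' hτ'
    have e7 := D.hL
    have e8 := D.hκ
    omega

private theorem base_un {θ : G → G} (h1 : ∀ m, θ m ∈ D.Th) {w t₁ t₂ : G}
    (ht₁ : t₁ ∈ D.Th) (hc : D.CR w t₁) (ht₂ : t₂ ∈ D.T)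
    (x1 : ∃ m ∈ D.N, w * t₁ = m * θ m) (x2 : ∃ m ∈ D.N, w * t₂ = m * θ m) : t₁ = t₂ := by
  obtain ⟨m, hm, e1⟩ := x1
  obtain ⟨m', hm', e2⟩ := x2
  have k1 : D.isR (w * t₁) t₁ := D.isR_mul.2 ⟨ht₁, hc⟩
  have k2 : D.isR (w * t₁) (θ m) := by
    rw [e1]
    exact D.isR_mul.2 ⟨h1 m, D.CR_N hm (h1 m)⟩
  have k3 : t₁ = θ m := D.isR_unique k1 k2
  have k4 : w = m := by
    rw [k3] at e1
    exact mul_right_cancel e1
  rcases D.mem_T.1 ht₂ with h | h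
  · exfalso
    have l1 := congrArg D.len e2
    rw [k4, D.lenN m hm, D.lenN m' hm'] at l1
    have l2 := D.lenE _ h
    have l3 := D.lenT _ (h1 m')
    have l4 := D.hL
    have l5 := D.hκ
    have l6 := D.len_nonneg t₂
    omega
  · rw [k4] at e2
    obtain ⟨l1, l2⟩ := D.base_key hm hm' h (h1 m') e2
    rw [k3, l2, l1]

theorem base_half {θ : G → G} (h1 : ∀ m, θ m ∈ D.Th)
    (h2 : ∀ m ∈ D.N, ∀ e, D.NE e → θ m ≠ θ (m * e)) :
    D.InvR 1 {v | ∃ m ∈ D.N, v = m * θ m} := by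
  have hR : ∀ m ∈ D.N, D.isR (m * θ m) (θ m) := fun m hm =>
    D.isR_mul.2 ⟨h1 m, D.CR_N hm (h1 m)⟩
  have hL : ∀ m ∈ D.N, D.isL (m * θ m) (θ m) := by
    intro m hm
    rw [D.comm m hm _ (h1 m)]
    exact D.isL_mul.2 ⟨h1 m, D.CL_N hm (h1 m)⟩
  have hA : D.Adm {v | ∃ m ∈ D.N, v = m * θ m} := by
    refine ⟨?_, ?_, ?_, ?_⟩
    · rintro v ⟨m, hm, rfl⟩
      exact Or.inl ⟨_, hR m hm⟩
    · rintro v ⟨m, hm, rfl⟩ σ _ h _ _
      exact absurd (hR m hm) (h _)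
    · rintro v ⟨m, hm, rfl⟩ σ _ h _ _ _
      exact absurd (hR m hm) (h _)
    · rintro v ⟨m, hm, rfl⟩ n hn ⟨m', hm', e⟩
      have e1 : (m * n) * θ m = m' * θ m' := by
        rw [mul_assoc, D.comm n hn.1 _ (h1 m), ← mul_assoc]
        exact e
      obtain ⟨l1, l2⟩ := D.base_key (D.N.mul_mem hm hn.1) hm' (h1 m) (h1 m') e1
      exact h2 m hm n hn (by rw [l2, l1])
  refine ⟨hA, ?_, ?_, ?_, ?_⟩
  · rintro v ⟨m, hm, rfl⟩ τ hτ
    rw [D.isR_unique hτ (hR m hm), mul_inv_cancel_right, D.rt_N hm]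
    norm_num
  · rintro v ⟨m, hm, rfl⟩ σ hσ
    rw [D.isL_unique hσ (hL m hm), D.comm m hm _ (h1 m), inv_mul_cancel_left, D.ct_N hm]
    norm_num
  · intro w hw
    have hwN : w ∈ D.N := by
      by_contra h
      have := D.rt_pos h
      omega
    exact ⟨θ w, D.mem_T.2 (Or.inr (h1 w)), w, hwN, rfl⟩
  · intro w t₁ ht₁ t₂ ht₂ x1 x2
    by_cases hc1 : t₁ ∈ D.Th ∧ D.CR w t₁
    · exact D.base_un h1 hc1.1 hc1.2 ht₂ x1 x2
    · by_cases hc2 : t₂ ∈ D.Th ∧ D.CR w t₂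
      · exact (D.base_un h1 hc2.1 hc2.2 ht₁ x2 x1).symm
      · have k1 : D.NR w t₁ := by
          rcases D.mem_T.1 ht₁ with h | h
          · exact Or.inl h
          · exact Or.inr ⟨h, fun hc => hc1 ⟨h, hc⟩⟩
        have k2 : D.NR w t₂ := by
          rcases D.mem_T.1 ht₂ with h | h
          · exact Or.inl h
          · exact Or.inr ⟨h, fun hc => hc2 ⟨h, hc⟩⟩
        exact D.ru hA k1 k2 x1 x2

theorem base_colour : ∃ θ : G → G, (∀ m, θ m ∈ D.Th) ∧ (∀ m, ∀ e, D.NE e → θ m ≠ θ (m * e)) ∧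
    (∀ m, ∀ e, D.op.NE e → θ m ≠ θ (e * m)) := by
  obtain ⟨F₁, hF₁, hF₁'⟩ := D.NE_fin
  obtain ⟨F₂, hF₂, hF₂'⟩ := D.op.NE_fin
  rw [D.op_E_card] at hF₂
  have hE : 1 ≤ D.E.card := Finset.card_pos.2 ⟨1, D.oneE⟩
  have hcard := D.card
  have hE2 : 1 ≤ D.E.card ^ 2 := Nat.one_le_pow _ _ hE
  obtain ⟨f, hf1, hf2⟩ := greedy (V := G) (C := G) (fun _ τ => τ ∈ D.Th)
    (fun m τ m' τ' => τ = τ' ∧ ((∃ e, D.NE e ∧ m' = m * e) ∨ ∃ e, D.op.NE e ∧ m' = e * m))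
    (fun m => F₁.image (fun e => m * e) ∪ F₂.image (fun e => e * m)) (by
      intro v
      have : 0 < D.Th.card := by omega
      exact Finset.card_pos.1 this) (by
      rintro v c w d ⟨h1, h2⟩
      refine ⟨h1.symm, ?_⟩
      rcases h2 with ⟨e, he, h2⟩ | ⟨e, he, h2⟩
      · exact Or.inl ⟨e⁻¹, D.NE_inv he, by rw [h2, mul_inv_cancel_right]⟩
      · exact Or.inr ⟨e⁻¹, D.op.NE_inv he, by rw [h2, inv_mul_cancel_left]⟩) (by
      rintro v c w d ⟨_, h2⟩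
      rw [Finset.mem_union]
      rcases h2 with ⟨e, he, h2⟩ | ⟨e, he, h2⟩
      · exact Or.inl (Finset.mem_image.2 ⟨e, hF₁' e he, h2.symm⟩)
      · exact Or.inr (Finset.mem_image.2 ⟨e, hF₂' e he, h2.symm⟩)) (by
      intro v h _
      set nb := F₁.image (fun e => v * e) ∪ F₂.image (fun e => e * v) with hnb
      have c1 : (nb.image h).card ≤ 2 * D.E.card ^ 2 := by
        refine Finset.card_image_le.trans ?_
        refine (Finset.card_union_le _ _).trans ?_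
        have c2 : (F₁.image (fun e => v * e)).card ≤ F₁.card := Finset.card_image_le
        have c3 : (F₂.image (fun e => e * v)).card ≤ F₂.card := Finset.card_image_le
        omega
      have c4 : (nb.image h).card < D.Th.card := by omega
      obtain ⟨c, hc1, hc2⟩ := Finset.exists_mem_notMem_of_card_lt_card c4
      refine ⟨c, hc1, ?_⟩
      rintro w hw ⟨h1, _⟩
      exact hc2 (Finset.mem_image.2 ⟨w, hw, h1.symm⟩))
  refine ⟨f, hf1, ?_, ?_⟩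
  · intro m e he h
    refine hf2 m (m * e) ?_ ⟨h, Or.inl ⟨e, he, rfl⟩⟩
    intro h3
    exact he.2.1 (by simpa using h3.symm)
  · intro m e he h
    refine hf2 m (e * m) ?_ ⟨h, Or.inr ⟨e, he, rfl⟩⟩
    intro h3
    exact he.2.1 (by simpa using h3.symm)

theorem base : ∃ X : Set G, D.Inv 1 X := by
  obtain ⟨θ, h1, h2, h3⟩ := D.base_colour
  refine ⟨_, D.base_half h1 (fun m _ e he => h2 m e he), ?_⟩
  have h4 := D.op.base_half (θ := fun m => (θ m⁻¹)⁻¹)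
    (fun m => D.inv_mem_op_Th.2 (h1 m⁻¹)) (by
      intro m _ e he h5
      have h6 := inv_injective h5
      rw [mul_inv_rev] at h6
      exact h3 m⁻¹ e⁻¹ (D.op.NE_inv he) h6)
  have h5 : iv {v | ∃ m ∈ D.N, v = m * θ m} = {v | ∃ m ∈ D.op.N, v = m * (θ m⁻¹)⁻¹} := by
    ext v
    show (∃ m ∈ D.N, v⁻¹ = m * θ m) ↔ ∃ m ∈ D.N, v = m * (θ m⁻¹)⁻¹
    constructor
    · rintro ⟨m, hm, h⟩
      refine ⟨m⁻¹, D.N.inv_mem hm, ?_⟩
      rw [D.comm m hm _ (h1 m)] at h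
      rw [inv_inv, ← inv_inv v, h]
      group
    · rintro ⟨m, hm, h⟩
      refine ⟨m⁻¹, D.N.inv_mem hm, ?_⟩
      rw [D.comm m⁻¹ (D.N.inv_mem hm) _ (h1 m⁻¹), h]
      group
  rw [h5]
  exact h4

end TD

end Pool.Agent.H79.HT
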