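import Pool.Agent.H79.HT.CellN

/-!
# Module CELLB [H79 HT]: the two sides of a cell

PROOF of `cell_card`. `rows_count` for `D` and for `D.op`, `iv X`, `c⁻¹` (`hX.2`, `op_tc`); the map
`(s, t) ↦ (t⁻¹, s⁻¹)` is a bijection of the two sets of pairs (`s c t ∈ X` iff
`t⁻¹ c⁻¹ s⁻¹ = (s c t)⁻¹ ∈ iv X`; `inv_mem_op_T`), and `|D.op.T| = |D.T|` (`card_T`, `op_E_card`,
`op_Th_card`).
PROOF of `cell_large`. Let `σ ∈ Th`, not `UL X c σ`. Either not `CL σ c` (at most one such `σ`,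
`leaf_unique'`), or there is `t ∈ T` with `σ c t ∈ X`. In the second case `NR c t`: otherwise
`t ∈ Th` and `CR c t`; then `isL (σ c) σ`, `isR (c t) t`, so `isR (σ c t) t` (`square'`) and
`timeR` gives `rt (σ c t t⁻¹) = rt (σ c) < n`, but `rt (σ c) = tc c = n` (`rt_cell`). For every `t` at
most one `σ` has `σ c t ∈ X`: `un` of `hX.2` for the row `(c t)⁻¹` of `D.op`
(`(σ (c t))⁻¹ = (c t)⁻¹ σ⁻¹`). The number of `t` with `NR c t` is at most `|E| + 1` (`leaf_unique`).
So `|Th| ≤ |UL| + 1 + (|E| + 1)`.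
-/

set_option autoImplicit false

open scoped Classical

namespace Pool.Agent.H79.HT

namespace TD

variable {G : Type*} [Group G] (D : TD G)

theorem cell_card {n : ℤ} {X : Set G} (hX : D.Inv n X) {c : G} (hc : D.tc c = n) :
    (D.Th.filter (fun σ => D.UL X c σ)).card =
      (D.Th.filter (fun τ => D.op.UL (iv X) c⁻¹ τ⁻¹)).card := by
  have h1 := D.rows_count hX.1 hc
  have hc' : D.op.tc c⁻¹ = n := by rw [op_tc, hc]
  have h2 := D.op.rows_count hX.2 hc'
  have hT : D.op.T.card = D.T.card := by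
    rw [D.op.card_T, D.card_T, op_E_card, op_Th_card]
  have hpairs : ((D.op.T ×ˢ D.op.T).filter (fun q : G × G => q.1 * c⁻¹ * q.2 ∈ iv X)).card =
      ((D.T ×ˢ D.T).filter (fun q : G × G => q.1 * c * q.2 ∈ X)).card := by
    refine Finset.card_bij' (fun q _ => (q.2⁻¹, q.1⁻¹)) (fun q _ => (q.2⁻¹, q.1⁻¹)) ?_ ?_ ?_ ?_
    · rintro ⟨s, t⟩ h
      rw [Finset.mem_filter, Finset.mem_product] at h ⊢
      obtain ⟨⟨hs, ht⟩, hm⟩ := h
      refine ⟨⟨?_, ?_⟩, ?_⟩
      · rw [← D.inv_mem_op_T, inv_inv]; exact ht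
      · rw [← D.inv_mem_op_T, inv_inv]; exact hs
      · have e : (s * c⁻¹ * t)⁻¹ = t⁻¹ * c * s⁻¹ := by group
        rw [mem_iv', e] at hm
        exact hm
    · rintro ⟨s, t⟩ h
      rw [Finset.mem_filter, Finset.mem_product] at h ⊢
      obtain ⟨⟨hs, ht⟩, hm⟩ := h
      refine ⟨⟨D.inv_mem_op_T.2 ht, D.inv_mem_op_T.2 hs⟩, ?_⟩
      have e : (t⁻¹ * c⁻¹ * s⁻¹)⁻¹ = s * c * t := by group
      rw [mem_iv', e]
      exact hm
    · rintro ⟨s, t⟩ _
      simp
    · rintro ⟨s, t⟩ _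
      simp
  have hcol : (D.op.Th.filter (fun σ => D.op.UL (iv X) c⁻¹ σ)).card =
      (D.Th.filter (fun τ => D.op.UL (iv X) c⁻¹ τ⁻¹)).card := by
    refine Finset.card_bij' (fun q _ => q⁻¹) (fun q _ => q⁻¹) ?_ ?_ ?_ ?_
    · intro s h
      rw [Finset.mem_filter] at h ⊢
      rw [inv_inv]
      exact ⟨D.mem_op_Th.1 h.1, h.2⟩
    · intro s h
      rw [Finset.mem_filter] at h ⊢
      exact ⟨D.inv_mem_op_Th.2 h.1, h.2⟩
    · intro s _
      simp
    · intro s _
      simp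
  omega

theorem cell_large {n : ℤ} {X : Set G} (hX : D.Inv n X) {c : G} (hc : D.tc c = n) :
    D.Th.card ≤ (D.Th.filter (fun σ => D.UL X c σ)).card + D.E.card + 2 := by
  let B1 : Finset G := D.Th.filter (fun σ => ¬ D.CL σ c)
  let F : Finset G := D.E ∪ D.Th.filter (fun t => ¬ D.CR c t)
  let B2 : Finset G := F.biUnion (fun t => D.Th.filter (fun σ => σ * c * t ∈ X))
  have hB1 : B1.card ≤ 1 := by
    rw [Finset.card_le_one]
    intro a ha b hb
    rw [Finset.mem_filter] at ha hb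
    exact D.leaf_unique' ha.1 hb.1 ha.2 hb.2
  have hF : F.card ≤ D.E.card + 1 := by
    refine (Finset.card_union_le _ _).trans ?_
    apply Nat.add_le_add_left
    rw [Finset.card_le_one]
    intro a ha b hb
    rw [Finset.mem_filter] at ha hb
    exact D.leaf_unique ha.1 hb.1 ha.2 hb.2
  have hB2 : B2.card ≤ D.E.card + 1 := by
    refine (Finset.card_biUnion_le_card_mul F _ 1 ?_).trans (by omega)
    intro t _
    rw [Finset.card_le_one]
    intro a ha b hb
    rw [Finset.mem_filter] at ha hb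
    have h1 := hX.2.un (c * t)⁻¹ a⁻¹ (D.inv_mem_op_T.2 (D.mem_T.2 (Or.inr ha.1)))
      b⁻¹ (D.inv_mem_op_T.2 (D.mem_T.2 (Or.inr hb.1)))
      (by rw [← mul_inv_rev, mem_iv, ← mul_assoc]; exact ha.2)
      (by rw [← mul_inv_rev, mem_iv, ← mul_assoc]; exact hb.2)
    exact inv_injective h1
  have hsub : D.Th ⊆ D.Th.filter (fun σ => D.UL X c σ) ∪ (B1 ∪ B2) := by
    intro σ hσ
    rw [Finset.mem_union, Finset.mem_union]
    by_cases hU : D.UL X c σ
    · exact Or.inl (Finset.mem_filter.2 ⟨hσ, hU⟩)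
    · right
      by_cases hCL : D.CL σ c
      · right
        have h1 : ∃ t ∈ D.T, σ * c * t ∈ X := by
          by_contra hcon
          push Not at hcon
          exact hU ⟨hσ, hCL, hcon⟩
        obtain ⟨t, ht, hx⟩ := h1
        refine Finset.mem_biUnion.2 ⟨t, ?_, Finset.mem_filter.2 ⟨hσ, hx⟩⟩
        rw [Finset.mem_union, Finset.mem_filter]
        rcases D.mem_T.1 ht with hE | hTh
        · exact Or.inl hE
        · refine Or.inr ⟨hTh, fun hCR => ?_⟩
          have h2 := D.isL_mul.2 ⟨hσ, hCL⟩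
          have h3 := D.isR_mul.2 ⟨hTh, hCR⟩
          have h4 := (D.square' h2 h3).1
          have h5 := hX.1.timeR _ hx t h4
          rw [mul_inv_cancel_right, D.rt_cell h2, inv_mul_cancel_left, hc] at h5
          exact lt_irrefl _ h5
      · exact Or.inl (Finset.mem_filter.2 ⟨hσ, hCL⟩)
  have h3 := (Finset.card_le_card hsub).trans (Finset.card_union_le _ _)
  have h4 := Finset.card_union_le B1 B2
  omega

end TD

end Pool.Agent.H79.HT
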