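import Pool.Agent.H79.HT.Time
import Pool.Agent.H79.HT.Leaf

/-!
# Module DONER [H79 HT]: a non-child of a row that is a right child has an earlier time

PROOF. `v = w t`, `z = v τ⁻¹`. `isR_len`: `len z ≤ len v - L + 102κ`; `rt z ≤ len z + 100κ`
(`rt_upper`), `rt w ≥ len w - 51κ` (`rt_lower`).
If `t ∈ E`: `len v ≤ len w + len t ≤ len w + κ`, so `rt z ≤ len w - L + 203κ < len w - 51κ ≤ rt w`.
If `t ∈ Th`, not `CR w t`: `τ ≠ t` (otherwise `isR v t` says `CR w t`, as `w t t⁻¹ = w`). `isR_other`: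
`p v⁻¹ t⁻¹ ≤ 2κ`; `len w = len (v t⁻¹) = len v + len t - p v⁻¹ t⁻¹ ≥ len v + L - 2κ` (`len_mul_eq`,
`len_inv`). So `rt z ≤ len w - 2L + 204κ < rt w`.
-/

set_option autoImplicit false

open scoped Classical

namespace Pool.Agent.H79.HT

namespace TD

variable {G : Type*} [Group G] (D : TD G)

theorem d1R {w t τ : G} (h : D.NR w t) (h1 : D.isR (w * t) τ) :
    D.rt (w * t * τ⁻¹) < D.rt w := by
  have h2 := D.isR_len h1
  have h3 := D.rt_upper (w * t * τ⁻¹)
  have h4 := D.rt_lower w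
  have h5 := D.hL
  have h6 := D.hκ
  rcases h with ht | ⟨ht, hn⟩
  · have h7 := D.len_mul w t
    have h8 := D.lenE t ht
    omega
  · have hne : τ ≠ t := by
      rintro rfl
      have h7 := h1.2
      rw [mul_inv_cancel_right] at h7
      exact hn h7
    have h7 := D.isR_other h1 ht hne
    have h8 := D.len_mul_eq (w * t) t⁻¹
    rw [mul_inv_cancel_right, D.len_inv] at h8
    have h9 := D.lenT t ht
    omega

end TD

end Pool.Agent.H79.HT
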