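import Pool.Agent.H79.HT.DTwo
import Pool.Agent.H79.HT.DOneR
import Pool.Agent.H79.HT.RU

/-!
# Module CELLN [H79 HT]: counting in a cell

`c` is a cell of time `n`, `InvR n X`, `Q` the set of pairs `(s, t) ∈ T × T` with `s c t ∈ X`.
PROOF of `rows_count`. `|Q| = Σ_{s ∈ T} |{t ∈ T : s c t ∈ X}|`
(`Finset.card_filter`, `Finset.sum_product`, or `Finset.card_eq_sum_card_fiberwise`). For `s ∈ T` the
inner set has at most one element (`un` for the row `s c`, `s c t = (s c) t`). If `NL c s`, `d2` gives
`rt (s c) < tc c = n`, so it has exactly one (`ex`). If `s ∈ Th` and `CL s c`: it is empty iff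
`UL X c s`. `E` and `Th` are disjoint (lengths), and `s ∈ T` is `NL c s` or (`s ∈ Th`, `CL s c`)
(`NL_iff`). So `|Q| = |T| - |{s ∈ Th : UL X c s}|`.
-/

set_option autoImplicit false

open scoped Classical

namespace Pool.Agent.H79.HT

namespace TD

variable {G : Type*} [Group G] (D : TD G)

theorem E_Th {t : G} (h : t ∈ D.E) : t ∉ D.Th := by
  intro h1
  have h2 := D.lenE t h
  have h3 := D.lenT t h1
  have h4 := D.hL
  have h5 := D.hκ
  omega

theorem card_T : D.T.card = D.E.card + D.Th.card := by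
  unfold T
  refine Finset.card_union_of_disjoint ?_
  rw [Finset.disjoint_left]
  intro t h1 h2
  exact D.E_Th h1 h2

theorem rows_count {n : ℤ} {X : Set G} (hX : D.InvR n X) {c : G} (hc : D.tc c = n) :
    ((D.T ×ˢ D.T).filter (fun q : G × G => q.1 * c * q.2 ∈ X)).card +
      (D.Th.filter (fun σ => D.UL X c σ)).card = D.T.card := by
  have hUT : D.Th.filter (fun σ => D.UL X c σ) = D.T.filter (fun σ => D.UL X c σ) := by
    ext σ
    rw [Finset.mem_filter, Finset.mem_filter, mem_T]
    constructor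
    · rintro ⟨h1, h2⟩
      exact ⟨Or.inr h1, h2⟩
    · rintro ⟨-, h2⟩
      exact ⟨h2.1, h2⟩
  have hsplit : (D.T.filter (fun σ => ¬ D.UL X c σ)).card + (D.T.filter (fun σ => D.UL X c σ)).card =
      D.T.card := by
    rw [add_comm]
    exact Finset.card_filter_add_card_filter_not (s := D.T) (fun σ => D.UL X c σ)
  have hbij : ((D.T ×ˢ D.T).filter (fun q : G × G => q.1 * c * q.2 ∈ X)).card =
      (D.T.filter (fun σ => ¬ D.UL X c σ)).card := by
    refine Finset.card_bij (fun q _ => q.1) ?_ ?_ ?_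
    · rintro ⟨s, t⟩ h
      rw [Finset.mem_filter, Finset.mem_product] at h
      rw [Finset.mem_filter]
      exact ⟨h.1.1, fun hU => hU.2.2 t h.1.2 h.2⟩
    · rintro ⟨s, t⟩ h ⟨s', t'⟩ h' heq
      rw [Finset.mem_filter, Finset.mem_product] at h h'
      simp only at heq
      subst heq
      rw [Prod.mk.injEq]
      exact ⟨rfl, hX.un (s * c) t h.1.2 t' h'.1.2 h.2 h'.2⟩
    · intro s hs
      rw [Finset.mem_filter] at hs
      have hex : ∃ t ∈ D.T, s * c * t ∈ X := by
        by_cases hN : D.NL c s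
        · have h1 := D.d2 hN
          rw [hc] at h1
          exact hX.ex _ h1
        · rw [NL_iff] at hN
          push Not at hN
          rcases D.mem_T.1 hs.1 with hE | hTh
          · exact absurd hE hN.1
          · by_contra hcon
            push Not at hcon
            exact hs.2 ⟨hTh, hN.2 hTh, hcon⟩
      obtain ⟨t, ht, hx⟩ := hex
      exact ⟨(s, t), Finset.mem_filter.2 ⟨Finset.mem_product.2 ⟨hs.1, ht⟩, hx⟩, rfl⟩
  rw [hbij, hUT]
  exact hsplit

end TD

end Pool.Agent.H79.HT
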