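import Pool.Agent.H79.HT.ClaimA

/-!
# Module CHILD [H79 HT]: children are long

PROOFS. `isR v τ` says `τ ∈ Th` and `CR z τ`, `z = v τ⁻¹`; `claimA`: `p z⁻¹ τ ≤ 102κ`.
`isR_len`: `len v = len (z τ) = len z + len τ - p z⁻¹ τ` (`len_mul_eq`). `isR_len'`: the same formula,
`p ≥ 0`. `isR_p`: `len (v τ⁻¹) = len v + len τ - p v⁻¹ τ⁻¹` (`len_mul_eq`, `len_inv`), so
`p v⁻¹ τ⁻¹ = len v + len τ - len z = 2 len τ - p z⁻¹ τ ≥ 2L - 102κ`. `isR_unique`: if `τ ≠ τ'` then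
`L ≤ p τ⁻¹ v⁻¹`, `L ≤ p v⁻¹ τ'⁻¹`, so `L ≤ p τ⁻¹ τ'⁻¹ + κ ≤ 2κ` (`p_inv_inv`). `isR_other`: if
`p v⁻¹ t⁻¹ ≥ 2κ + 1` then `2κ + 1 ≤ p τ⁻¹ v⁻¹`, so `2κ + 1 ≤ p τ⁻¹ t⁻¹ + κ ≤ 2κ`.
`isL_*`: the statement for `D.op` at `v⁻¹`, `σ⁻¹` (done below). `isL_wL`: `wL_of_p`, `isL_p`.
-/

set_option autoImplicit false

open scoped Classical

namespace Pool.Agent.H79.HT

namespace TD

variable {G : Type*} [Group G] (D : TD G)

theorem isR_len {v τ : G} (h : D.isR v τ) : D.len (v * τ⁻¹) + D.L - 102 * D.κ ≤ D.len v := by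
  have h1 := (D.claimA h.1).1 h.2
  have h2 := D.len_mul_eq (v * τ⁻¹) τ
  rw [inv_mul_cancel_right] at h2
  have h3 := D.lenT τ h.1
  omega

theorem isR_len' {v τ : G} (h : D.isR v τ) : D.len v ≤ D.len (v * τ⁻¹) + D.L + D.κ := by
  have h1 := D.p_nonneg (v * τ⁻¹)⁻¹ τ
  have h2 := D.len_mul_eq (v * τ⁻¹) τ
  rw [inv_mul_cancel_right] at h2
  have h3 := D.lenT τ h.1
  omega

theorem isR_p {v τ : G} (h : D.isR v τ) : 2 * D.L - 102 * D.κ ≤ D.p v⁻¹ τ⁻¹ := by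
  have h1 := (D.claimA h.1).1 h.2
  have h2 := D.len_mul_eq (v * τ⁻¹) τ
  rw [inv_mul_cancel_right] at h2
  have h3 := D.lenT τ h.1
  have h4 := D.len_mul_eq v τ⁻¹
  rw [D.len_inv] at h4
  omega

theorem isR_unique {v τ τ' : G} (h : D.isR v τ) (h' : D.isR v τ') : τ = τ' := by
  by_contra hne
  have h1 := D.isR_p h
  have h2 := D.isR_p h'
  have h3 := D.hL
  have h4 := D.hκ
  rw [D.p_comm] at h1
  have h5 : D.L ≤ D.p τ⁻¹ v⁻¹ := by omega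
  have h6 : D.L ≤ D.p v⁻¹ τ'⁻¹ := by omega
  have h7 := D.p_hyp h5 h6
  have h8 := D.p_inv_inv h.1 h'.1 hne
  omega

/-- A right child of type `τ` does not end with another `t`. -/
theorem isR_other {v τ t : G} (h : D.isR v τ) (ht : t ∈ D.Th) (hne : τ ≠ t) :
    D.p v⁻¹ t⁻¹ ≤ 2 * D.κ := by
  by_contra hc
  have h1 := D.isR_p h
  have h3 := D.hL
  have h4 := D.hκ
  rw [D.p_comm] at h1
  have h5 : 2 * D.κ + 1 ≤ D.p τ⁻¹ v⁻¹ := by omega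
  have h6 : 2 * D.κ + 1 ≤ D.p v⁻¹ t⁻¹ := by omega
  have h7 := D.p_hyp h5 h6
  have h8 := D.p_inv_inv h.1 ht hne
  omega

theorem isL_len {v σ : G} (h : D.isL v σ) : D.len (σ⁻¹ * v) + D.L - 102 * D.κ ≤ D.len v := by
  have h1 := D.op.isR_len h
  rw [inv_inv, op_len, op_len, D.len_inv, op_L, op_κ] at h1
  have h2 : D.len (v⁻¹ * σ) = D.len (σ⁻¹ * v) := by
    rw [← D.len_inv]
    congr 1
    group
  omega

theorem isL_len' {v σ : G} (h : D.isL v σ) : D.len v ≤ D.len (σ⁻¹ * v) + D.L + D.κ := by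
  have h1 := D.op.isR_len' h
  rw [inv_inv, op_len, op_len, D.len_inv, op_L, op_κ] at h1
  have h2 : D.len (v⁻¹ * σ) = D.len (σ⁻¹ * v) := by
    rw [← D.len_inv]
    congr 1
    group
  omega

theorem isL_p {v σ : G} (h : D.isL v σ) : 2 * D.L - 102 * D.κ ≤ D.p v σ := by
  have h1 := D.op.isR_p h
  rw [inv_inv, inv_inv, op_p, op_L, op_κ] at h1
  exact h1

theorem isL_unique {v σ σ' : G} (h : D.isL v σ) (h' : D.isL v σ') : σ = σ' :=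
  inv_injective (D.op.isR_unique h h')

theorem isL_other {v σ t : G} (h : D.isL v σ) (ht : t ∈ D.Th) (hne : σ ≠ t) :
    D.p v t ≤ 2 * D.κ := by
  have h1 := D.op.isR_other h (D.inv_mem_op_Th.2 ht) (by simpa using hne)
  rw [inv_inv, inv_inv, op_p, op_κ] at h1
  exact h1

theorem isL_wL {v σ : G} (h : D.isL v σ) : D.wL v σ := by
  have h1 := D.isL_p h
  have h2 := D.hL
  have h3 := D.hκ
  rw [D.p_comm] at h1
  exact D.wL_of_p (D.isL_iff.1 h).1 (by omega)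

/-- the mirror image of `isL_wL` -/
theorem isR_wR {v τ : G} (h : D.isR v τ) : D.op.wL v⁻¹ τ⁻¹ := D.op.isL_wL (D.op_isL.2 h)

/-- the mirror image of `CR_step` -/
theorem CL_step {y τ : G} (h : D.op.wL y⁻¹ τ⁻¹) (σ : G) : D.CL σ y ↔ D.CL σ (y * τ⁻¹) := by
  have h1 := D.op.CR_step h σ⁻¹
  have h2 : τ⁻¹⁻¹ * y⁻¹ = (y * τ⁻¹)⁻¹ := by group
  rw [h2] at h1
  exact h1

/-- the mirror image of `NR_step` -/
theorem NL_step {y τ : G} (h : D.op.wL y⁻¹ τ⁻¹) (t : G) : D.NL y t ↔ D.NL (y * τ⁻¹) t := by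
  have h1 := D.op.NR_step h t⁻¹
  have h2 : τ⁻¹⁻¹ * y⁻¹ = (y * τ⁻¹)⁻¹ := by group
  rw [h2] at h1
  exact h1

end TD

end Pool.Agent.H79.HT
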