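import Pool.Agent.H79.HT.Ends

/-!
# Module WORDS [H79 HT]: words in `Th⁻¹` are nearly geodesic

PROOF of `words`. Induction on `l`, `V = (l.map (·⁻¹)).prod`. `l = []`: `V = 1`, `p σ 1 = 0`
(`p_comm`, `p_one_left`). `l = s :: l'`: `V = s⁻¹ V'` and `p σ V' ≤ 2κ` for all `σ ∈ Th`.
`pe` with `x = s`... : `len (s⁻¹ * V') = len s + len V' - p s V'`; and `V⁻¹`-free form of
`p V s⁻¹`: `pe V s⁻¹`: `len (V⁻¹ * s⁻¹) = len V + len s - p V s⁻¹` with `V⁻¹ s⁻¹ = V'⁻¹`,
`len V'⁻¹ = len V'`. So `p V s⁻¹ = len V + len s - len V' = 2 len s - p s V' ≥ 2L - 2κ`.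
For `σ ∈ Th`: `p σ s⁻¹ ≤ κ` (`p_Th_inv`). If `p σ V > 2κ` then `2κ + 1 ≤ p σ V`,
`2κ + 1 ≤ 2L - 2κ ≤ p V s⁻¹`, so `2κ + 1 ≤ p σ s⁻¹ + κ ≤ 2κ` by `p_hyp`, a contradiction.
-/

set_option autoImplicit false

open scoped Classical

namespace Pool.Agent.H79.HT

namespace TD

variable {G : Type*} [Group G] (D : TD G)

theorem words (l : List G) (hl : ∀ x ∈ l, x ∈ D.Th) :
    (∀ σ ∈ D.Th, D.p σ (l.map (fun x => x⁻¹)).prod ≤ 2 * D.κ) ∧
      ∀ s l', l = s :: l' → 2 * D.L - 2 * D.κ ≤ D.p (l.map (fun x => x⁻¹)).prod s⁻¹ := by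
  induction l with
  | nil =>
    refine ⟨?_, ?_⟩
    · intro σ _
      have h1 := D.p_one_left σ
      have h2 := D.hκ
      rw [D.p_comm] at h1
      simp only [List.map_nil, List.prod_nil]
      omega
    · intro s l' h
      exact absurd h (by simp)
  | cons s l' ih =>
    have hs : s ∈ D.Th := hl s (by simp)
    obtain ⟨ih1, -⟩ := ih (fun x hx => hl x (by simp [hx]))
    simp only [List.map_cons, List.prod_cons]
    set V' := (l'.map (fun x => x⁻¹)).prod with hV'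
    have a1 := D.pe s V'
    have a2 := D.pe (s⁻¹ * V') s⁻¹
    have e1 : (s⁻¹ * V')⁻¹ * s⁻¹ = V'⁻¹ := by group
    rw [e1, D.len_inv, D.len_inv] at a2
    have a3 := ih1 s hs
    have a4 := D.lenT s hs
    have a5 := D.hL
    have a6 := D.hκ
    have key : 2 * D.L - 2 * D.κ ≤ D.p (s⁻¹ * V') s⁻¹ := by omega
    refine ⟨?_, ?_⟩
    · intro σ hσ
      by_contra hc
      have b1 : 2 * D.κ + 1 ≤ D.p σ (s⁻¹ * V') := by omega
      have b2 : 2 * D.κ + 1 ≤ D.p (s⁻¹ * V') s⁻¹ := by omega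
      have b3 := D.p_hyp b1 b2
      have b4 := D.p_Th_inv hσ hs
      omega
    · intro s' l'' h
      have hs' : s = s' := by
        have := congrArg List.head? h
        simpa using this
      rw [← hs']
      exact key

end TD

end Pool.Agent.H79.HT
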