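import Pool.Agent.H79.HT.Term
import Pool.Agent.H79.HT.Words

/-!
# Module CLAIMA [H79 HT]: the meaning of `CR`

PROOF. `CR z τ ↔ p (term z)⁻¹ τ ≤ 100κ`. Use `chain z`. If `z` has no weak left end, `term z = z`
(`term_eq`) and both claims are clear. Otherwise `z = V⁻¹ y`, `V = (l.map (·⁻¹)).prod`, `wL y σ`,
`term z = y₀ = σ⁻¹ y`.
(1) `p y⁻¹ τ` and `p y₀⁻¹ τ` differ by at most `κ`: `y₀⁻¹ = y⁻¹ σ`, `sc1` with `a = y⁻¹`, `t = σ`,
`s = τ`; the condition holds because `y⁻¹ ∉ N` (`wL_not_N`, `inv_mem_iff`).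
(2) If `l = []` then `z = y`, done (`κ ≥ 1`).
(3) `l = s :: l'`. `p y⁻¹ ...`: `z⁻¹ = y⁻¹ V`. `pe z⁻¹ y⁻¹`: `len (z y⁻¹) = len z + len y - p z⁻¹ y⁻¹`,
`z y⁻¹ = V⁻¹`; `pe V y`: `len (V⁻¹ y) = len V + len y - p V y`. So `p z⁻¹ y⁻¹ = 2 len y - p V y`.
`p σ y > L` (`wL_p`), so `2 len y > L` (`p_le_right`). `p V y ≤ 3κ`: otherwise `3κ + 1 ≤ p V y` and
`3κ + 1 ≤ L ≤ p y σ`, so `3κ + 1 ≤ p V σ + κ` (`p_hyp`), but `p σ V ≤ 2κ` (`words`). Hence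
`p z⁻¹ y⁻¹ ≥ L - 3κ`.
(4) Suppose `CR z τ`: `p y₀⁻¹ τ ≤ 100κ`, `p y⁻¹ τ ≤ 101κ`; if `p z⁻¹ τ ≥ 102κ + 1` then by `p_hyp`
(`y⁻¹, z⁻¹, τ`; `102κ + 1 ≤ L - 3κ`) `102κ + 1 ≤ p y⁻¹ τ + κ ≤ 102κ`. Suppose not `CR z τ`:
`p y₀⁻¹ τ > 100κ`, `p y⁻¹ τ ≥ 99κ`, and by `p_hyp` (`z⁻¹, y⁻¹, τ`) `99κ ≤ p z⁻¹ τ + κ`.
-/

set_option autoImplicit false

open scoped Classical

namespace Pool.Agent.H79.HT

namespace TD

variable {G : Type*} [Group G] (D : TD G)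

theorem claimA {z τ : G} (hτ : τ ∈ D.Th) :
    (D.CR z τ → D.p z⁻¹ τ ≤ 102 * D.κ) ∧ (¬ D.CR z τ → 98 * D.κ ≤ D.p z⁻¹ τ) := by
  have hκ := D.hκ
  have hL := D.hL
  unfold CR
  rcases D.chain z with h | ⟨l, y, σ, hl, hz, hw, -, hterm⟩
  · rw [D.term_eq h]
    constructor <;> intro h1 <;> omega
  · have hσ := hw.1
    have hyN : y⁻¹ ∉ D.N := fun h => D.wL_not_N hw (D.N.inv_mem_iff.1 h)
    have h1 : D.p (y⁻¹ * σ) τ ≤ D.p y⁻¹ τ + D.κ ∧ D.p y⁻¹ τ ≤ D.p (y⁻¹ * σ) τ + D.κ :=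
      D.sc1 y⁻¹ σ hσ τ hτ (fun h => absurd h hyN)
    have e1 : (D.term z)⁻¹ = y⁻¹ * σ := by rw [hterm, mul_inv_rev, inv_inv]
    rw [e1]
    have hsmall : y = z ∨ D.L - 3 * D.κ ≤ D.p z⁻¹ y⁻¹ := by
      cases l with
      | nil =>
        left
        rw [hz]
        simp
      | cons s l' =>
        right
        set V := ((s :: l').map (fun x => x⁻¹)).prod with hV
        have k1 := D.pe z⁻¹ y⁻¹
        have k2 := D.pe V y
        have e2 : z⁻¹⁻¹ * y⁻¹ = V⁻¹ := by rw [hz]; group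
        rw [e2, D.len_inv, D.len_inv, D.len_inv] at k1
        rw [← hz] at k2
        have k3 := D.wL_p hw
        have k4 := D.p_le_right σ y
        have k5 : D.p σ V ≤ 2 * D.κ := (D.words _ hl).1 σ hσ
        have k6 : D.p V y ≤ 3 * D.κ := by
          by_contra hcon
          have k7 : 3 * D.κ + 1 ≤ D.p V σ + D.κ :=
            D.p_hyp (y := y) (by omega) (by rw [D.p_comm]; omega)
          rw [D.p_comm] at k7
          omega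
        omega
    rcases hsmall with hs | hs
    · rw [← hs]
      constructor <;> intro h2 <;> omega
    · constructor
      · intro h2
        by_contra h3
        have k7 : 102 * D.κ + 1 ≤ D.p y⁻¹ τ + D.κ :=
          D.p_hyp (y := z⁻¹) (by rw [D.p_comm]; omega) (by omega)
        omega
      · intro h2
        have k7 : 99 * D.κ ≤ D.p z⁻¹ τ + D.κ :=
          D.p_hyp (y := y⁻¹) (by omega) (by omega)
        omega

end TD

end Pool.Agent.H79.HT
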