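import Pool.Agent.H79.HT.RU
import Pool.Agent.H79.HT.NInvB

/-!
# Module CTX [H79 HT]: the situation of one step of the recursion, and its mirror image (complete)

`Ctx n X g f M`: the invariant holds for `X` at level `n ≥ 1`; `g` chooses for the free columns of
time `n`, `f` (in dual coordinates) for the free rows of time `n`, `M` for the cells of time `n`.
-/

set_option autoImplicit false

open scoped Classical

namespace Pool.Agent.H79.HT

namespace TD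

variable {G : Type*} [Group G] (D : TD G)

/-- One step of the recursion. -/
structure Ctx (n : ℤ) (X : Set G) (g f : G → G) (M : G → G → G → Prop) : Prop where
  hn : 1 ≤ n
  inv : D.Inv n X
  hg : D.FC n X g
  hf : D.op.FC n (iv X) f
  hM : D.MC n X M

theorem MC.op {D : TD G} {n : ℤ} {X : Set G} {M : G → G → G → Prop} (h : D.MC n X M) :
    D.op.MC n (iv X) (fun c σ τ => M c⁻¹ τ⁻¹ σ⁻¹) where
  sub := by
    intro c hc σ τ hm
    have hc' : D.tc c⁻¹ = n := by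
      rw [← hc, ← D.op_tc, inv_inv]
    obtain ⟨h1, h2⟩ := h.sub c⁻¹ hc' _ _ hm
    rw [inv_inv, inv_inv] at h2
    refine ⟨h2, ?_⟩
    rw [op_op, iv_iv]
    exact h1
  row := by
    intro c hc σ hσ
    have hc' : D.tc c⁻¹ = n := by
      rw [← hc, ← D.op_tc, inv_inv]
    obtain ⟨τ, h1, h2⟩ := h.col c⁻¹ hc' σ⁻¹ (by rw [inv_inv, inv_inv]; exact hσ)
    refine ⟨τ⁻¹, by simpa using h1, ?_⟩
    intro τ' hτ'
    have h3 := h2 _ hτ'
    rw [← h3, inv_inv]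
  col := by
    intro c hc τ hτ
    rw [op_op, iv_iv] at hτ
    have hc' : D.tc c⁻¹ = n := by
      rw [← hc, ← D.op_tc, inv_inv]
    obtain ⟨σ, h1, h2⟩ := h.row c⁻¹ hc' τ⁻¹ hτ
    refine ⟨σ⁻¹, by simpa using h1, ?_⟩
    intro σ' hσ'
    have h3 := h2 _ hσ'
    rw [← h3, inv_inv]
  nr := by
    intro c hc m hm σ τ h1 h2
    have hc' : D.tc c⁻¹ = n := by
      rw [← hc, ← D.op_tc, inv_inv]
    rw [mul_inv_rev] at h2
    exact h.nl c⁻¹ hc' m⁻¹ (D.op.NE_inv hm) _ _ h1 h2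
  nl := by
    intro c hc m hm σ τ h1 h2
    rw [op_op] at hm
    have hc' : D.tc c⁻¹ = n := by
      rw [← hc, ← D.op_tc, inv_inv]
    rw [mul_inv_rev] at h2
    exact h.nr c⁻¹ hc' m⁻¹ (D.NE_inv hm) _ _ h1 h2

theorem Ctx.op {D : TD G} {n : ℤ} {X : Set G} {g f : G → G} {M : G → G → G → Prop}
    (h : D.Ctx n X g f M) : D.op.Ctx n (iv X) f g (fun c σ τ => M c⁻¹ τ⁻¹ σ⁻¹) where
  hn := h.hn
  inv := h.inv.op
  hg := h.hf
  hf := by
    rw [op_op, iv_iv]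
    exact h.hg
  hM := h.hM.op

theorem iv_New {n : ℤ} {X : Set G} {g f : G → G} {M : G → G → G → Prop} :
    iv (D.New n X g f M) = D.op.New n (iv X) f g (fun c σ τ => M c⁻¹ τ⁻¹ σ⁻¹) := by
  ext v
  show v⁻¹ ∈ D.New n X g f M ↔ _
  unfold New
  simp only [Set.mem_ofPred_eq]
  rw [mem_iv', op_op, iv_iv]
  constructor
  · rintro (h | ⟨y, h1, h2⟩ | ⟨z, h1, h2⟩ | ⟨c, σ, τ, h1, h2, h3⟩)
    · exact Or.inl h
    · exact Or.inr (Or.inr (Or.inl ⟨y, h1, h2⟩))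
    · exact Or.inr (Or.inl ⟨z, h1, by rw [inv_inv] at h2; exact h2⟩)
    · refine Or.inr (Or.inr (Or.inr ⟨c⁻¹, τ⁻¹, σ⁻¹, ?_, ?_, ?_⟩))
      · rw [op_tc]
        exact h1
      · rw [inv_inv, inv_inv, inv_inv]
        exact h2
      · rw [← inv_inv v, h3]
        group
  · rintro (h | ⟨y, h1, h2⟩ | ⟨z, h1, h2⟩ | ⟨c, σ, τ, h1, h2, h3⟩)
    · exact Or.inl h
    · exact Or.inr (Or.inr (Or.inl ⟨y, h1, by rw [inv_inv]; exact h2⟩))
    · exact Or.inr (Or.inl ⟨z, h1, h2⟩)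
    · refine Or.inr (Or.inr (Or.inr ⟨c⁻¹, τ⁻¹, σ⁻¹, ?_, h2, ?_⟩))
      · rw [← D.op_tc, inv_inv]
        exact h1
      · rw [h3]
        group

end TD

end Pool.Agent.H79.HT
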