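import Pool.Agent.H79.HT.Time
import Pool.Agent.H79.HT.Leaf

/-!
# Module DONEL [H79 HT]: a non-child of a row that is a left child has an earlier time

PROOF. `v = w t`, `y = σ⁻¹ v`. `isL_len`: `len y ≤ len v - L + 102κ`; `ct y ≤ len y + 100κ`
(`ct_upper`), `rt w ≥ len w - 51κ` (`rt_lower`).
(A) `t ∈ E`: `len v ≤ len w + κ`, so `ct y ≤ len w - L + 203κ < len w - 51κ ≤ rt w`.
(B) `t ∈ Th`, not `CR w t`. `w ∉ N` (`CR_N`). `isL_p`: `p v σ ≥ 2L - 102κ`; `sc1` with `a = w`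
(`w ∉ N`), `t`, `s = σ`: `p w σ ≥ 2L - 103κ > L + κ`, so `wL w σ` (`wL_of_p`, `p_comm`). `c = σ⁻¹ w`,
`y = c t`. Not `CR c t` (`CR_step`), so `p c⁻¹ t ≥ 98κ` (`claimA`) and
`len y = len c + len t - p c⁻¹ t ≤ len c + L - 97κ` (`len_mul_eq`, `lenT`).
(B1) `isL w σ`: `rt w = tc c = len c + L - 50κ` (`rt_cell`). If `y ∈ N`: `ct y = 0 < rt w`
(`ct_N`, `rt_pos`). If `isR y τ`: `τ ≠ t` (else `CR (y t⁻¹) t = CR c t`), `isR_other`:
`p y⁻¹ t⁻¹ ≤ 2κ`. If `y` is free (`ct_free`): class 1: `ct y = len y ≤ len c + L - 97κ`, done;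
class 2: `p y⁻¹ t⁻¹ ≤ 4κ`. In the last two cases (`p y⁻¹ t⁻¹ ≤ 4κ`)
`len c = len (y t⁻¹) = len y + len t - p y⁻¹ t⁻¹ ≥ len y + L - 4κ`, so
`ct y ≤ len y + 100κ ≤ len c - L + 104κ < rt w`.
(B2) not `isL w σ`: then `w` is no left child at all (`isL_wL`, `wL_unique`); `rt w ≥ len w` by
`rt_free'` (`w ∉ N`). `CL σ y` is true (`isL_iff`) and `CL σ c` is false. If `D.op.wL y⁻¹ t⁻¹` then
`CL_step` gives `CL σ y ↔ CL σ (y t⁻¹) = CL σ c`, a contradiction; so not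
`len (t⁻¹⁻¹ y⁻¹) < len y⁻¹`, i.e. `len c = len (y t⁻¹) ≥ len y` (`len_inv`). So
`p c⁻¹ t = len c + len t - len y ≥ L`. `c⁻¹ = w⁻¹ σ`: `sc1` with `a = w⁻¹`, `t = σ`, `s = t`
(`w⁻¹ ∉ N`): `p w⁻¹ t ≥ p c⁻¹ t - κ ≥ L - κ`. `len v = len w + len t - p w⁻¹ t ≤ len w + 2κ`,
`len y ≤ len w - L + 104κ`, `ct y ≤ len w - L + 204κ < len w ≤ rt w`.
-/

set_option autoImplicit false

open scoped Classical

namespace Pool.Agent.H79.HT

namespace TD

variable {G : Type*} [Group G] (D : TD G)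

theorem d1L {w t σ : G} (h : D.NR w t) (h1 : D.isL (w * t) σ) :
    D.ct (σ⁻¹ * (w * t)) < D.rt w := by
  have hκ := D.hκ
  have hLL := D.hL
  have hσ : σ ∈ D.Th := (D.isL_iff.1 h1).1
  have k1 := D.isL_len h1
  have k2 := D.ct_upper (σ⁻¹ * (w * t))
  have k3 := D.rt_lower w
  rcases h with hE | ⟨ht, hCR⟩
  · have k4 := D.len_mul w t
    have k5 := D.lenE t hE
    omega
  · have hwN : w ∉ D.N := fun hn => hCR (D.CR_N hn ht)
    have k4 := D.isL_p h1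
    have k5 : D.p (w * t) σ ≤ D.p w σ + D.κ := (D.sc1 w t ht σ hσ (fun h => absurd h hwN)).1
    have hw : D.wL w σ := by
      refine D.wL_of_p hσ ?_
      rw [D.p_comm]
      omega
    have ey : σ⁻¹ * (w * t) = σ⁻¹ * w * t := by rw [mul_assoc]
    have ec : σ⁻¹ * w * t * t⁻¹ = σ⁻¹ * w := mul_inv_cancel_right _ _
    have hCRc : ¬ D.CR (σ⁻¹ * w) t := fun h => hCR ((D.CR_step hw t).2 h)
    have k6 := (D.claimA ht).2 hCRc
    have k7 := D.len_mul_eq (σ⁻¹ * w) t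
    have k8 := D.lenT t ht
    rw [ey] at k1 k2 ⊢
    have k9 := D.len_mul_eq (σ⁻¹ * w * t) t⁻¹
    rw [ec, D.len_inv] at k9
    by_cases hLw : D.isL w σ
    · have k10 := D.rt_cell hLw
      unfold tc at k10
      by_cases hyN : σ⁻¹ * w * t ∈ D.N
      · have k11 := D.ct_N hyN
        have k12 := D.rt_pos hwN
        omega
      · by_cases hyR : ∃ τ, D.isR (σ⁻¹ * w * t) τ
        · obtain ⟨τ, hτ⟩ := hyR
          have hne : τ ≠ t := by
            rintro rfl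
            exact hCRc (D.isR_mul.1 hτ).2
          have k11 := D.isR_other hτ ht hne
          omega
        · push Not at hyR
          rcases D.ct_free hyR hyN with ⟨k11, -⟩ | ⟨k11, k12⟩
          · omega
          · have k13 := k12 t ht
            omega
    · have hfr : ∀ σ', ¬ D.isL w σ' := by
        intro σ' h
        have h2 := D.wL_unique (D.isL_wL h) hw
        rw [h2] at h
        exact hLw h
      have k10 : D.len w ≤ D.rt w := by
        rcases D.rt_free' hfr hwN with ⟨k11, -⟩ | ⟨k11, -⟩ <;> omega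
      have hCLy : D.CL σ (σ⁻¹ * w * t) := by
        have h2 := (D.isL_iff.1 h1).2
        rwa [ey] at h2
      have hCLc : ¬ D.CL σ (σ⁻¹ * w) := fun h => hLw (D.isL_iff.2 ⟨hσ, h⟩)
      have hnw : ¬ D.op.wL (σ⁻¹ * w * t)⁻¹ t⁻¹ := by
        intro h
        have h2 := D.CL_step h σ
        rw [ec] at h2
        exact hCLc (h2.1 hCLy)
      have k11 : D.len (σ⁻¹ * w * t) ≤ D.len (σ⁻¹ * w) := by
        by_contra hcon
        refine hnw ⟨D.inv_mem_op_Th.2 ht, ?_⟩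
        have e : t⁻¹⁻¹ * (σ⁻¹ * w * t)⁻¹ = (σ⁻¹ * w * t * t⁻¹)⁻¹ := by group
        rw [e, ec, op_len, op_len, D.len_inv, D.len_inv]
        omega
      have hwN' : w⁻¹ ∉ D.N := fun h => hwN (D.N.inv_mem_iff.1 h)
      have k12 : D.p (w⁻¹ * σ) t ≤ D.p w⁻¹ t + D.κ :=
        (D.sc1 w⁻¹ σ hσ t ht (fun h => absurd h hwN')).1
      have e : (σ⁻¹ * w)⁻¹ = w⁻¹ * σ := by group
      rw [e] at k7
      have k13 := D.len_mul_eq w t
      omega

end TD

end Pool.Agent.H79.HT
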