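import Pool.Agent.H79.HT.Time
import Pool.Agent.H79.HT.Leaf

/-!
# Module DTWO [H79 HT]: the rows `s c`, `s` a non-child type of the cell `c`, are earlier than `c`

PROOF. `z = s c`, `tc c = len c + L - 50κ`.
`s ∈ E`: `rt z ≤ len z + 100κ ≤ len c + 101κ < tc c` (`rt_upper`).
`s ∈ Th`, not `CL s c`: `CL s c` is `D.op.CR c⁻¹ s⁻¹`; `D.op.claimA` gives `98κ ≤ p c s⁻¹`
(`c⁻¹⁻¹ = c`), i.e. `98κ ≤ p s⁻¹ c`, and `len z = len s + len c - p s⁻¹ c ≤ len c + L - 97κ` (`pe s⁻¹ c`,
`inv_inv`). `z ∈ N`: `rt z = 0 < tc c`. `z` free (`rt_free'`): class 1: `rt z = len z`, done; class 2: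
`p z s ≤ 4κ`. `z` a cell row, `isL z σ`: `σ ≠ s` (otherwise `CL s (s⁻¹ z) = CL s c` by `isL_iff`), so
`p z s ≤ 2κ` (`isL_other`). In the last two cases `len c = len (s⁻¹ z) = len s + len z - p s z ≥
len z + L - 4κ`, `rt z ≤ len z + 100κ ≤ len c - L + 104κ < tc c`.
-/

set_option autoImplicit false

open scoped Classical

namespace Pool.Agent.H79.HT

namespace TD

variable {G : Type*} [Group G] (D : TD G)

theorem d2 {c s : G} (h : D.NL c s) : D.rt (s * c) < D.tc c := by
  have hκ := D.hκ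
  have hL := D.hL
  have hc0 := D.len_nonneg c
  unfold tc
  rcases D.NL_iff.1 h with hE | ⟨hTh, hnC⟩
  · have h1 := D.rt_upper (s * c)
    have h2 := D.len_mul s c
    have h3 := D.lenE s hE
    omega
  · have h98 := (D.op.claimA (D.inv_mem_op_Th.2 hTh)).2 hnC
    rw [inv_inv, op_p, op_κ, D.p_comm] at h98
    have hlen := D.len_mul_eq s c
    have hT := D.lenT s hTh
    by_cases hN : s * c ∈ D.N
    · rw [D.rt_N hN]
      omega
    · have hinv : s⁻¹ * (s * c) = c := by group
      have hback := D.len_inv_mul_eq s (s * c)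
      rw [hinv] at hback
      have hup := D.rt_upper (s * c)
      have key : D.p (s * c) s ≤ 4 * D.κ → D.rt (s * c) < D.len c + D.L - 50 * D.κ := by
        intro h4
        rw [D.p_comm] at h4
        omega
      by_cases hcell : ∃ σ, D.isL (s * c) σ
      · obtain ⟨σ, hσ⟩ := hcell
        have hne : σ ≠ s := by
          rintro rfl
          have h5 := (D.isL_iff.1 hσ).2
          rw [hinv] at h5
          exact hnC h5
        have h6 := D.isL_other hσ hTh hne
        exact key (by omega)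
      · have hfree : ∀ σ, ¬ D.isL (s * c) σ := fun σ hσ => hcell ⟨σ, hσ⟩
        rcases D.rt_free' hfree hN with ⟨h7, -⟩ | ⟨-, h7⟩
        · rw [h7]
          omega
        · exact key (h7 s hTh)

end TD

end Pool.Agent.H79.HT
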