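import Pool.Agent.H79.FP.Defs

/-!
# Module DEFS [H79 HT]: two-sided tiles in groups with a hyperbolic length function

Everything in this file is complete.  `TD` collects a length function on a group `G` whose
(doubled) Gromov product `gp` satisfies the four point inequality with the error `κ`, a subgroup
`N` of elements that do not change lengths, the given finite set `E` and the finite set `Th` of
long elements with small cancellation (`sc1`, `sc2`), which commute with `N`.  `T = E ∪ Th`.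
The aim is a set `X` such that for every `z` there is exactly one `t ∈ T` with `z t ∈ X` and
exactly one `t ∈ T` with `t z ∈ X`.

The row of `z` is `{z t : t ∈ T}`, the column of `y` is `{t y : t ∈ T}`.

`D.op` replaces `E`, `Th` by `E⁻¹`, `Th⁻¹`.  Left-hand notions for `D` are right-hand notions of
`D.op` at the inverse elements (`CL`, `isL`, `NL`, `ct`).
-/

set_option autoImplicit false

open scoped Classical

namespace Pool.Agent.H79.HT

/-- Twice the Gromov product at `1`. -/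
def gp {G : Type*} [Group G] (len : G → ℤ) (x y : G) : ℤ := len x + len y - len (x⁻¹ * y)

/-- The data of the tile theorem. -/
structure TD (G : Type*) [Group G] where
  len : G → ℤ
  κ : ℤ
  L : ℤ
  N : Subgroup G
  E : Finset G
  Th : Finset G
  hκ : 1 ≤ κ
  hL : 1000 * κ ≤ L
  len_one : len 1 = 0
  len_inv : ∀ x, len x⁻¹ = len x
  len_mul : ∀ x y, len (x * y) ≤ len x + len y
  hyp : ∀ x y z, gp len x y ≤ gp len x z + κ ∨ gp len y z ≤ gp len x z + κ
  lenN : ∀ n ∈ N, ∀ x, len (n * x) = len x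
  comm : ∀ n ∈ N, ∀ t ∈ Th, n * t = t * n
  oneE : (1 : G) ∈ E
  lenE : ∀ e ∈ E, 2 * len e ≤ κ
  lenT : ∀ t ∈ Th, L ≤ len t ∧ len t ≤ L + κ
  sc1 : ∀ a : G, ∀ t ∈ Th, ∀ s ∈ Th, (a ∈ N → s ≠ t) →
    gp len (a * t) s ≤ gp len a s + κ ∧ gp len a s ≤ gp len (a * t) s + κ
  sc2 : ∀ a : G, ∀ t ∈ Th, ∀ s ∈ Th, (s * a ∈ N → s ≠ t) →
    gp len (a * t) s⁻¹ ≤ gp len a s⁻¹ + κ ∧ gp len a s⁻¹ ≤ gp len (a * t) s⁻¹ + κ
  card : 10 * E.card ^ 2 ≤ Th.card

theorem mem_map_inv {G : Type*} [Group G] {E : Finset G} {x : G} :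
    x ∈ E.map (Equiv.inv G).toEmbedding ↔ x⁻¹ ∈ E := FP.mem_map_inv

namespace TD

variable {G : Type*} [Group G] (D : TD G)

/-- Twice the Gromov product. -/
def p (x y : G) : ℤ := gp D.len x y

/-- The dual data. -/
def op : TD G where
  len := D.len
  κ := D.κ
  L := D.L
  N := D.N
  E := D.E.map (Equiv.inv G).toEmbedding
  Th := D.Th.map (Equiv.inv G).toEmbedding
  hκ := D.hκ
  hL := D.hL
  len_one := D.len_one
  len_inv := D.len_inv
  len_mul := D.len_mul
  hyp := D.hyp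
  lenN := D.lenN
  comm := by
    intro n hn t ht
    have h := D.comm n⁻¹ (D.N.inv_mem hn) _ (mem_map_inv.1 ht)
    have h1 := congrArg (·⁻¹) h
    simpa using h1.symm
  oneE := by
    rw [mem_map_inv, inv_one]
    exact D.oneE
  lenE := by
    intro e he
    rw [← D.len_inv]
    exact D.lenE _ (mem_map_inv.1 he)
  lenT := by
    intro e he
    rw [← D.len_inv]
    exact D.lenT _ (mem_map_inv.1 he)
  sc1 := by
    intro a t ht s hs h
    have ht' := mem_map_inv.1 ht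
    have hs' := mem_map_inv.1 hs
    have h1 := D.sc2 (a * t) t⁻¹ ht' s⁻¹ hs' (by
      intro h2 h3
      have h4 : s = t := inv_injective h3
      subst h4
      refine h ?_ rfl
      have h5 := D.comm _ h2 _ hs'
      have h6 : s⁻¹ * (a * s) * s⁻¹ = s⁻¹ * a := by group
      rw [h6] at h5
      have h7 : a = s⁻¹ * (a * s) := mul_left_cancel h5
      rw [h7]
      exact h2)
    rw [inv_inv, mul_inv_cancel_right] at h1
    exact ⟨h1.2, h1.1⟩
  sc2 := by
    intro a t ht s hs h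
    have ht' := mem_map_inv.1 ht
    have hs' := mem_map_inv.1 hs
    have h1 := D.sc1 (a * t) t⁻¹ ht' s⁻¹ hs' (by
      intro h2 h3
      have h4 : s = t := inv_injective h3
      subst h4
      refine h ?_ rfl
      have h5 := D.comm _ h2 _ hs'
      have h6 : a * s * s⁻¹ = a := by group
      rw [h6] at h5
      have h7 : s * a = a * s := by
        conv_lhs => rw [h5]
        rw [mul_inv_cancel_left]
      rw [h7]
      exact h2)
    rw [mul_inv_cancel_right] at h1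
    exact ⟨h1.2, h1.1⟩
  card := by
    rw [Finset.card_map, Finset.card_map]
    exact D.card

theorem mem_op_E {x : G} : x ∈ D.op.E ↔ x⁻¹ ∈ D.E := mem_map_inv

theorem mem_op_Th {x : G} : x ∈ D.op.Th ↔ x⁻¹ ∈ D.Th := mem_map_inv

theorem inv_mem_op_E {x : G} : x⁻¹ ∈ D.op.E ↔ x ∈ D.E := by
  rw [mem_op_E, inv_inv]

theorem inv_mem_op_Th {x : G} : x⁻¹ ∈ D.op.Th ↔ x ∈ D.Th := by
  rw [mem_op_Th, inv_inv]

theorem op_op : D.op.op = D := by
  have h : ∀ E : Finset G,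
      (E.map (Equiv.inv G).toEmbedding).map (Equiv.inv G).toEmbedding = E := by
    intro E
    ext x
    rw [mem_map_inv, mem_map_inv, inv_inv]
  cases D
  simp only [op, h]

/-- The tile (inverted): `T = E ∪ Th`. -/
noncomputable def T : Finset G := D.E ∪ D.Th

theorem mem_T {t : G} : t ∈ D.T ↔ t ∈ D.E ∨ t ∈ D.Th := by
  simp [T]

theorem inv_mem_op_T {t : G} : t⁻¹ ∈ D.op.T ↔ t ∈ D.T := by
  rw [mem_T, mem_T, inv_mem_op_E, inv_mem_op_Th]

/-! ### The Gromov product -/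

theorem pe (x y : G) : D.len (x⁻¹ * y) = D.len x + D.len y - D.p x y := by
  unfold p gp
  ring

theorem p_comm (x y : G) : D.p x y = D.p y x := by
  have h : D.len (x⁻¹ * y) = D.len (y⁻¹ * x) := by
    rw [← D.len_inv (x⁻¹ * y)]
    simp
  have h1 := D.pe x y
  have h2 := D.pe y x
  omega

theorem len_nonneg (x : G) : 0 ≤ D.len x := by
  have h := D.len_mul x x⁻¹
  rw [mul_inv_cancel, D.len_one, D.len_inv] at h
  omega

theorem p_nonneg (x y : G) : 0 ≤ D.p x y := by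
  have h := D.len_mul x⁻¹ y
  rw [D.len_inv] at h
  have h1 := D.pe x y
  omega

theorem p_le_left (x y : G) : D.p x y ≤ 2 * D.len x := by
  have h := D.len_mul x (x⁻¹ * y)
  rw [mul_inv_cancel_left] at h
  have h1 := D.pe x y
  omega

theorem p_le_right (x y : G) : D.p x y ≤ 2 * D.len y := by
  rw [D.p_comm]
  exact D.p_le_left y x

theorem p_self (x : G) : D.p x x = 2 * D.len x := by
  have h := D.pe x x
  rw [inv_mul_cancel, D.len_one] at h
  omega

theorem p_one_left (y : G) : D.p 1 y = 0 := by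
  have h := D.pe 1 y
  rw [inv_one, one_mul, D.len_one] at h
  omega

/-- The four point inequality. -/
theorem p_hyp {m : ℤ} {x y z : G} (h1 : m ≤ D.p x y) (h2 : m ≤ D.p y z) :
    m ≤ D.p x z + D.κ := by
  rcases D.hyp x y z with h | h
  · exact h1.trans h
  · exact h2.trans h

/-- `p` changes by at most `2 len a` if one argument is multiplied by `a` on the right. -/
theorem p_mul_right (x y a : G) :
    D.p (x * a) y ≤ D.p x y + 2 * D.len a ∧ D.p x y ≤ D.p (x * a) y + 2 * D.len a := by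
  have h1 := D.pe x y
  have h2 := D.pe (x * a) y
  have h3 := D.len_mul x a
  have h4 := D.len_mul (x * a) a⁻¹
  have h5 := D.len_mul a⁻¹ (x⁻¹ * y)
  have h6 := D.len_mul a ((x * a)⁻¹ * y)
  have e1 : x * a * a⁻¹ = x := by group
  have e2 : a⁻¹ * (x⁻¹ * y) = (x * a)⁻¹ * y := by group
  have e3 : a * ((x * a)⁻¹ * y) = x⁻¹ * y := by group
  rw [e1, D.len_inv] at h4
  rw [e2, D.len_inv] at h5
  rw [e3] at h6
  constructor <;> omega

/-- The length of `x t`, in terms of `p x⁻¹ t`. -/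
theorem len_mul_eq (x t : G) : D.len (x * t) = D.len x + D.len t - D.p x⁻¹ t := by
  have h := D.pe x⁻¹ t
  rw [inv_inv, D.len_inv] at h
  exact h

/-- The length of `t⁻¹ x`, in terms of `p t x`. -/
theorem len_inv_mul_eq (t x : G) : D.len (t⁻¹ * x) = D.len t + D.len x - D.p t x := D.pe t x

theorem len_N {n : G} (hn : n ∈ D.N) : D.len n = 0 := by
  have h := D.lenN n hn 1
  rw [mul_one, D.len_one] at h
  exact h

theorem len_mul_N {n : G} (hn : n ∈ D.N) (x : G) : D.len (x * n) = D.len x := by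
  have h := D.lenN n⁻¹ (D.N.inv_mem hn) x⁻¹
  rw [← mul_inv_rev, D.len_inv, D.len_inv] at h
  exact h

/-! ### Weak ends, terminal elements and children -/

/-- `z` begins (weakly) with `σ ∈ Th`. -/
def wL (z σ : G) : Prop := σ ∈ D.Th ∧ D.len (σ⁻¹ * z) < D.len z

/-- Strip weak left ends as long as possible. -/
noncomputable def term (z : G) : G :=
  if h : ∃ σ, D.wL z σ then term (h.choose⁻¹ * z) else z
termination_by (D.len z).toNat
decreasing_by
  have h1 := h.choose_spec.2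
  have h2 := D.len_nonneg (h.choose⁻¹ * z)
  omega

/-- `z τ` is a (right) child of the row `z`, of type `τ`. -/
def CR (z τ : G) : Prop := D.p (D.term z)⁻¹ τ ≤ 100 * D.κ

/-- `σ y` is a (left) child of the column `y`, of type `σ`. -/
def CL (σ y : G) : Prop := D.op.CR y⁻¹ σ⁻¹

/-- `v` is a right child of type `τ` (of the row `v τ⁻¹`). -/
def isR (v τ : G) : Prop := τ ∈ D.Th ∧ D.CR (v * τ⁻¹) τ

/-- `v` is a left child of type `σ` (of the column `σ⁻¹ v`). -/
def isL (v σ : G) : Prop := D.op.isR v⁻¹ σ⁻¹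

/-- `t ∈ T` and `w t` is not a right child of the row `w`. -/
def NR (w t : G) : Prop := t ∈ D.E ∨ (t ∈ D.Th ∧ ¬ D.CR w t)

/-- `t ∈ T` and `t w` is not a left child of the column `w`. -/
def NL (w t : G) : Prop := D.op.NR w⁻¹ t⁻¹

/-! ### Times -/

/-- The time of the cell `c`. -/
def tc (c : G) : ℤ := D.len c + D.L - 50 * D.κ

/-- The time of a free row `z`. -/
noncomputable def tR (z : G) : ℤ :=
  if z ∈ D.N then 0
  else if ∃ t ∈ D.Th, 4 * D.κ < D.p t z then D.len z else D.len z + 100 * D.κ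

/-- The time of the row `z`. -/
noncomputable def rt (z : G) : ℤ :=
  if h : ∃ σ, D.isL z σ then D.tc (h.choose⁻¹ * z) else D.tR z

/-- The time of the column `y`. -/
noncomputable def ct (y : G) : ℤ := D.op.rt y⁻¹

/-! ### Admissible sets -/

/-- `g = t₂⁻¹ t₁` where `t₂ ∈ E` and `t₁` is a non-child of the row `y t₂⁻¹`. -/
def Gm (y g : G) : Prop := ∃ t₂ ∈ D.E, ∃ t₁, D.NR (y * t₂⁻¹) t₁ ∧ g = t₂⁻¹ * t₁

/-- `n ∈ N`, `n ≠ 1`, `n ∈ E⁻¹ E`. -/
def NE (n : G) : Prop := n ∈ D.N ∧ n ≠ 1 ∧ ∃ e ∈ D.E, ∃ f ∈ D.E, n = e⁻¹ * f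

/-- One half (the rows) of admissibility. -/
structure Adm (X : Set G) : Prop where
  child : ∀ v ∈ X, (∃ τ, D.isR v τ) ∨ (∃ σ, D.isL v σ)
  a2 : ∀ v ∈ X, ∀ σ, D.isL v σ → (∀ τ, ¬ D.isR v τ) → ∀ g, D.Gm (σ⁻¹ * v) g → D.isL (v * g) σ
  a3 : ∀ v ∈ X, ∀ σ, D.isL v σ → (∀ τ, ¬ D.isR v τ) → ∀ g, D.Gm (σ⁻¹ * v) g → g ≠ 1 →
    v * g ∉ X
  a3n : ∀ v ∈ X, ∀ n, D.NE n → v * n ∉ X

/-- The inverse of a set. -/
def iv (X : Set G) : Set G := {x | x⁻¹ ∈ X}

/-- One half (the rows) of the invariant of the recursion. -/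
structure InvR (n : ℤ) (X : Set G) : Prop where
  adm : D.Adm X
  timeR : ∀ v ∈ X, ∀ τ, D.isR v τ → D.rt (v * τ⁻¹) < n
  timeL : ∀ v ∈ X, ∀ σ, D.isL v σ → D.ct (σ⁻¹ * v) < n
  ex : ∀ w, D.rt w < n → ∃ t ∈ D.T, w * t ∈ X
  un : ∀ w, ∀ t₁ ∈ D.T, ∀ t₂ ∈ D.T, w * t₁ ∈ X → w * t₂ ∈ X → t₁ = t₂

/-- The invariant of the recursion. -/
def Inv (n : ℤ) (X : Set G) : Prop := D.InvR n X ∧ D.op.InvR n (iv X)

/-- The column `y` is free, not in `N`, has the time `n` and does not meet `X`. -/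
def FL (n : ℤ) (X : Set G) (y : G) : Prop :=
  D.ct y = n ∧ y ∉ D.N ∧ (∀ τ, ¬ D.isR y τ) ∧ ∀ t ∈ D.T, t * y ∉ X

/-- The conditions for the choice `g` of the free columns of time `n`. -/
structure FC (n : ℤ) (X : Set G) (g : G → G) : Prop where
  mem : ∀ y, D.FL n X y → g y ∈ D.Th
  child : ∀ y, D.FL n X y → ∀ c, D.Gm y c → D.CL (g y) (y * c)
  old : ∀ y, D.FL n X y → ∀ c, D.Gm y c → c ≠ 1 → g y * y * c ∉ X
  old' : ∀ y, D.FL n X y → ∀ b ∈ D.Th, ∀ t ∈ D.E, 4 * D.κ < D.p y⁻¹ b⁻¹ →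
    g y * y * b⁻¹ * t ∉ X
  new : ∀ y y', D.FL n X y → D.FL n X y' → ∀ c, D.Gm y c → c ≠ 1 → y' = y * c → g y ≠ g y'
  newN : ∀ y, D.FL n X y → ∀ n', D.op.NE n' → D.FL n X (n' * y) → g y ≠ g (n' * y)

/-- `σ ∈ Th`, `σ c` is a child of `c` and the row of `σ c` does not meet `X`. -/
def UL (X : Set G) (c σ : G) : Prop := σ ∈ D.Th ∧ D.CL σ c ∧ ∀ t ∈ D.T, σ * c * t ∉ X

/-- The conditions for the matchings `M c` in the cells of time `n`. -/
structure MC (n : ℤ) (X : Set G) (M : G → G → G → Prop) : Prop where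
  sub : ∀ c, D.tc c = n → ∀ σ τ, M c σ τ → D.UL X c σ ∧ D.op.UL (iv X) c⁻¹ τ⁻¹
  row : ∀ c, D.tc c = n → ∀ σ, D.UL X c σ → ∃! τ, M c σ τ
  col : ∀ c, D.tc c = n → ∀ τ, D.op.UL (iv X) c⁻¹ τ⁻¹ → ∃! σ, M c σ τ
  nr : ∀ c, D.tc c = n → ∀ n', D.NE n' → ∀ σ τ, M c σ τ → ¬ M (c * n') σ τ
  nl : ∀ c, D.tc c = n → ∀ n', D.op.NE n' → ∀ σ τ, M c σ τ → ¬ M (n' * c) σ τ

/-- The set after the step. -/
def New (n : ℤ) (X : Set G) (g f : G → G) (M : G → G → G → Prop) : Set G :=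
  {v | v ∈ X ∨ (∃ y, D.FL n X y ∧ v = g y * y) ∨
    (∃ z, D.op.FL n (iv X) z ∧ v⁻¹ = f z * z) ∨
    (∃ c σ τ, D.tc c = n ∧ M c σ τ ∧ v = σ * c * τ)}

end TD

end Pool.Agent.H79.HT
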