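import Pool.Agent.H79.HT.Op

/-!
# Module ENDS [H79 HT]: products of elements of `Th`, weak left ends

PROOFS. All from `sc1`, `sc2` with `a = 1` (`1 ∈ N`) or `a = τ⁻¹`, and `p_one_left`.
`p_Th`: `sc1 1 σ τ`: condition `τ ≠ σ`; `gp (1*σ) τ ≤ gp 1 τ + κ`, `p 1 τ = 0`. `p_Th_inv`: `sc2` with
`a = 1`, `t = σ`, `s = τ`: the condition is `τ * 1 ∈ N → τ ≠ σ`; `τ ∉ N` since `len τ ≥ L > 0`
(`len_N`, `lenT`, `hL`, `hκ`). `p_inv_Th`: `p_comm`. `p_inv_inv`: `sc2` with `a = τ'⁻¹`, `t = τ'`, `s = τ`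
(`a * t = 1`; the condition `τ ≠ τ'` holds), so `p τ'⁻¹ τ⁻¹ ≤ p 1 τ⁻¹ + κ`.
`wL_p`: `len (σ⁻¹ z) = len σ + len z - p σ z < len z`, `L ≤ len σ`. `wL_of_p`: the same formula,
`len σ ≤ L + κ`. `wL_unique`: if `σ ≠ σ'` then `L ≤ p σ z`, `L ≤ p z σ'` (`p_comm`), so by `p_hyp`
`L ≤ p σ σ' + κ ≤ 2κ`, a contradiction. `wL_not_N`: `len z = 0` for `z ∈ N`.
(`p` unfolds to `gp D.len`: `show` or `unfold p`.)
-/

set_option autoImplicit false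

open scoped Classical

namespace Pool.Agent.H79.HT

namespace TD

variable {G : Type*} [Group G] (D : TD G)

theorem Th_not_N {τ : G} (hτ : τ ∈ D.Th) : τ ∉ D.N := by
  intro h
  have h1 := D.len_N h
  have h2 := D.lenT τ hτ
  have h3 := D.hL
  have h4 := D.hκ
  omega

theorem p_Th {σ τ : G} (hσ : σ ∈ D.Th) (hτ : τ ∈ D.Th) (h : σ ≠ τ) : D.p σ τ ≤ D.κ := by
  have h1 := (D.sc1 1 σ hσ τ hτ (fun _ h2 => h h2.symm)).1
  rw [one_mul] at h1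
  have h2 := D.p_one_left τ
  unfold p at h2 ⊢
  omega

theorem p_Th_inv {σ τ : G} (hσ : σ ∈ D.Th) (hτ : τ ∈ D.Th) : D.p σ τ⁻¹ ≤ D.κ := by
  have h1 := (D.sc2 1 σ hσ τ hτ (fun h2 => by
    rw [mul_one] at h2
    exact absurd h2 (D.Th_not_N hτ))).1
  rw [one_mul] at h1
  have h2 := D.p_one_left τ⁻¹
  unfold p at h2 ⊢
  omega

theorem p_inv_Th {σ τ : G} (hσ : σ ∈ D.Th) (hτ : τ ∈ D.Th) : D.p σ⁻¹ τ ≤ D.κ := by
  rw [D.p_comm]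
  exact D.p_Th_inv hτ hσ

theorem p_inv_inv {σ τ : G} (hσ : σ ∈ D.Th) (hτ : τ ∈ D.Th) (h : σ ≠ τ) :
    D.p σ⁻¹ τ⁻¹ ≤ D.κ := by
  have h1 := (D.sc2 σ⁻¹ σ hσ τ hτ (fun _ h2 => h h2.symm)).2
  rw [inv_mul_cancel] at h1
  have h2 := D.p_one_left τ⁻¹
  unfold p at h2 ⊢
  omega

theorem wL_p {z σ : G} (h : D.wL z σ) : D.L < D.p σ z := by
  have h1 := D.len_inv_mul_eq σ z
  have h2 := h.2
  have h3 := D.lenT σ h.1
  omega

theorem wL_of_p {z σ : G} (hσ : σ ∈ D.Th) (h : D.L + D.κ < D.p σ z) : D.wL z σ := by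
  refine ⟨hσ, ?_⟩
  have h1 := D.len_inv_mul_eq σ z
  have h3 := D.lenT σ hσ
  omega

theorem wL_unique {z σ σ' : G} (h : D.wL z σ) (h' : D.wL z σ') : σ = σ' := by
  by_contra hne
  have h1 := D.wL_p h
  have h2 := D.wL_p h'
  rw [D.p_comm] at h2
  have h3 := D.p_hyp h1.le h2.le
  have h4 := D.p_Th h.1 h'.1 hne
  have h5 := D.hL
  have h6 := D.hκ
  omega

theorem wL_not_N {z σ : G} (h : D.wL z σ) : z ∉ D.N := by
  intro hN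
  have h1 := D.len_N hN
  have h2 := h.2
  have h3 := D.len_nonneg (σ⁻¹ * z)
  omega

end TD

end Pool.Agent.H79.HT
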