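import Pool.Agent.H79.HT.Term

/-!
# Module NINVA [H79 HT]: multiplication by elements of `N`, weak ends and children

PROOFS. `wL_mulN`: `len (σ⁻¹ (z n)) = len (σ⁻¹ z)` and `len (z n) = len z` (`len_mul_N`).
`wL_Nmul`: `len (n z) = len z` (`lenN`); `σ⁻¹ n = n σ⁻¹` (from `comm` for `n` and `σ`), so
`len (σ⁻¹ (n z)) = len (n (σ⁻¹ z)) = len (σ⁻¹ z)`. `term_mulN`: strong induction on `(len z).toNat`:
if `z` has a weak left end `σ`, so has `z n`, and `term (z n) = term (σ⁻¹ (z n)) = term (σ⁻¹ z n)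
= term (σ⁻¹ z) n = term z n` (`term_step`); otherwise both are terminal (`term_eq`). `term_Nmul`: the
same with `σ⁻¹ n z = n σ⁻¹ z`.
`CR_mulN`: `p (z₀ n)⁻¹ τ = p (n⁻¹ z₀⁻¹) τ`, `z₀ = term z`: `pe`: `len (z₀ n τ) = ...`, `z₀ n τ = z₀ τ n`,
so `len (z₀ n τ) = len (z₀ τ)`, and `len (z₀ n) = len z₀`; use `len_mul_eq` for `z₀ n`, `τ` and for
`z₀`, `τ`. `CR_Nmul`: `len (n z₀ τ) = len (z₀ τ)` in the same way.
`isR_mulN`: `v n τ⁻¹ = v τ⁻¹ n`. `isR_Nmul`: `n v τ⁻¹ = n (v τ⁻¹)`.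
-/

set_option autoImplicit false

open scoped Classical

namespace Pool.Agent.H79.HT

namespace TD

variable {G : Type*} [Group G] (D : TD G)

theorem inv_comm {t n : G} (hn : n ∈ D.N) (ht : t ∈ D.Th) : t⁻¹ * n = n * t⁻¹ := by
  have h1 := D.comm n hn t ht
  rw [inv_mul_eq_iff_eq_mul, ← mul_assoc, ← h1, mul_inv_cancel_right]

theorem wL_mulN {z σ n : G} (hn : n ∈ D.N) : D.wL (z * n) σ ↔ D.wL z σ := by
  unfold wL
  rw [← mul_assoc, D.len_mul_N hn, D.len_mul_N hn]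

theorem wL_Nmul {z σ n : G} (hn : n ∈ D.N) : D.wL (n * z) σ ↔ D.wL z σ := by
  unfold wL
  refine and_congr_right fun hσ => ?_
  rw [← mul_assoc, D.inv_comm hn hσ, mul_assoc, D.lenN n hn, D.lenN n hn]

theorem term_mulN {z n : G} (hn : n ∈ D.N) : D.term (z * n) = D.term z * n := by
  obtain ⟨m, hm⟩ : ∃ m : ℕ, (D.len z).toNat = m := ⟨_, rfl⟩
  induction m using Nat.strong_induction_on generalizing z with
  | _ m ih =>
    by_cases h0 : ∀ σ, ¬ D.wL z σ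
    · rw [D.term_eq h0, D.term_eq fun σ hσ => h0 σ ((D.wL_mulN hn).1 hσ)]
    push Not at h0
    obtain ⟨σ, hσ⟩ := h0
    have hlt := hσ.2
    have hnn := D.len_nonneg (σ⁻¹ * z)
    rw [D.term_step hσ, D.term_step ((D.wL_mulN hn).2 hσ), ← mul_assoc]
    exact ih (D.len (σ⁻¹ * z)).toNat (by omega) rfl

theorem term_Nmul {z n : G} (hn : n ∈ D.N) : D.term (n * z) = n * D.term z := by
  obtain ⟨m, hm⟩ : ∃ m : ℕ, (D.len z).toNat = m := ⟨_, rfl⟩
  induction m using Nat.strong_induction_on generalizing z with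
  | _ m ih =>
    by_cases h0 : ∀ σ, ¬ D.wL z σ
    · rw [D.term_eq h0, D.term_eq fun σ hσ => h0 σ ((D.wL_Nmul hn).1 hσ)]
    push Not at h0
    obtain ⟨σ, hσ⟩ := h0
    have hlt := hσ.2
    have hnn := D.len_nonneg (σ⁻¹ * z)
    rw [D.term_step hσ, D.term_step ((D.wL_Nmul hn).2 hσ), ← mul_assoc, D.inv_comm hn hσ.1,
      mul_assoc]
    exact ih (D.len (σ⁻¹ * z)).toNat (by omega) rfl

theorem CR_mulN {z τ n : G} (hn : n ∈ D.N) (hτ : τ ∈ D.Th) : D.CR (z * n) τ ↔ D.CR z τ := by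
  unfold CR
  rw [D.term_mulN hn]
  have h1 := D.len_mul_eq (D.term z * n) τ
  have h2 := D.len_mul_eq (D.term z) τ
  rw [mul_assoc, D.comm n hn τ hτ, ← mul_assoc, D.len_mul_N hn, D.len_mul_N hn] at h1
  have h3 : D.p (D.term z * n)⁻¹ τ = D.p (D.term z)⁻¹ τ := by omega
  rw [h3]

theorem CR_Nmul {z τ n : G} (hn : n ∈ D.N) (hτ : τ ∈ D.Th) : D.CR (n * z) τ ↔ D.CR z τ := by
  unfold CR
  rw [D.term_Nmul hn]
  have h1 := D.len_mul_eq (n * D.term z) τ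
  have h2 := D.len_mul_eq (D.term z) τ
  rw [mul_assoc, D.lenN n hn, D.lenN n hn] at h1
  have h3 : D.p (n * D.term z)⁻¹ τ = D.p (D.term z)⁻¹ τ := by omega
  rw [h3]

theorem isR_mulN {v τ n : G} (hn : n ∈ D.N) : D.isR (v * n) τ ↔ D.isR v τ := by
  unfold isR
  refine and_congr_right fun hτ => ?_
  rw [mul_assoc, ← D.inv_comm hn hτ, ← mul_assoc]
  exact D.CR_mulN hn hτ

theorem isR_Nmul {v τ n : G} (hn : n ∈ D.N) : D.isR (n * v) τ ↔ D.isR v τ := by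
  unfold isR
  refine and_congr_right fun hτ => ?_
  rw [mul_assoc]
  exact D.CR_Nmul hn hτ

theorem isL_mulN {v σ n : G} (hn : n ∈ D.N) : D.isL (v * n) σ ↔ D.isL v σ := by
  unfold isL
  rw [mul_inv_rev]
  exact D.op.isR_Nmul (D.N.inv_mem hn)

theorem isL_Nmul {v σ n : G} (hn : n ∈ D.N) : D.isL (n * v) σ ↔ D.isL v σ := by
  unfold isL
  rw [mul_inv_rev]
  exact D.op.isR_mulN (D.N.inv_mem hn)

end TD

end Pool.Agent.H79.HT
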