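import Pool.Agent.H79.HT.Ctx
import Pool.Agent.H79.HT.GmCard

/-!
# Module NEWK [H79 HT]: the kinds of the new elements

PROOFS. `new_col`: `CL (g y) y` by `child` with `c = 1` (`Gm_one`); `isL_mul`. If `isR (g y * y) τ` then
`square` (with `σ = g y`, `σ⁻¹ v = y`): either `y ∈ N` or `isR y τ`; both excluded by `FL`.
`(g y)⁻¹ (g y y) = y`.
`new_row` is the mirror image (`C.op.new_col`; done below).
`new_cell`: `sub` gives `σ ∈ Th`, `CL σ c`, so `isL (σ c) σ` (`isL_mul`), and (`op_UL`) `τ ∈ Th`,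
`CR c τ`, `isR (c τ) τ` (`isR_mul`); `square'`; `rt (σ c) = tc (σ⁻¹ (σ c)) = tc c` (`rt_cell`),
`ct (c τ) = tc (c τ τ⁻¹) = tc c` (`ct_cell`).
`left_only`: if `isR (σ⁻¹ v) τ` then `isR_of_col` gives `isR v τ` (`v = σ (σ⁻¹ v)`); if
`y = σ⁻¹ v ∈ N` then `v = σ y = y σ` (`comm`), and `isR (y σ) σ` by `CR_N`, `isR_mul`.
-/

set_option autoImplicit false

open scoped Classical

namespace Pool.Agent.H79.HT

namespace TD

variable {G : Type*} [Group G] (D : TD G)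

/-- A left child `v` of type `σ` that is not a right child: its column is free and not in `N`. -/
theorem left_only {v σ : G} (hL : D.isL v σ) (hR : ∀ τ, ¬ D.isR v τ) :
    (∀ τ, ¬ D.isR (σ⁻¹ * v) τ) ∧ σ⁻¹ * v ∉ D.N := by
  have h0 : σ * (σ⁻¹ * v) = v := by group
  constructor
  · intro τ hτ
    have h1 := D.isR_of_col hτ (σ := σ) (by rw [h0]; exact hL)
    rw [h0] at h1
    exact hR τ h1
  · intro hN
    have hσ := (D.isL_iff.1 hL).1
    have h1 := D.comm _ hN _ hσ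
    rw [h0] at h1
    have h2 : D.isR (σ⁻¹ * v * σ) σ := D.isR_mul.2 ⟨hσ, D.CR_N hN hσ⟩
    rw [h1] at h2
    exact hR σ h2

variable {D} {n : ℤ} {X : Set G} {g f : G → G} {M : G → G → G → Prop}

theorem Ctx.new_col (C : D.Ctx n X g f M) {y : G} (hy : D.FL n X y) :
    D.isL (g y * y) (g y) ∧ (∀ τ, ¬ D.isR (g y * y) τ) ∧ D.ct ((g y)⁻¹ * (g y * y)) = n := by
  have h1 : D.isL (g y * y) (g y) := by
    refine D.isL_mul.2 ⟨C.hg.mem y hy, ?_⟩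
    have h2 := C.hg.child y hy 1 (D.Gm_one y)
    rwa [mul_one] at h2
  refine ⟨h1, ?_, ?_⟩
  · intro τ hτ
    rcases D.square h1 hτ with ⟨_, h2, _⟩ | ⟨_, h2⟩
    · rw [inv_mul_cancel_left] at h2
      exact hy.2.1 h2
    · rw [inv_mul_cancel_left] at h2
      exact hy.2.2.1 τ h2
  · rw [inv_mul_cancel_left]
    exact hy.1

theorem Ctx.new_row (C : D.Ctx n X g f M) {z v : G} (hz : D.op.FL n (iv X) z)
    (hv : v⁻¹ = f z * z) : D.isR v (f z)⁻¹ ∧ (∀ σ, ¬ D.isL v σ) ∧ D.rt (v * f z) = n := by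
  obtain ⟨h1, h2, h3⟩ := C.op.new_col hz
  rw [← hv] at h1 h2 h3
  have h0 := D.op_isL_iff.1 h1
  rw [inv_inv] at h0
  refine ⟨h0, D.op_forall_not_isR.1 h2, ?_⟩
  have h4 : (f z)⁻¹ * v⁻¹ = (v * f z)⁻¹ := by group
  rw [h4, op_ct] at h3
  exact h3

theorem Ctx.new_cell (C : D.Ctx n X g f M) {c σ τ : G} (hc : D.tc c = n) (h : M c σ τ) :
    D.isL (σ * c) σ ∧ D.isR (c * τ) τ ∧ D.isL (σ * c * τ) σ ∧ D.isR (σ * c * τ) τ ∧
      D.rt (σ * c) = n ∧ D.ct (c * τ) = n := by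
  obtain ⟨h1, h2⟩ := C.hM.sub c hc σ τ h
  rw [op_UL] at h2
  have h3 : D.isL (σ * c) σ := D.isL_mul.2 ⟨h1.1, h1.2.1⟩
  have h4 : D.isR (c * τ) τ := D.isR_mul.2 ⟨h2.1, h2.2.1⟩
  obtain ⟨h5, h6⟩ := D.square' h3 h4
  refine ⟨h3, h4, h6, h5, ?_, ?_⟩
  · rw [D.rt_cell h3, inv_mul_cancel_left, hc]
  · rw [D.ct_cell h4, mul_inv_cancel_right, hc]

end TD

end Pool.Agent.H79.HT
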