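import Pool.Agent.H79.HT.AdmB
import Pool.Agent.H79.HT.AdmN
import Pool.Agent.H79.HT.DOneR
import Pool.Agent.H79.HT.DOneL

/-!
# Module NEWUN [H79 HT]: every row meets the new set at most once

`new_adm` is complete. PROOF of `child_new`: `CR w t`, `t ∈ Th`, `v = w t ∈ New`, `v ∉ X`; then
`rt w = n`, the row `w` does not meet `X`, and `t` is determined by `w`: there are two cases.
Kind column is impossible (`isR v t`, `new_col`). Kind row, `v⁻¹ = f z * z`: `t = (f z)⁻¹`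
(`isR_unique`), `w = v t⁻¹`, `w⁻¹ = z` (`(w t)⁻¹ = t⁻¹ w⁻¹ = f z * z`), so `t = (f w⁻¹)⁻¹`, and `op_FL`
says that `w` is no left child and does not meet `X`. Kind cell, `v = σ c τ`: `t = τ`, `w = σ c`,
`isL w σ`, `M (σ⁻¹ w) σ t`; `UL X c σ` says that the row `σ c` does not meet `X`; `rt w = n` (`new_cell`).
PROOF of `new_un`. `w t₁, w t₂ ∈ New`. Both `NR`: `ru` for the set `New` (`new_adm`). Otherwise let
`t₁ ∈ Th`, `CR w t₁` (the other case is symmetric); `isR (w t₁) t₁`, `w t₁ t₁⁻¹ = w`.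
(a) `w t₁ ∈ X`: `rt w < n` (`timeR`). Then `w t₂ ∈ X`: if `NR w t₂`: `w t₂` is a child (`new_child`) and
`d1R`/`d1L` give a time `< rt w < n` (`old_R`, `old_L`); if `CR w t₂`: `old_R`. So `un` for `X`.
(b) `w t₁ ∉ X`: `child_new`: `rt w = n` and the row `w` does not meet `X`. If `NR w t₂`: `d1R`/`d1L`:
the time of `w t₂` is `< n`, so `w t₂ ∈ X` (`old_R`, `old_L`), contradiction. If `CR w t₂`: `w t₂ ∉ X`,
`child_new` for `t₂`: either both `t₁ = t₂ = (f w⁻¹)⁻¹`, or `isL w σ`, `M (σ⁻¹ w) σ t₁`, `isL w σ'`,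
`M (σ'⁻¹ w) σ' t₂`, `σ = σ'` (`isL_unique`) and `t₁ = t₂` by `C.hM.row` (`sub` gives `UL`); the mixed
case is impossible.
-/

set_option autoImplicit false

open scoped Classical

namespace Pool.Agent.H79.HT

namespace TD

variable {G : Type*} [Group G] {D : TD G} {n : ℤ} {X : Set G} {g f : G → G}
  {M : G → G → G → Prop}

theorem Ctx.new_adm (C : D.Ctx n X g f M) : D.Adm (D.New n X g f M) where
  child := fun _ hv => C.new_child hv
  a2 := fun _ hv _ hL hR _ hc => C.new_a2 hv hL hR hc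
  a3 := fun _ hv _ hL hR _ hc h1 => C.new_a3 hv hL hR hc h1
  a3n := fun _ hv _ hm => C.new_a3n hv hm

theorem Ctx.child_new (C : D.Ctx n X g f M) {w t : G} (ht : t ∈ D.Th) (h : D.CR w t)
    (hv : w * t ∈ D.New n X g f M) (hX : w * t ∉ X) :
    D.rt w = n ∧ (∀ s ∈ D.T, w * s ∉ X) ∧
      (((∀ σ, ¬ D.isL w σ) ∧ t = (f w⁻¹)⁻¹) ∨
        ∃ σ, D.isL w σ ∧ D.tc (σ⁻¹ * w) = n ∧ M (σ⁻¹ * w) σ t) := by
  have hR : D.isR (w * t) t := D.isR_mul.2 ⟨ht, h⟩
  have hrt : D.rt w = n := by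
    have h1 := C.new_R hv hX hR
    rwa [mul_inv_cancel_right] at h1
  rcases hv with hv | ⟨y, hy, hv⟩ | ⟨z, hz, hv⟩ | ⟨c, σ, τ, hc, hM, hv⟩
  · exact absurd hv hX
  · exfalso
    have h2 := (C.new_col hy).2.1 t
    rw [← hv] at h2
    exact h2 hR
  · have h2 := (C.new_row hz hv).1
    have h3 : t = (f z)⁻¹ := D.isR_unique hR h2
    have h4 : w⁻¹ = z := by
      have h5 : t⁻¹ * w⁻¹ = f z * z := by rw [← mul_inv_rev]; exact hv
      rw [h3, inv_inv] at h5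
      exact mul_left_cancel h5
    subst h4
    obtain ⟨-, -, k1, k2⟩ := D.op_FL.1 hz
    exact ⟨hrt, k2, Or.inl ⟨k1, h3⟩⟩
  · obtain ⟨a1, a2, a3, a4, a5, a6⟩ := C.new_cell hc hM
    have h3 : t = τ := D.isR_unique hR (by rw [hv]; exact a4)
    subst h3
    have h4 : w = σ * c := mul_right_cancel hv
    subst h4
    have hU := (C.hM.sub c hc σ t hM).1
    refine ⟨hrt, hU.2.2, Or.inr ⟨σ, a1, ?_, ?_⟩⟩
    · rw [inv_mul_cancel_left]; exact hc
    · rw [inv_mul_cancel_left]; exact hM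

/-- the asymmetric part of `new_un` -/
private theorem new_un_aux (C : D.Ctx n X g f M) {w t₁ t₂ : G} (ht1 : t₁ ∈ D.Th) (hCR : D.CR w t₁)
    (h2 : t₂ ∈ D.T) (x1 : w * t₁ ∈ D.New n X g f M) (x2 : w * t₂ ∈ D.New n X g f M) : t₁ = t₂ := by
  have hR1 : D.isR (w * t₁) t₁ := D.isR_mul.2 ⟨ht1, hCR⟩
  have h1 : t₁ ∈ D.T := D.mem_T.2 (Or.inr ht1)
  -- the times of a nonchild
  have hnr : D.NR w t₂ → D.rt w ≤ n → w * t₂ ∈ X := by
    intro hN hle
    rcases C.new_child x2 with ⟨τ, hτ⟩ | ⟨σ, hσ⟩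
    · have h3 := D.d1R hN hτ
      exact C.old_R x2 hτ (by omega)
    · have h3 := D.d1L hN hσ
      exact C.old_L x2 hσ (by omega)
  by_cases hx : w * t₁ ∈ X
  · have hrt : D.rt w < n := by
      have h3 := C.inv.1.timeR _ hx t₁ hR1
      rwa [mul_inv_cancel_right] at h3
    have hx2 : w * t₂ ∈ X := by
      by_cases hN : D.NR w t₂
      · exact hnr hN hrt.le
      · rcases D.mem_T.1 h2 with hE | hTh
        · exact absurd (Or.inl hE) hN
        · have hCR2 : D.CR w t₂ := by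
            by_contra hc
            exact hN (Or.inr ⟨hTh, hc⟩)
          have hR2 : D.isR (w * t₂) t₂ := D.isR_mul.2 ⟨hTh, hCR2⟩
          exact C.old_R x2 hR2 (by rw [mul_inv_cancel_right]; exact hrt)
    exact C.inv.1.un w t₁ h1 t₂ h2 hx hx2
  · obtain ⟨k1, k2, k3⟩ := C.child_new ht1 hCR x1 hx
    by_cases hN : D.NR w t₂
    · exact absurd (hnr hN k1.le) (k2 t₂ h2)
    · rcases D.mem_T.1 h2 with hE | hTh
      · exact absurd (Or.inl hE) hN
      · have hCR2 : D.CR w t₂ := by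
          by_contra hc
          exact hN (Or.inr ⟨hTh, hc⟩)
        obtain ⟨-, -, k4⟩ := C.child_new hTh hCR2 x2 (k2 t₂ h2)
        rcases k3 with ⟨a1, a2⟩ | ⟨σ, a1, a2, a3⟩
        · rcases k4 with ⟨b1, b2⟩ | ⟨σ', b1, b2, b3⟩
          · rw [a2, b2]
          · exact absurd b1 (a1 σ')
        · rcases k4 with ⟨b1, b2⟩ | ⟨σ', b1, b2, b3⟩
          · exact absurd a1 (b1 σ)
          · have h5 : σ = σ' := D.isL_unique a1 b1
            subst h5
            obtain ⟨τ, -, hτ⟩ := C.hM.row _ a2 σ (C.hM.sub _ a2 _ _ a3).1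
            rw [hτ t₁ a3, hτ t₂ b3]

theorem Ctx.new_un (C : D.Ctx n X g f M) {w t₁ t₂ : G} (h1 : t₁ ∈ D.T) (h2 : t₂ ∈ D.T)
    (x1 : w * t₁ ∈ D.New n X g f M) (x2 : w * t₂ ∈ D.New n X g f M) : t₁ = t₂ := by
  by_cases hN1 : D.NR w t₁
  · by_cases hN2 : D.NR w t₂
    · exact D.ru C.new_adm hN1 hN2 x1 x2
    · rcases D.mem_T.1 h2 with hE | hTh
      · exact absurd (Or.inl hE) hN2
      · have hCR2 : D.CR w t₂ := by
          by_contra hc
          exact hN2 (Or.inr ⟨hTh, hc⟩)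
        exact (new_un_aux C hTh hCR2 h1 x2 x1).symm
  · rcases D.mem_T.1 h1 with hE | hTh
    · exact absurd (Or.inl hE) hN1
    · have hCR1 : D.CR w t₁ := by
        by_contra hc
        exact hN1 (Or.inr ⟨hTh, hc⟩)
      exact new_un_aux C hTh hCR1 h2 x1 x2

end TD

end Pool.Agent.H79.HT
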