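import Pool.Agent.H79.HT.Defs

/-!
# Module OP [H79 HT]: the dictionary between `D` and `D.op` (complete)
-/

set_option autoImplicit false

open scoped Classical

namespace Pool.Agent.H79.HT

namespace TD

variable {G : Type*} [Group G] (D : TD G)

theorem op_len (x : G) : D.op.len x = D.len x := rfl

theorem op_p (x y : G) : D.op.p x y = D.p x y := rfl

theorem op_κ : D.op.κ = D.κ := rfl

theorem op_L : D.op.L = D.L := rfl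

theorem op_N : D.op.N = D.N := rfl

theorem op_E_card : D.op.E.card = D.E.card := Finset.card_map _

theorem op_Th_card : D.op.Th.card = D.Th.card := Finset.card_map _

theorem op_CR {σ y : G} : D.op.CR y⁻¹ σ⁻¹ ↔ D.CL σ y := Iff.rfl

theorem op_CL {z τ : G} : D.op.CL τ⁻¹ z⁻¹ ↔ D.CR z τ := by
  unfold CL
  rw [op_op, inv_inv, inv_inv]

theorem op_isR {v σ : G} : D.op.isR v⁻¹ σ⁻¹ ↔ D.isL v σ := Iff.rfl

theorem op_isL {v τ : G} : D.op.isL v⁻¹ τ⁻¹ ↔ D.isR v τ := by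
  unfold isL
  rw [op_op, inv_inv, inv_inv]

theorem op_NR {w t : G} : D.op.NR w⁻¹ t⁻¹ ↔ D.NL w t := Iff.rfl

theorem op_NL {w t : G} : D.op.NL w⁻¹ t⁻¹ ↔ D.NR w t := by
  unfold NL
  rw [op_op, inv_inv, inv_inv]

theorem op_rt {y : G} : D.op.rt y⁻¹ = D.ct y := rfl

theorem op_ct {z : G} : D.op.ct z⁻¹ = D.rt z := by
  unfold ct
  rw [op_op, inv_inv]

theorem op_tc {c : G} : D.op.tc c⁻¹ = D.tc c := by
  unfold tc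
  rw [op_len, op_L, op_κ, D.len_inv]

theorem isL_iff {v σ : G} : D.isL v σ ↔ σ ∈ D.Th ∧ D.CL σ (σ⁻¹ * v) := by
  unfold isL isR CL
  rw [inv_mem_op_Th, inv_inv, mul_inv_rev, inv_inv]

theorem isR_iff {v τ : G} : D.isR v τ ↔ τ ∈ D.Th ∧ D.CR (v * τ⁻¹) τ := Iff.rfl

theorem isR_mul {z τ : G} : D.isR (z * τ) τ ↔ τ ∈ D.Th ∧ D.CR z τ := by
  rw [isR_iff, mul_inv_cancel_right]

theorem isL_mul {y σ : G} : D.isL (σ * y) σ ↔ σ ∈ D.Th ∧ D.CL σ y := by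
  rw [isL_iff, inv_mul_cancel_left]

theorem NL_iff {w t : G} : D.NL w t ↔ t ∈ D.E ∨ (t ∈ D.Th ∧ ¬ D.CL t w) := by
  unfold NL NR
  rw [inv_mem_op_E, inv_mem_op_Th]
  rfl

theorem op_isR_iff {v σ : G} : D.op.isR v σ ↔ D.isL v⁻¹ σ⁻¹ := by
  unfold isL
  rw [inv_inv, inv_inv]

theorem op_isL_iff {v σ : G} : D.op.isL v σ ↔ D.isR v⁻¹ σ⁻¹ := by
  rw [← D.op_isL, inv_inv, inv_inv]

theorem op_exists_isR {v : G} : (∃ σ, D.op.isR v⁻¹ σ) ↔ ∃ σ, D.isL v σ := by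
  constructor
  · rintro ⟨σ, h⟩
    refine ⟨σ⁻¹, ?_⟩
    rw [op_isR_iff, inv_inv] at h
    exact h
  · rintro ⟨σ, h⟩
    exact ⟨σ⁻¹, h⟩

theorem op_exists_isL {v : G} : (∃ σ, D.op.isL v⁻¹ σ) ↔ ∃ τ, D.isR v τ := by
  constructor
  · rintro ⟨σ, h⟩
    refine ⟨σ⁻¹, ?_⟩
    rw [op_isL_iff, inv_inv] at h
    exact h
  · rintro ⟨σ, h⟩
    exact ⟨σ⁻¹, D.op_isL.2 h⟩

theorem op_forall_not_isR {v : G} : (∀ σ, ¬ D.op.isR v⁻¹ σ) ↔ ∀ σ, ¬ D.isL v σ := by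
  have h := D.op_exists_isR (v := v)
  constructor
  · intro h1 σ h2
    obtain ⟨σ', h3⟩ := h.2 ⟨σ, h2⟩
    exact h1 σ' h3
  · intro h1 σ h2
    obtain ⟨σ', h3⟩ := h.1 ⟨σ, h2⟩
    exact h1 σ' h3

theorem op_forall_not_isL {v : G} : (∀ σ, ¬ D.op.isL v⁻¹ σ) ↔ ∀ τ, ¬ D.isR v τ := by
  have h := D.op_exists_isL (v := v)
  constructor
  · intro h1 σ h2
    obtain ⟨σ', h3⟩ := h.2 ⟨σ, h2⟩
    exact h1 σ' h3
  · intro h1 σ h2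
    obtain ⟨σ', h3⟩ := h.1 ⟨σ, h2⟩
    exact h1 σ' h3

theorem mem_iv {X : Set G} {v : G} : v⁻¹ ∈ iv X ↔ v ∈ X := by
  show v⁻¹⁻¹ ∈ X ↔ v ∈ X
  rw [inv_inv]

theorem mem_iv' {X : Set G} {v : G} : v ∈ iv X ↔ v⁻¹ ∈ X := Iff.rfl

theorem iv_iv (X : Set G) : iv (iv X) = X := by
  ext v
  show v⁻¹⁻¹ ∈ X ↔ v ∈ X
  rw [inv_inv]

theorem Inv.op {D : TD G} {n : ℤ} {X : Set G} (h : D.Inv n X) : D.op.Inv n (iv X) := by
  refine ⟨h.2, ?_⟩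
  rw [op_op, iv_iv]
  exact h.1

theorem NE_inv {n : G} (h : D.NE n) : D.NE n⁻¹ := by
  obtain ⟨h1, h2, e, he, f, hf, h3⟩ := h
  exact ⟨D.N.inv_mem h1, by simpa using h2, f, hf, e, he, by rw [h3]; group⟩

/-- `op.NE n`: `n ∈ N`, `n ≠ 1`, `n ∈ E E⁻¹`. -/
theorem op_NE_iff {n : G} : D.op.NE n ↔ n ∈ D.N ∧ n ≠ 1 ∧ ∃ e ∈ D.E, ∃ f ∈ D.E, n = e * f⁻¹ := by
  unfold NE
  rw [op_N]
  constructor
  · rintro ⟨h1, h2, e, he, f, hf, h3⟩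
    refine ⟨h1, h2, e⁻¹, D.mem_op_E.1 he, f⁻¹, D.mem_op_E.1 hf, ?_⟩
    rw [inv_inv]
    exact h3
  · rintro ⟨h1, h2, e, he, f, hf, h3⟩
    refine ⟨h1, h2, e⁻¹, D.inv_mem_op_E.2 he, f⁻¹, D.inv_mem_op_E.2 hf, ?_⟩
    rw [inv_inv]
    exact h3

/-- `FL` of the dual data at `z⁻¹`: a free row of time `n` that does not meet `X`. -/
theorem op_FL {n : ℤ} {X : Set G} {z : G} : D.op.FL n (iv X) z⁻¹ ↔
    D.rt z = n ∧ z ∉ D.N ∧ (∀ σ, ¬ D.isL z σ) ∧ ∀ t ∈ D.T, z * t ∉ X := by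
  unfold FL
  rw [op_ct, op_forall_not_isR, op_N]
  have h1 : z⁻¹ ∉ D.N ↔ z ∉ D.N := not_congr D.N.inv_mem_iff
  rw [h1]
  constructor
  · rintro ⟨a, b, c, d⟩
    refine ⟨a, b, c, fun t ht h => d t⁻¹ (D.inv_mem_op_T.2 ht) ?_⟩
    rw [← mul_inv_rev, mem_iv]
    exact h
  · rintro ⟨a, b, c, d⟩
    refine ⟨a, b, c, fun t ht h => d t⁻¹ ?_ ?_⟩
    · rw [← D.inv_mem_op_T, inv_inv]
      exact ht
    · rw [mem_iv', mul_inv_rev, inv_inv] at h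
      exact h

/-- `UL` of the dual data at `c⁻¹`: `c τ` is a child of `c`, its column does not meet `X`. -/
theorem op_UL {X : Set G} {c τ : G} : D.op.UL (iv X) c⁻¹ τ⁻¹ ↔
    τ ∈ D.Th ∧ D.CR c τ ∧ ∀ t ∈ D.T, t * (c * τ) ∉ X := by
  unfold UL
  rw [inv_mem_op_Th, op_CL]
  constructor
  · rintro ⟨a, b, d⟩
    refine ⟨a, b, fun t ht h => d t⁻¹ (D.inv_mem_op_T.2 ht) ?_⟩
    have e : τ⁻¹ * c⁻¹ * t⁻¹ = (t * (c * τ))⁻¹ := by group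
    rw [e, mem_iv]
    exact h
  · rintro ⟨a, b, d⟩
    refine ⟨a, b, fun t ht h => d t⁻¹ ?_ ?_⟩
    · rw [← D.inv_mem_op_T, inv_inv]
      exact ht
    · rw [mem_iv'] at h
      have e : (τ⁻¹ * c⁻¹ * t)⁻¹ = t⁻¹ * (c * τ) := by group
      rw [e] at h
      exact h

end TD

end Pool.Agent.H79.HT
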