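import Pool.Agent.H79.HT.Child

/-!
# Module SQUARE [H79 HT]: double children

PROOFS. `square`. `z = v τ⁻¹`, `y = σ⁻¹ v`. `p v σ ≥ 2L - 102κ` (`isL_p`), `v = z τ`.
(i) If not (`z ∈ N` and `σ = τ`): `sc1` with `a = z`, `t = τ`, `s = σ`: `p z σ ≥ p v σ - κ ≥
2L - 103κ > L + κ`, so `wL z σ` (`wL_of_p`, `p_comm`).
(ii) If not (`y ∈ N` and `σ = τ`): the mirror image: `sc1` for `D.op` with `a = y⁻¹`, `t = σ⁻¹`,
`s = τ⁻¹` (`y⁻¹ σ⁻¹ = v⁻¹`): `p y⁻¹ τ⁻¹ ≥ p v⁻¹ τ⁻¹ - κ ≥ 2L - 103κ` (`isR_p`), so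
`D.op.wL y⁻¹ τ⁻¹` (`D.op.wL_of_p`).
If `z ∈ N` and `σ = τ` we are in the first case. If `y ∈ N` and `σ = τ`: `v = τ y = y τ` (`comm`),
`z = y ∈ N`, first case again. Otherwise (i) and (ii) hold; `c = σ⁻¹ z = y τ⁻¹`
(`σ⁻¹ (v τ⁻¹) = (σ⁻¹ v) τ⁻¹`): `CR z τ ↔ CR c τ` (`CR_step`), so `isR y τ`; `CL σ y ↔ CL σ c`
(`CL_step`), so `isL z σ` (`isL_iff`).
`square'`. `isL (σ c) σ`: `wL (σ c) σ` (`isL_wL`), so `CR (σ c) τ ↔ CR c τ` (`CR_step`), true by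
`isR (c τ) τ` (`isR_mul`); so `isR (σ c τ) τ`. Mirror: `D.op.wL (c τ)⁻¹ τ⁻¹` (`isR_wR`),
`CL σ (c τ) ↔ CL σ c` (`CL_step`), so `isL (σ (c τ)) σ`.
-/

set_option autoImplicit false

open scoped Classical

namespace Pool.Agent.H79.HT

namespace TD

variable {G : Type*} [Group G] (D : TD G)

theorem square {v σ τ : G} (hL : D.isL v σ) (hR : D.isR v τ) :
    (v * τ⁻¹ ∈ D.N ∧ σ⁻¹ * v ∈ D.N ∧ σ = τ) ∨
      (D.isL (v * τ⁻¹) σ ∧ D.isR (σ⁻¹ * v) τ) := by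
  have hκ := D.hκ
  have hLL := D.hL
  have hp1 := D.isL_p hL
  have hp2 := D.isR_p hR
  have hσ : σ ∈ D.Th := (D.isL_iff.1 hL).1
  have hτ : τ ∈ D.Th := hR.1
  have hi : ¬ (v * τ⁻¹ ∈ D.N ∧ σ = τ) → D.wL (v * τ⁻¹) σ := by
    intro h
    have h1 : D.p (v * τ⁻¹ * τ) σ ≤ D.p (v * τ⁻¹) σ + D.κ :=
      (D.sc1 (v * τ⁻¹) τ hτ σ hσ (fun h2 h3 => h ⟨h2, h3⟩)).1
    rw [inv_mul_cancel_right] at h1
    refine D.wL_of_p hσ ?_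
    rw [D.p_comm]
    omega
  have hii : ¬ (σ⁻¹ * v ∈ D.N ∧ σ = τ) → D.op.wL (σ⁻¹ * v)⁻¹ τ⁻¹ := by
    intro h
    have h1 : D.p ((σ⁻¹ * v)⁻¹ * σ⁻¹) τ⁻¹ ≤ D.p (σ⁻¹ * v)⁻¹ τ⁻¹ + D.κ :=
      (D.op.sc1 (σ⁻¹ * v)⁻¹ σ⁻¹ (D.inv_mem_op_Th.2 hσ) τ⁻¹ (D.inv_mem_op_Th.2 hτ)
        (fun h2 h3 => h ⟨D.N.inv_mem_iff.1 h2, (inv_injective h3).symm⟩)).1
    have e : (σ⁻¹ * v)⁻¹ * σ⁻¹ = v⁻¹ := by group
    rw [e] at h1
    refine D.op.wL_of_p (D.inv_mem_op_Th.2 hτ) ?_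
    rw [op_p, op_L, op_κ, D.p_comm]
    omega
  by_cases c1 : v * τ⁻¹ ∈ D.N ∧ σ = τ
  · left
    obtain ⟨a1, a2⟩ := c1
    subst a2
    refine ⟨a1, ?_, rfl⟩
    have h1 := D.comm _ a1 σ hσ
    rw [inv_mul_cancel_right] at h1
    rw [h1, inv_mul_cancel_left]
    exact a1
  · by_cases c2 : σ⁻¹ * v ∈ D.N ∧ σ = τ
    · left
      obtain ⟨a1, a2⟩ := c2
      subst a2
      refine ⟨?_, a1, rfl⟩
      have h1 := D.comm _ a1 σ hσ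
      rw [mul_inv_cancel_left] at h1
      rw [← h1, mul_inv_cancel_right]
      exact a1
    · right
      have w1 := hi c1
      have w2 := hii c2
      have e : σ⁻¹ * (v * τ⁻¹) = σ⁻¹ * v * τ⁻¹ := by rw [mul_assoc]
      constructor
      · refine D.isL_iff.2 ⟨hσ, ?_⟩
        have h2 := (D.isL_iff.1 hL).2
        rw [D.CL_step w2, ← e] at h2
        exact h2
      · refine ⟨hτ, ?_⟩
        have h2 := hR.2
        rw [D.CR_step w1, e] at h2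
        exact h2

theorem square' {c σ τ : G} (hσ : D.isL (σ * c) σ) (hτ : D.isR (c * τ) τ) :
    D.isR (σ * c * τ) τ ∧ D.isL (σ * c * τ) σ := by
  constructor
  · have h1 := D.isL_wL hσ
    have h2 := (D.isR_mul.1 hτ)
    refine D.isR_mul.2 ⟨h2.1, ?_⟩
    rw [D.CR_step h1, inv_mul_cancel_left]
    exact h2.2
  · have h1 := D.isR_wR hτ
    have h2 := (D.isL_mul.1 hσ)
    rw [mul_assoc]
    refine D.isL_mul.2 ⟨h2.1, ?_⟩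
    rw [D.CL_step h1, mul_inv_cancel_right]
    exact h2.2

/-- A child of a cell row is a double child. -/
theorem isL_of_row {z σ τ : G} (hz : D.isL z σ) (h : D.isR (z * τ) τ) : D.isL (z * τ) σ := by
  have h1 : z = σ * (σ⁻¹ * z) := by group
  have h2 : D.isL (σ * (σ⁻¹ * z)) σ := by
    rw [← h1]
    exact hz
  have h3 : D.isR (σ⁻¹ * z * τ) τ := by
    rw [isR_mul] at h ⊢
    exact ⟨h.1, (D.CR_step (D.isL_wL hz) τ).1 h.2⟩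
  have h4 := (D.square' h2 h3).2
  rw [← h1] at h4
  exact h4

/-- the mirror image of `isL_of_row` -/
theorem isR_of_col {y σ τ : G} (hy : D.isR y τ) (h : D.isL (σ * y) σ) : D.isR (σ * y) τ := by
  have h1 : D.op.isR (y⁻¹ * σ⁻¹) σ⁻¹ := by
    rw [← mul_inv_rev]
    exact h
  have h2 := D.op.isL_of_row (D.op_isL.2 hy) h1
  rw [← mul_inv_rev, op_isL] at h2
  exact h2

/-- A row in `N` has only children. -/
theorem CR_N {n τ : G} (hn : n ∈ D.N) (hτ : τ ∈ D.Th) : D.CR n τ := by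
  by_contra h
  have h1 := (D.claimA hτ).2 h
  have h2 := D.p_le_left n⁻¹ τ
  rw [D.len_inv, D.len_N hn] at h2
  have h3 := D.hκ
  omega

theorem CL_N {n σ : G} (hn : n ∈ D.N) (hσ : σ ∈ D.Th) : D.CL σ n :=
  D.op.CR_N (D.N.inv_mem hn) (D.inv_mem_op_Th.2 hσ)

end TD

end Pool.Agent.H79.HT
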