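import Pool.Agent.H79.HT.Ends

/-!
# Module TERM [H79 HT]: terminal elements and inheritance

PROOFS. `term_eq`: `rw [term]; exact dif_neg (by ...)` (unfold once with `rw [D.term.eq_1]` or
`unfold term`, beware of the recursive occurrence; `conv_lhs => rw [term]` is safe).
`term_step`: unfold the left side once: `dif_pos ⟨σ, h⟩` gives `term (h.choose⁻¹ * z)` and the chosen
element is `σ` by `wL_unique`. `CR_step`, `NR_step`: `CR z τ` only depends on `term z`.
`chain`: strong induction on `(len z).toNat`. If `z` has a weak left end `σ₀` let `z' = σ₀⁻¹ z`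
(shorter). If `z'` has no weak left end take `l = []`, `y = z`, `σ = σ₀`
(`term z = term z' = z'`). Otherwise the induction hypothesis for `z'` gives `l, y, σ`; take
`l ++ [σ₀]`: `((l ++ [σ₀]).map (·⁻¹)).prod = (l.map (·⁻¹)).prod * σ₀⁻¹`, whose inverse is
`σ₀ * ((l.map (·⁻¹)).prod)⁻¹`, and `z = σ₀ z'`.
-/

set_option autoImplicit false

open scoped Classical

namespace Pool.Agent.H79.HT

namespace TD

variable {G : Type*} [Group G] (D : TD G)

theorem term_eq {z : G} (h : ∀ σ, ¬ D.wL z σ) : D.term z = z := by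
  conv_lhs => rw [term]
  rw [dif_neg]
  rintro ⟨σ, hσ⟩
  exact h σ hσ

theorem term_step {z σ : G} (h : D.wL z σ) : D.term z = D.term (σ⁻¹ * z) := by
  have h' : ∃ σ, D.wL z σ := ⟨σ, h⟩
  conv_lhs => rw [term]
  rw [dif_pos h', D.wL_unique h'.choose_spec h]

theorem CR_step {z σ : G} (h : D.wL z σ) (τ : G) : D.CR z τ ↔ D.CR (σ⁻¹ * z) τ := by
  unfold CR
  rw [D.term_step h]

theorem NR_step {z σ : G} (h : D.wL z σ) (t : G) : D.NR z t ↔ D.NR (σ⁻¹ * z) t := by
  unfold NR
  rw [D.CR_step h]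

/-- The chain of weak left ends of `z`: `z = W y` with `W⁻¹ = s₁⁻¹ s₂⁻¹ ...`, `y` has exactly one
more weak left end. -/
theorem chain (z : G) : (∀ σ, ¬ D.wL z σ) ∨ ∃ (l : List G) (y σ : G), (∀ x ∈ l, x ∈ D.Th) ∧
    z = ((l.map (fun x => x⁻¹)).prod)⁻¹ * y ∧ D.wL y σ ∧ (∀ σ', ¬ D.wL (σ⁻¹ * y) σ') ∧
    D.term z = σ⁻¹ * y := by
  obtain ⟨n, hn⟩ : ∃ n : ℕ, (D.len z).toNat = n := ⟨_, rfl⟩
  induction n using Nat.strong_induction_on generalizing z with
  | _ n ih =>
    by_cases h0 : ∀ σ, ¬ D.wL z σ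
    · exact Or.inl h0
    right
    push Not at h0
    obtain ⟨σ₀, h0⟩ := h0
    have hlt := h0.2
    have hnn := D.len_nonneg (σ₀⁻¹ * z)
    rcases ih (D.len (σ₀⁻¹ * z)).toNat (by omega) (σ₀⁻¹ * z) rfl with h1 | h1
    · refine ⟨[], z, σ₀, by simp, by simp, h0, h1, ?_⟩
      rw [D.term_step h0, D.term_eq h1]
    · obtain ⟨l, y, σ, hl, hz, hy, hσ, ht⟩ := h1
      refine ⟨l ++ [σ₀], y, σ, ?_, ?_, hy, hσ, ?_⟩
      · intro x hx
        rcases List.mem_append.1 hx with hx | hx
        · exact hl x hx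
        · rw [List.mem_singleton.1 hx]
          exact h0.1
      · rw [List.map_append, List.prod_append, mul_inv_rev]
        simp only [List.map_cons, List.map_nil, List.prod_cons, List.prod_nil, mul_one, inv_inv]
        rw [mul_assoc, ← hz, mul_inv_cancel_left]
      · rw [D.term_step h0]
        exact ht

end TD

end Pool.Agent.H79.HT
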