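import Pool.Agent.H79.HT.Square
import Pool.Agent.H79.HT.NInvA

/-!
# Module TIME [H79 HT]: the times of rows and columns

PROOFS. `rt_cell`: unfold `rt`, `dif_pos ⟨σ, h⟩`, the chosen element is `σ` (`isL_unique`).
`rt_free`: `dif_neg`. `rt_N`: an element of `N` is not a left child (`isL_len`: `len v ≥ L - 102κ > 0`,
`len_nonneg`), `tR z = 0`. `rt_pos`: cell: `len c + L - 50κ > 0`; otherwise `tR z` is `len z` with
`4κ < p t z ≤ 2 len z`, or `len z + 100κ`. `rt_lower`: cell row `z = σ c`: `len z ≤ len c + L + κ`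
(`isL_len'`), so `rt z ≥ len z - 51κ`; free: `tR z ≥ len z` or `z ∈ N` and `len z = 0`.
`rt_upper`: cell: `len c ≤ len z - L + 102κ` (`isL_len`), so `rt z ≤ len z + 52κ`.
`time_eq`: `square`: in the first case `v τ⁻¹, σ⁻¹ v ∈ N` and both times are `0` (`rt_N`, `ct_N`); in
the second case `rt (v τ⁻¹) = tc (σ⁻¹ (v τ⁻¹))` and `ct (σ⁻¹ v) = tc ((σ⁻¹ v) τ⁻¹)` (`rt_cell`, `ct_cell`),
and the two elements are equal.
`rt_mulN`: by `isL_mulN`: cell: `tc (σ⁻¹ (z n)) = tc (σ⁻¹ z)` (`len_mul_N`); free: `tR (z n) = tR z`: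
`z n ∈ N ↔ z ∈ N`, `p t (z n) = p t z` (`p_comm`; `pe (z n) t`: `len (n⁻¹ z⁻¹ t) = len (z⁻¹ t)` by
`lenN`), `len (z n) = len z`. `rt_Nmul`: `len (σ⁻¹ n z) = len (n σ⁻¹ z) = len (σ⁻¹ z)` by `comm`;
`p t (n z) = p t z`: `len (t⁻¹ n z) = len (n t⁻¹ z) = len (t⁻¹ z)`.
-/

set_option autoImplicit false

open scoped Classical

namespace Pool.Agent.H79.HT

namespace TD

variable {G : Type*} [Group G] (D : TD G)

theorem rt_cell {z σ : G} (h : D.isL z σ) : D.rt z = D.tc (σ⁻¹ * z) := by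
  have h' : ∃ σ, D.isL z σ := ⟨σ, h⟩
  unfold rt
  rw [dif_pos h', D.isL_unique h'.choose_spec h]

theorem rt_free {z : G} (h : ∀ σ, ¬ D.isL z σ) : D.rt z = D.tR z := by
  unfold rt
  rw [dif_neg]
  rintro ⟨σ, hσ⟩
  exact h σ hσ

theorem rt_N {z : G} (h : z ∈ D.N) : D.rt z = 0 := by
  rw [D.rt_free]
  · unfold tR
    rw [if_pos h]
  · intro σ hσ
    have h1 := D.isL_len hσ
    have h2 := D.len_N h
    have h3 := D.len_nonneg (σ⁻¹ * z)
    have h4 := D.hL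
    have h5 := D.hκ
    omega

theorem rt_pos {z : G} (h : z ∉ D.N) : 0 < D.rt z := by
  have h4 := D.hL
  have h5 := D.hκ
  by_cases h0 : ∃ σ, D.isL z σ
  · obtain ⟨σ, hσ⟩ := h0
    rw [D.rt_cell hσ]
    unfold tc
    have h3 := D.len_nonneg (σ⁻¹ * z)
    omega
  · rw [D.rt_free fun σ hσ => h0 ⟨σ, hσ⟩]
    unfold tR
    rw [if_neg h]
    split_ifs with h1
    · obtain ⟨t, _, h2⟩ := h1
      have h3 := D.p_le_right t z
      omega
    · have h3 := D.len_nonneg z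
      omega

theorem rt_lower (z : G) : D.len z - 51 * D.κ ≤ D.rt z := by
  have h5 := D.hκ
  by_cases h0 : ∃ σ, D.isL z σ
  · obtain ⟨σ, hσ⟩ := h0
    rw [D.rt_cell hσ]
    unfold tc
    have h3 := D.isL_len' hσ
    omega
  · rw [D.rt_free fun σ hσ => h0 ⟨σ, hσ⟩]
    unfold tR
    split_ifs with h1 h2
    · have h3 := D.len_N h1
      omega
    · omega
    · omega

theorem rt_upper (z : G) : D.rt z ≤ D.len z + 100 * D.κ := by
  have h5 := D.hκ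
  by_cases h0 : ∃ σ, D.isL z σ
  · obtain ⟨σ, hσ⟩ := h0
    rw [D.rt_cell hσ]
    unfold tc
    have h3 := D.isL_len hσ
    omega
  · rw [D.rt_free fun σ hσ => h0 ⟨σ, hσ⟩]
    unfold tR
    have h6 := D.len_nonneg z
    split_ifs with h1 h2
    · omega
    · omega
    · omega

theorem ct_cell {y τ : G} (h : D.isR y τ) : D.ct y = D.tc (y * τ⁻¹) := by
  have h1 := D.op.rt_cell (D.op_isL.2 h)
  have h2 : τ⁻¹⁻¹ * y⁻¹ = (y * τ⁻¹)⁻¹ := by group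
  rw [h2, op_tc] at h1
  exact h1

theorem ct_N {y : G} (h : y ∈ D.N) : D.ct y = 0 := D.op.rt_N (D.N.inv_mem h)

theorem ct_pos {y : G} (h : y ∉ D.N) : 0 < D.ct y :=
  D.op.rt_pos (fun h1 => h (D.N.inv_mem_iff.1 h1))

theorem ct_lower (y : G) : D.len y - 51 * D.κ ≤ D.ct y := by
  have h1 := D.op.rt_lower y⁻¹
  rw [op_len, D.len_inv] at h1
  exact h1

theorem ct_upper (y : G) : D.ct y ≤ D.len y + 100 * D.κ := by
  have h1 := D.op.rt_upper y⁻¹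
  rw [op_len, D.len_inv] at h1
  exact h1

/-- The time of a free column: class 1 or class 2. -/
theorem ct_free {y : G} (h : ∀ τ, ¬ D.isR y τ) (hN : y ∉ D.N) :
    (D.ct y = D.len y ∧ ∃ t ∈ D.Th, 4 * D.κ < D.p y⁻¹ t⁻¹) ∨
      (D.ct y = D.len y + 100 * D.κ ∧ ∀ t ∈ D.Th, D.p y⁻¹ t⁻¹ ≤ 4 * D.κ) := by
  have h1 := D.op.rt_free (D.op_forall_not_isL.2 h)
  have h2 : y⁻¹ ∉ D.N := fun h1 => hN (D.N.inv_mem_iff.1 h1)
  unfold tR at h1
  rw [op_N, if_neg h2] at h1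
  by_cases h3 : ∃ t ∈ D.op.Th, 4 * D.op.κ < D.op.p t y⁻¹
  · left
    rw [if_pos h3, op_len, D.len_inv] at h1
    refine ⟨h1, ?_⟩
    obtain ⟨t, ht, h4⟩ := h3
    refine ⟨t⁻¹, D.mem_op_Th.1 ht, ?_⟩
    rw [inv_inv, D.p_comm]
    exact h4
  · right
    rw [if_neg h3, op_len, op_κ, D.len_inv] at h1
    refine ⟨h1, ?_⟩
    intro t ht
    by_contra h4
    refine h3 ⟨t⁻¹, D.inv_mem_op_Th.2 ht, ?_⟩
    rw [op_p, op_κ, D.p_comm]
    omega

/-- The time of a free row: class 1 or class 2. -/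
theorem rt_free' {z : G} (h : ∀ σ, ¬ D.isL z σ) (hN : z ∉ D.N) :
    (D.rt z = D.len z ∧ ∃ t ∈ D.Th, 4 * D.κ < D.p z t) ∨
      (D.rt z = D.len z + 100 * D.κ ∧ ∀ t ∈ D.Th, D.p z t ≤ 4 * D.κ) := by
  have h1 := D.op.ct_free (y := z⁻¹) (D.op_forall_not_isR.2 h)
    (fun h1 => hN (D.N.inv_mem_iff.1 h1))
  rw [op_ct, op_len, op_κ, D.len_inv] at h1
  rcases h1 with ⟨h1, t, ht, h2⟩ | ⟨h1, h2⟩
  · left
    refine ⟨h1, t⁻¹, D.mem_op_Th.1 ht, ?_⟩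
    rw [inv_inv] at h2
    exact h2
  · right
    refine ⟨h1, fun t ht => ?_⟩
    have h3 := h2 t⁻¹ (D.inv_mem_op_Th.2 ht)
    rw [inv_inv, inv_inv] at h3
    exact h3

theorem time_eq {v σ τ : G} (hL : D.isL v σ) (hR : D.isR v τ) :
    D.rt (v * τ⁻¹) = D.ct (σ⁻¹ * v) := by
  rcases D.square hL hR with ⟨h1, h2, _⟩ | ⟨h1, h2⟩
  · rw [D.rt_N h1, D.ct_N h2]
  · rw [D.rt_cell h1, D.ct_cell h2, mul_assoc]

end TD

end Pool.Agent.H79.HT
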